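import Mathlib

/-!
# Extremal measures for the Laplacian: complex measures and densities
-/

set_option autoImplicit false
set_option linter.all false

namespace Pool.Agent.Q198.XM

open MeasureTheory

variable {X : Type*} [MeasurableSpace X]

/-- polar decomposition of a complex measure -/
theorem polar (ν : ComplexMeasure X) (hν : IsFiniteMeasure ν.variation) :
    ∃ h : X → ℂ, Integrable h ν.variation ∧ (∀ᵐ x ∂ν.variation, ‖h x‖ = 1) ∧
      ν.variation.withDensityᵥ h = ν := by
  have hac : ∀ i : Set X, ν.variation i = 0 → ν i = 0 := by
    intro i hi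
    have h1 := VectorMeasure.enorm_measure_le_variation ν i
    rw [hi] at h1
    have h2 : ‖ν i‖ₑ = 0 := le_antisymm h1 zero_le
    exact enorm_eq_zero.1 h2
  have hre : ComplexMeasure.re ν ≪ᵥ ν.variation.toENNRealVectorMeasure := by
    refine VectorMeasure.AbsolutelyContinuous.mk fun i hi h0 => ?_
    rw [Measure.toENNRealVectorMeasure_apply_measurable hi] at h0
    have h1 := hac i h0
    have h2 : (ComplexMeasure.re ν) i = (ν i).re := rfl
    rw [h2, h1, Complex.zero_re]
  have him : ComplexMeasure.im ν ≪ᵥ ν.variation.toENNRealVectorMeasure := by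
    refine VectorMeasure.AbsolutelyContinuous.mk fun i hi h0 => ?_
    rw [Measure.toENNRealVectorMeasure_apply_measurable hi] at h0
    have h1 := hac i h0
    have h2 : (ComplexMeasure.im ν) i = (ν i).im := rfl
    rw [h2, h1, Complex.zero_im]
  have hre2 := (SignedMeasure.absolutelyContinuous_iff_withDensityᵥ_rnDeriv_eq _ _).1 hre
  have him2 := (SignedMeasure.absolutelyContinuous_iff_withDensityᵥ_rnDeriv_eq _ _).1 him
  have hint := ComplexMeasure.integrable_rnDeriv ν ν.variation
  have heq : ν.variation.withDensityᵥ (ν.rnDeriv ν.variation) = ν := by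
    ext i hi
    rw [withDensityᵥ_apply hint hi]
    apply Complex.ext
    · rw [← RCLike.re_eq_complex_re, ← integral_re hint.integrableOn, RCLike.re_eq_complex_re]
      have h2 : (ComplexMeasure.re ν) i = (ν i).re := rfl
      rw [← h2, ← hre2, withDensityᵥ_apply _ hi]
      · rfl
      · exact SignedMeasure.integrable_rnDeriv _ _
    · rw [← RCLike.im_eq_complex_im, ← integral_im hint.integrableOn, RCLike.im_eq_complex_im]
      have h2 : (ComplexMeasure.im ν) i = (ν i).im := rfl
      rw [← h2, ← him2, withDensityᵥ_apply _ hi]
      · rfl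
      · exact SignedMeasure.integrable_rnDeriv _ _
  refine ⟨ν.rnDeriv ν.variation, hint, ?_, heq⟩
  have hvar := Measure.variation_withDensityᵥ hint
  rw [heq] at hvar
  have h1 : ν.variation.withDensity (fun x => ‖ν.rnDeriv ν.variation x‖ₑ) = ν.variation.withDensity 1 := by
    rw [withDensity_one]
    exact hvar.symm
  have h2 := (withDensity_eq_iff_of_sigmaFinite (μ := ν.variation) hint.aestronglyMeasurable.enorm
    aemeasurable_const).1 h1
  filter_upwards [h2] with x hx
  have h3 : ‖ν.rnDeriv ν.variation x‖ₑ = 1 := hx
  have h4 : ‖ν.rnDeriv ν.variation x‖ₑ.toReal = 1 := by rw [h3]; simp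
  rwa [toReal_enorm] at h4

/-- the integral against a complex measure with a density -/
theorem vint (ν : ComplexMeasure X) (hν : IsFiniteMeasure ν.variation) (h : X → ℂ)
    (hint : Integrable h ν.variation) (hb : ∀ᵐ x ∂ν.variation, ‖h x‖ = 1)
    (heq : ν.variation.withDensityᵥ h = ν) (f : X → ℂ) (hf : Integrable f ν.variation) :
    VectorMeasure.integral ν f (ContinuousLinearMap.mul ℝ ℂ) = ∫ x, f x * h x ∂ν.variation := by
  have hmul : ∀ g : X → ℂ, Integrable g ν.variation → Integrable (fun x => g x * h x) ν.variation := by
    intro g hg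
    refine hg.mul_bdd (c := 1) hint.aestronglyMeasurable ?_
    filter_upwards [hb] with x hx
    rw [hx]
  have key : ∀ g : X → ℂ, Integrable g ν.variation →
      VectorMeasure.integral ν g (ContinuousLinearMap.mul ℝ ℂ) = ∫ x, g x * h x ∂ν.variation := by
    apply Integrable.induction
    · intro c s hs hfin
      rw [VectorMeasure.integral_indicator_const c hs]
      have h1 : ν s = ∫ x in s, h x ∂ν.variation := by
        conv_lhs => rw [← heq]
        exact withDensityᵥ_apply hint hs
      rw [h1, ContinuousLinearMap.mul_apply', ← integral_const_mul, ← integral_indicator hs]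
      refine integral_congr_ae (Filter.Eventually.of_forall fun x => ?_)
      by_cases hx : x ∈ s
      · simp [Set.indicator_of_mem hx]
      · simp [Set.indicator_of_notMem hx]
    · intro f g hd hf hg ihf ihg
      rw [VectorMeasure.integral_add hf hg, ihf, ihg, ← integral_add (hmul f hf) (hmul g hg)]
      refine integral_congr_ae (Filter.Eventually.of_forall fun x => ?_)
      simp only [Pi.add_apply]
      ring
    · refine isClosed_eq VectorMeasure.continuous_integral ?_
      have hl : LipschitzWith 1 (fun f : Lp ℂ 1 ν.variation => ∫ x, f x * h x ∂ν.variation) := by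
        refine LipschitzWith.of_dist_le_mul fun f g => ?_
        rw [dist_eq_norm, dist_eq_norm, NNReal.coe_one, one_mul,
          ← integral_sub (hmul f (L1.integrable_coeFn f)) (hmul g (L1.integrable_coeFn g)), L1.norm_eq_integral_norm]
        refine (norm_integral_le_integral_norm _).trans (le_of_eq ?_)
        refine integral_congr_ae ?_
        filter_upwards [hb, Lp.coeFn_sub f g] with x hx hfg
        rw [hfg, Pi.sub_apply, ← sub_mul, norm_mul, hx, mul_one]
      exact hl.continuous
    · intro f g hfg hf ih
      rw [← VectorMeasure.integral_congr_ae hfg, ih]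
      refine integral_congr_ae ?_
      filter_upwards [hfg] with x hx
      rw [hx]
  exact key f hf

end Pool.Agent.Q198.XM
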