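import Pool.Agent.Q198.XM.Mom

/-!
# Extremal measures for the Laplacian: the moment conditions are sufficient
-/

set_option autoImplicit false
set_option linter.all false

namespace Pool.Agent.Q198.XM

open MeasureTheory Finset

/-- the span of the functions `t^β Phi q ‖t‖` -/
noncomputable def SS (m q₀ : ℕ) : Submodule ℂ (V m → ℂ) :=
  Submodule.span ℂ {f | ∃ (β : Fin (m + 1) → ℕ) (q : ℕ), ∑ i, β i + q₀ ≤ q ∧ f = gb β q}

theorem SS_deriv {m q₀ : ℕ} {f : V m → ℂ} (hf : f ∈ SS m q₀) (j : Fin (m + 1)) :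
    ∃ g ∈ SS m q₀, ∀ t : V m, HasDerivAt (fun τ : ℝ => f (t + τ • ej j)) (g t) 0 := by
  unfold SS at hf
  induction hf using Submodule.span_induction with
  | mem f hf =>
    obtain ⟨β, q, hq, rfl⟩ := hf
    refine ⟨(β j : ℂ) • gb (β - Pi.single j 1) q + (-(1 / (2 * ((q : ℂ) + 1)))) • gb (β + Pi.single j 1) (q + 1), ?_,
      fun t => gb_deriv β q t j⟩
    refine Submodule.add_mem _ (Submodule.smul_mem _ _ (Submodule.subset_span ⟨_, q, ?_, rfl⟩))
      (Submodule.smul_mem _ _ (Submodule.subset_span ⟨_, q + 1, ?_, rfl⟩))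
    · have := sum_sub_le β j
      omega
    · rw [sum_single]
      omega
  | zero => exact ⟨0, Submodule.zero_mem _, fun t => by simpa using hasDerivAt_const (0 : ℝ) (0 : ℂ)⟩
  | add f g hf hg ihf ihg =>
    obtain ⟨f', hf', h1⟩ := ihf
    obtain ⟨g', hg', h2⟩ := ihg
    exact ⟨f' + g', Submodule.add_mem _ hf' hg', fun t => (h1 t).add (h2 t)⟩
  | smul a f hf ihf =>
    obtain ⟨f', hf', h1⟩ := ihf
    exact ⟨a • f', Submodule.smul_mem _ _ hf', fun t => (h1 t).const_mul a⟩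

/-- weighted transforms of continuous functions -/
noncomputable def FT (m q₀ : ℕ) (P : C(V m, ℝ)) (t : V m) : ℂ := ∫ ξ, ((wt m q₀ ξ * P ξ : ℝ) : ℂ) * ch t ξ

theorem wP_cont {m q₀ : ℕ} (hq : m + 1 ≤ q₀) (P : C(V m, ℝ)) : Continuous (fun ξ : V m => ((wt m q₀ ξ * P ξ : ℝ) : ℂ)) :=
  Complex.continuous_ofReal.comp ((wt_cont hq).mul P.continuous)

theorem wP_zero {m q₀ : ℕ} (hq : m + 1 ≤ q₀) (P : C(V m, ℝ)) (ξ : V m) (h : 1 ≤ ‖ξ‖) : ((wt m q₀ ξ * P ξ : ℝ) : ℂ) = 0 := by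
  rw [wt_zero hq ξ h, zero_mul, Complex.ofReal_zero]

/-- the algebra generated by the coordinates -/
noncomputable def Co (m : ℕ) : Subalgebra ℝ C(V m, ℝ) :=
  Algebra.adjoin ℝ (Set.range (fun j : Fin (m + 1) => (⟨fun ξ : V m => ξ j, by fun_prop⟩ : C(V m, ℝ))))

theorem Co_sep (m : ℕ) : (Co m).SeparatesPoints := by
  intro x y hxy
  have h1 : ∃ j : Fin (m + 1), x j ≠ y j := by
    by_contra h
    push Not at h
    exact hxy (PiLp.ext h)
  obtain ⟨j, hj⟩ := h1
  refine ⟨fun ξ : V m => ξ j, ⟨⟨fun ξ : V m => ξ j, by fun_prop⟩, ?_, rfl⟩, hj⟩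
  exact Algebra.subset_adjoin ⟨j, rfl⟩

theorem FT_add {m q₀ : ℕ} (hq : m + 1 ≤ q₀) (P Q : C(V m, ℝ)) : FT m q₀ (P + Q) = FT m q₀ P + FT m q₀ Q := by
  funext t
  rw [Pi.add_apply]
  unfold FT
  rw [← integral_add (four_int (wP_cont hq P) (wP_zero hq P) t) (four_int (wP_cont hq Q) (wP_zero hq Q) t)]
  refine integral_congr_ae (Filter.Eventually.of_forall fun ξ => ?_)
  simp only [ContinuousMap.add_apply]
  push_cast
  ring

theorem FT_smul {m q₀ : ℕ} (hq : m + 1 ≤ q₀) (r : ℝ) (P : C(V m, ℝ)) :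
    FT m q₀ (algebraMap ℝ C(V m, ℝ) r * P) = (r : ℂ) • FT m q₀ P := by
  funext t
  rw [Pi.smul_apply, smul_eq_mul]
  unfold FT
  rw [← integral_const_mul]
  refine integral_congr_ae (Filter.Eventually.of_forall fun ξ => ?_)
  have e : (algebraMap ℝ C(V m, ℝ) r) ξ = r := by
    rw [algebraMap_apply, smul_eq_mul, mul_one]
  simp only [ContinuousMap.mul_apply]
  rw [e]
  push_cast
  ring

theorem FT_coord {m q₀ : ℕ} (hq : m + 1 ≤ q₀) (j : Fin (m + 1)) (P : C(V m, ℝ)) (h : FT m q₀ P ∈ SS m q₀) :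
    FT m q₀ ((⟨fun ξ : V m => ξ j, by fun_prop⟩ : C(V m, ℝ)) * P) ∈ SS m q₀ := by
  obtain ⟨g, hg, hd⟩ := SS_deriv h j
  have key : FT m q₀ ((⟨fun ξ : V m => ξ j, by fun_prop⟩ : C(V m, ℝ)) * P) = Complex.I • g := by
    funext t
    have h1 := four_deriv (wP_cont hq P) (wP_zero hq P) t j
    have h2 := (hd t).unique h1
    rw [Pi.smul_apply, smul_eq_mul, h2, ← integral_const_mul]
    unfold FT
    refine integral_congr_ae (Filter.Eventually.of_forall fun ξ => ?_)
    simp only [ContinuousMap.mul_apply, ContinuousMap.coe_mk]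
    push_cast
    linear_combination ((ξ j : ℂ) * (wt m q₀ ξ : ℂ) * (P ξ : ℂ) * ch t ξ) * Complex.I_sq
  rw [key]
  exact Submodule.smul_mem _ _ hg

theorem FT_one {m q₀ : ℕ} (hq : m + 1 ≤ q₀) : FT m q₀ 1 ∈ SS m q₀ := by
  obtain ⟨c, hc, h⟩ := slice m q₀ hq
  have key : FT m q₀ 1 = (c : ℂ) • gb (0 : Fin (m + 1) → ℕ) q₀ := by
    funext t
    rw [Pi.smul_apply, smul_eq_mul]
    unfold FT gb
    rw [mon_zero, one_mul, ← h t]
    refine integral_congr_ae (Filter.Eventually.of_forall fun ξ => ?_)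
    simp only [ContinuousMap.one_apply, mul_one]
  rw [key]
  exact Submodule.smul_mem _ _ (Submodule.subset_span ⟨0, q₀, by simp, rfl⟩)

theorem FT_mem {m q₀ : ℕ} (hq : m + 1 ≤ q₀) {P : C(V m, ℝ)} (hP : P ∈ Co m) : FT m q₀ P ∈ SS m q₀ := by
  have key : ∀ P' : C(V m, ℝ), FT m q₀ P' ∈ SS m q₀ → FT m q₀ (P * P') ∈ SS m q₀ := by
    unfold Co at hP
    induction hP using Algebra.adjoin_induction with
    | mem x hx =>
      obtain ⟨j, rfl⟩ := hx
      intro P' hP'
      exact FT_coord hq j P' hP'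
    | algebraMap r =>
      intro P' hP'
      rw [FT_smul hq]
      exact Submodule.smul_mem _ _ hP'
    | add x y hx hy ihx ihy =>
      intro P' hP'
      rw [add_mul, FT_add hq]
      exact Submodule.add_mem _ (ihx P' hP') (ihy P' hP')
    | mul x y hx hy ihx ihy =>
      intro P' hP'
      rw [mul_assoc]
      exact ihx _ (ihy P' hP')
  have h := key 1 (FT_one hq)
  rwa [mul_one] at h

theorem T_cont {m : ℕ} (ρ : Measure (V m)) [IsFiniteMeasure ρ] (h : V m → ℂ) (hi : Integrable h ρ) :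
    Continuous (fun ξ : V m => ∫ t, ch t ξ * h t ∂ρ) := by
  refine continuous_of_dominated (bound := fun t => ‖h t‖) (fun ξ => ?_)
    (fun ξ => Filter.Eventually.of_forall fun t => ?_) hi.norm
    (Filter.Eventually.of_forall fun t => (ch_cont_right t).mul continuous_const)
  · exact (ch_cont_left ξ).aestronglyMeasurable.mul hi.aestronglyMeasurable
  · rw [norm_mul, ch_norm, one_mul]

/-- a continuous function which is orthogonal to the weighted polynomials vanishes on the unit ball -/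
theorem zero_ball {m q₀ : ℕ} (hq : m + 1 ≤ q₀) (u : V m → ℝ) (hu : Continuous u)
    (h : ∀ P ∈ Co m, ∫ ξ, wt m q₀ ξ * P ξ * u ξ = 0) : ∀ ξ : V m, ‖ξ‖ ≤ 1 → u ξ = 0 := by
  have hsupp : ∀ v : V m → ℝ, Continuous v → Integrable (fun ξ => wt m q₀ ξ * v ξ) := by
    intro v hv
    refine ((wt_cont hq).mul hv).integrable_of_hasCompactSupport (compact_supp _ fun ξ hξ => ?_)
    show wt m q₀ ξ * v ξ = 0
    rw [wt_zero hq ξ hξ, zero_mul]
  have hnn : 0 ≤ fun ξ : V m => wt m q₀ ξ * (u ξ * u ξ) := fun ξ => mul_nonneg (wt_nonneg ξ) (mul_self_nonneg _)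
  have habs : 0 ≤ ∫ ξ, wt m q₀ ξ * |u ξ| := integral_nonneg fun ξ => mul_nonneg (wt_nonneg ξ) (abs_nonneg _)
  have hzero : ∫ ξ, wt m q₀ ξ * (u ξ * u ξ) = 0 := by
    refine le_antisymm ?_ (integral_nonneg hnn)
    refine le_of_forall_pos_le_add fun ε hε => ?_
    obtain ⟨P, hP, hPe⟩ := ContinuousMap.exists_mem_subalgebra_near_continuous_of_isCompact_of_separatesPoints
      (Co_sep m) ⟨u, hu⟩ (isCompact_closedBall (0 : V m) 1) (ε := ε / (1 + ∫ ξ, wt m q₀ ξ * |u ξ|)) (by positivity)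
    have h1 := h P hP
    have h2 : ∫ ξ, wt m q₀ ξ * (u ξ * u ξ) = ∫ ξ, wt m q₀ ξ * ((u ξ - P ξ) * u ξ) := by
      have i1 := hsupp (fun ξ => (u ξ - P ξ) * u ξ) ((hu.sub P.continuous).mul hu)
      have i2 := hsupp (fun ξ => P ξ * u ξ) (P.continuous.mul hu)
      have h3 : ∫ ξ, wt m q₀ ξ * (P ξ * u ξ) = 0 := by
        rw [← h1]
        refine integral_congr_ae (Filter.Eventually.of_forall fun ξ => ?_)
        simp only []
        ring
      calc ∫ ξ, wt m q₀ ξ * (u ξ * u ξ) = ∫ ξ, (wt m q₀ ξ * ((u ξ - P ξ) * u ξ) + wt m q₀ ξ * (P ξ * u ξ)) := by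
            refine integral_congr_ae (Filter.Eventually.of_forall fun ξ => ?_)
            simp only []
            ring
        _ = ∫ ξ, wt m q₀ ξ * ((u ξ - P ξ) * u ξ) := by rw [integral_add i1 i2, h3, add_zero]
    rw [h2, zero_add]
    have h4 : ∫ ξ, wt m q₀ ξ * ((u ξ - P ξ) * u ξ) ≤
        ∫ ξ, (ε / (1 + ∫ ξ, wt m q₀ ξ * |u ξ|)) * (wt m q₀ ξ * |u ξ|) := by
      refine integral_mono (hsupp _ ((hu.sub P.continuous).mul hu)) ((hsupp _ hu.abs).const_mul _) fun ξ => ?_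
      simp only []
      by_cases hξ : ‖ξ‖ < 1
      · have h5 := hPe ξ (by rw [mem_closedBall_zero_iff]; exact hξ.le)
        rw [Real.norm_eq_abs] at h5
        have h6 : |P ξ - u ξ| = |u ξ - P ξ| := abs_sub_comm _ _
        have h7 : (u ξ - P ξ) * u ξ ≤ (ε / (1 + ∫ ξ, wt m q₀ ξ * |u ξ|)) * |u ξ| := by
          calc (u ξ - P ξ) * u ξ ≤ |(u ξ - P ξ) * u ξ| := le_abs_self _
            _ = |u ξ - P ξ| * |u ξ| := abs_mul _ _
            _ ≤ _ := mul_le_mul_of_nonneg_right (by rw [← h6]; exact h5.le) (abs_nonneg _)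
        calc wt m q₀ ξ * ((u ξ - P ξ) * u ξ) ≤ wt m q₀ ξ * ((ε / (1 + ∫ ξ, wt m q₀ ξ * |u ξ|)) * |u ξ|) :=
              mul_le_mul_of_nonneg_left h7 (wt_nonneg ξ)
          _ = _ := by ring
      · rw [wt_zero hq ξ (not_lt.1 hξ)]
        simp
    refine h4.trans ?_
    rw [integral_const_mul, div_mul_eq_mul_div, div_le_iff₀ (by positivity)]
    nlinarith
  have hcont : Continuous (fun ξ : V m => wt m q₀ ξ * (u ξ * u ξ)) := (wt_cont hq).mul (hu.mul hu)
  have hae := (integral_eq_zero_iff_of_nonneg hnn (hsupp _ (hu.mul hu))).1 hzero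
  have hall : (fun ξ : V m => wt m q₀ ξ * (u ξ * u ξ)) = fun _ => 0 :=
    (Continuous.ae_eq_iff_eq (volume : Measure (V m)) hcont continuous_const).1 hae
  have hopen : ∀ ξ ∈ Metric.ball (0 : V m) 1, u ξ = 0 := by
    intro ξ hξ
    rw [mem_ball_zero_iff] at hξ
    have h8 : wt m q₀ ξ * (u ξ * u ξ) = 0 := congrFun hall ξ
    rcases mul_eq_zero.1 h8 with h9 | h9
    · exact absurd h9 (wt_pos ξ hξ).ne'
    · exact mul_self_eq_zero.1 h9
  have hcl : closure (Metric.ball (0 : V m) 1) ⊆ {ξ | u ξ = 0} :=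
    closure_minimal hopen (isClosed_eq hu continuous_const)
  intro ξ hξ
  apply hcl
  rw [closure_ball (0 : V m) one_ne_zero, mem_closedBall_zero_iff]
  exact hξ

/-- two measures agreeing on the functions `t^β Phi q ‖t‖` have the same transform on the unit ball -/
theorem unique_ball {m q₀ : ℕ} (hq : m + 1 ≤ q₀) (ρ ρ' : Measure (V m)) [IsFiniteMeasure ρ] [IsFiniteMeasure ρ']
    (h h' : V m → ℂ) (hi : Integrable h ρ) (hi' : Integrable h' ρ')
    (heq : ∀ (β : Fin (m + 1) → ℕ) (q : ℕ), ∑ i, β i + q₀ ≤ q → ∫ t, gb β q t * h t ∂ρ = ∫ t, gb β q t * h' t ∂ρ')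
    (ξ : V m) (hξ : ‖ξ‖ ≤ 1) : ∫ t, ch t ξ * h t ∂ρ = ∫ t, ch t ξ * h' t ∂ρ' := by
  have hWi : ∀ (σ : Measure (V m)) [IsFiniteMeasure σ] (f u : V m → ℂ), Wf f → Integrable u σ →
      Integrable (fun t => f t * u t) σ := by
    intro σ _ f u hf hu
    obtain ⟨C, hC⟩ := hf.bdd
    exact hu.bdd_mul (c := C) hf.cont.aestronglyMeasurable (Filter.Eventually.of_forall hC)
  have hSS : ∀ f ∈ SS m q₀, Wf f ∧ ∫ t, f t * h t ∂ρ = ∫ t, f t * h' t ∂ρ' := by
    intro f hf
    unfold SS at hf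
    induction hf using Submodule.span_induction with
    | mem f hf =>
      obtain ⟨β, q, hq', rfl⟩ := hf
      exact ⟨Wf_gb m _ β q le_rfl (by omega), heq β q hq'⟩
    | zero =>
      refine ⟨⟨fun _ => 0, continuous_const, fun _ _ => rfl, fun t => by simp⟩, by simp⟩
    | add f g hf hg ihf ihg =>
      refine ⟨ihf.1.add ihg.1, ?_⟩
      have h1 : ∀ (σ : Measure (V m)) [IsFiniteMeasure σ] (u : V m → ℂ), Integrable u σ →
          ∫ t, (f + g) t * u t ∂σ = ∫ t, f t * u t ∂σ + ∫ t, g t * u t ∂σ := by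
        intro σ _ u hu
        rw [← integral_add (hWi σ f u ihf.1 hu) (hWi σ g u ihg.1 hu)]
        refine integral_congr_ae (Filter.Eventually.of_forall fun t => ?_)
        simp only [Pi.add_apply]
        ring
      rw [h1 ρ h hi, h1 ρ' h' hi', ihf.2, ihg.2]
    | smul a f hf ihf =>
      refine ⟨ihf.1.const_mul a, ?_⟩
      have h1 : ∀ (σ : Measure (V m)) (u : V m → ℂ), ∫ t, (a • f) t * u t ∂σ = a * ∫ t, f t * u t ∂σ := by
        intro σ u
        rw [← integral_const_mul]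
        refine integral_congr_ae (Filter.Eventually.of_forall fun t => ?_)
        simp only [Pi.smul_apply, smul_eq_mul]
        ring
      rw [h1, h1, ihf.2]
  have hD : Continuous (fun ξ : V m => ∫ t, ch t ξ * h t ∂ρ - ∫ t, ch t ξ * h' t ∂ρ') :=
    (T_cont ρ h hi).sub (T_cont ρ' h' hi')
  have hort : ∀ P ∈ Co m, ∫ ξ, ((wt m q₀ ξ * P ξ : ℝ) : ℂ) * (∫ t, ch t ξ * h t ∂ρ - ∫ t, ch t ξ * h' t ∂ρ') = 0 := by
    intro P hP
    have h1 := (hSS _ (FT_mem hq hP)).2
    unfold FT at h1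
    rw [fub ρ h hi (wP_cont hq P) (wP_zero hq P), fub ρ' h' hi' (wP_cont hq P) (wP_zero hq P)] at h1
    have i1 : Integrable (fun ξ : V m => ((wt m q₀ ξ * P ξ : ℝ) : ℂ) * ∫ t, ch t ξ * h t ∂ρ) := by
      refine ((wP_cont hq P).mul (T_cont ρ h hi)).integrable_of_hasCompactSupport (compact_supp _ fun ξ hξ => ?_)
      show ((wt m q₀ ξ * P ξ : ℝ) : ℂ) * ∫ t, ch t ξ * h t ∂ρ = 0
      rw [wP_zero hq P ξ hξ, zero_mul]
    have i2 : Integrable (fun ξ : V m => ((wt m q₀ ξ * P ξ : ℝ) : ℂ) * ∫ t, ch t ξ * h' t ∂ρ') := by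
      refine ((wP_cont hq P).mul (T_cont ρ' h' hi')).integrable_of_hasCompactSupport (compact_supp _ fun ξ hξ => ?_)
      show ((wt m q₀ ξ * P ξ : ℝ) : ℂ) * ∫ t, ch t ξ * h' t ∂ρ' = 0
      rw [wP_zero hq P ξ hξ, zero_mul]
    have h2 := integral_sub i1 i2
    rw [h1, sub_self] at h2
    rw [← h2]
    refine integral_congr_ae (Filter.Eventually.of_forall fun ξ => ?_)
    simp only []
    ring
  have hDi : ∀ P : C(V m, ℝ), Integrable (fun ξ : V m => ((wt m q₀ ξ * P ξ : ℝ) : ℂ) *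
      (∫ t, ch t ξ * h t ∂ρ - ∫ t, ch t ξ * h' t ∂ρ')) := by
    intro P
    refine ((wP_cont hq P).mul hD).integrable_of_hasCompactSupport (compact_supp _ fun ξ hξ => ?_)
    show ((wt m q₀ ξ * P ξ : ℝ) : ℂ) * (∫ t, ch t ξ * h t ∂ρ - ∫ t, ch t ξ * h' t ∂ρ') = 0
    rw [wP_zero hq P ξ hξ, zero_mul]
  have hre := zero_ball hq (fun ξ => (∫ t, ch t ξ * h t ∂ρ - ∫ t, ch t ξ * h' t ∂ρ').re)
    (Complex.continuous_re.comp hD) (fun P hP => by
      have h3 := congrArg Complex.re (hort P hP)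
      rw [← RCLike.re_eq_complex_re, ← integral_re (hDi P), RCLike.re_eq_complex_re, Complex.zero_re] at h3
      rw [← h3]
      refine integral_congr_ae (Filter.Eventually.of_forall fun ξ => ?_)
      simp only []
      rw [Complex.re_ofReal_mul]) ξ hξ
  have him := zero_ball hq (fun ξ => (∫ t, ch t ξ * h t ∂ρ - ∫ t, ch t ξ * h' t ∂ρ').im)
    (Complex.continuous_im.comp hD) (fun P hP => by
      have h3 := congrArg Complex.im (hort P hP)
      rw [← RCLike.im_eq_complex_im, ← integral_im (hDi P), RCLike.im_eq_complex_im, Complex.zero_im] at h3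
      rw [← h3]
      refine integral_congr_ae (Filter.Eventually.of_forall fun ξ => ?_)
      simp only []
      rw [Complex.im_ofReal_mul]) ξ hξ
  have hz : ∫ t, ch t ξ * h t ∂ρ - ∫ t, ch t ξ * h' t ∂ρ' = 0 := Complex.ext hre him
  exact sub_eq_zero.1 hz

theorem Sq_congr {b b' : ℕ → ℝ} (h : ∀ k, 1 ≤ k → b k = b' k) (q : ℕ) : Sq q b = Sq q b' := by
  unfold Sq
  refine tsum_congr fun k => ?_
  rw [h (k + 1) (by omega)]

section back

variable {m : ℕ} {μ : ℕ → Measure (V m)} (hf : Fm μ) (hm : Mom μ)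

include hf hm

theorem mass_of (k : ℕ) : (μ k).real Set.univ = 4 * ((m : ℝ) + 1) / (Real.pi ^ 2 * ((k : ℝ) + 1) ^ 2) := by
  haveI := hf.fin k
  have h1 : (μ k).real Set.univ = ∫ x, ∑ i, x i * x i ∂(μ k) := by
    have h2 : ∫ x, ∑ i, x i * x i ∂(μ k) = ∫ x, (1 : ℝ) ∂(μ k) := by
      refine integral_congr_ae ?_
      filter_upwards [hf.sph k] with x hx
      have h3 := EuclideanSpace.norm_sq_eq x
      rw [hx] at h3
      simp only [Real.norm_eq_abs, sq_abs] at h3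
      simp only [← sq]
      rw [← h3]
      norm_num
    rw [h2, integral_const]
    simp
  rw [h1, integral_finset_sum _ (fun i _ => by
    have h4 := mon_int (μ k) (hf.sph k) (Pi.single i 1 + Pi.single i 1)
    have h5 : (mon (Pi.single i 1 + Pi.single i 1) : V m → ℝ) = fun x => x i * x i := funext (mon_pair i i)
    rwa [h5] at h4)]
  simp only [hm.two k, if_true]
  rw [sum_const, card_univ, Fintype.card_fin, nsmul_eq_mul]
  push_cast
  ring

theorem Sq_high (β : Fin (m + 1) → ℕ) (h3 : 3 ≤ ∑ i, β i) (q : ℕ) (hq : ∑ i, β i + (m + 5) ≤ q) : Sq q (bs μ β) = 0 := by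
  obtain ⟨P, hP1, hP2, hP3⟩ := hm.high β h3
  rw [Sq_congr (b' := fun k => P.eval ((k : ℝ) ^ 2)) (fun k hk => by
    obtain ⟨l, rfl⟩ := Nat.exists_eq_add_of_le' hk
    have h4 := hP3 l
    unfold bs
    rw [Nat.add_sub_cancel]
    push_cast
    rw [← h4]
    rfl) q]
  exact Sq_poly P hP1 q (by omega)

theorem Sq_ref (β : Fin (m + 1) → ℕ) (q : ℕ) (hq : ∑ i, β i + (m + 5) ≤ q) :
    Sq q (bs μ β) = Sq q (bs (mu0 m) β) := by
  rcases Nat.lt_or_ge 2 (∑ i, β i) with h3 | h3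
  · have h0 : Mom (mu0 m) := fam_mom (c := ((m : ℝ) + 1) / 3) (by positivity) (mu0_fm m) (fun _ _ => rfl)
    rw [Sq_high hf hm β h3 q hq, Sq_high (mu0_fm m) h0 β h3 q hq]
  · refine Sq_congr (fun k hk => ?_) q
    obtain ⟨l, rfl⟩ := Nat.exists_eq_add_of_le' hk
    unfold bs
    rw [Nat.add_sub_cancel]
    congr 1
    haveI := hf.fin l
    haveI := (mu0_fm m).fin l
    rcases Nat.eq_zero_or_pos (∑ i, β i) with h0 | h0
    · have hβ : β = 0 := by
        funext i
        have h5 := (sum_eq_zero_iff.1 h0) i (mem_univ i)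
        simpa using h5
      subst hβ
      simp only [mon_zero]
      rw [integral_const, integral_const, mass_of hf hm l, mu0_real_univ]
    · obtain ⟨γ, i, rfl⟩ := exists_single β h0
      rw [sum_single] at h3
      rcases Nat.eq_zero_or_pos (∑ i, γ i) with h1 | h1
      · have hγ : γ = 0 := by
          funext i
          have h5 := (sum_eq_zero_iff.1 h1) i (mem_univ i)
          simpa using h5
        subst hγ
        simp only [zero_add, mon_single]
        rw [hm.one l i]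
        have h0' : Mom (mu0 m) := fam_mom (c := ((m : ℝ) + 1) / 3) (by positivity) (mu0_fm m) (fun _ _ => rfl)
        rw [h0'.one l i]
      · obtain ⟨δ, r, rfl⟩ := exists_single γ h1
        rw [sum_single] at h3
        have hδ : δ = 0 := by
          funext i
          have h4 : ∑ i, δ i = 0 := by omega
          have h5 := (sum_eq_zero_iff.1 h4) i (mem_univ i)
          simpa using h5
        subst hδ
        rw [zero_add]
        simp only [mon_pair]
        rw [hm.two l r i, ref_two m r i l]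

/-- extremal measures: the backward direction -/
theorem bwd : rho (((m : ℝ) + 1) / 3) μ Set.univ = ENNReal.ofReal ((m : ℝ) + 1) ∧
    ∀ ξ : V m, ‖ξ‖ ≤ 1 → ∫ t, ch t ξ * (-(Real.cos ‖t‖ : ℝ) : ℂ) ∂(rho (((m : ℝ) + 1) / 3) μ) = ((-‖ξ‖ ^ 2 : ℝ) : ℂ) := by
  haveI := hf.rho_finite (((m : ℝ) + 1) / 3)
  haveI := (mu0_fm m).rho_finite (((m : ℝ) + 1) / 3)
  refine ⟨?_, fun ξ hξ => ?_⟩
  · rw [rho_total (by positivity) hf (mass_of hf hm)]
    congr 1
    ring
  · rw [← T0 m ξ hξ]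
    refine unique_ball (q₀ := m + 5) (by omega) _ _ _ _ (cos_int _) (cos_int _) (fun β q hq => ?_) ξ hξ
    rw [fam_gb _ (by positivity) hf β q (by omega), fam_gb _ (by positivity) (mu0_fm m) β q (by omega),
      Sq_ref hf hm β q hq]

end back

end Pool.Agent.Q198.XM
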