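import Pool.Agent.Q198.XM.Wave

/-!
# Extremal measures for the Laplacian: families of measures on the unit sphere
-/

set_option autoImplicit false
set_option linter.all false

namespace Pool.Agent.Q198.XM

open MeasureTheory Finset

/-- Fubini for the transforms -/
theorem fub {m : ℕ} (ρ : Measure (V m)) [IsFiniteMeasure ρ] (h : V m → ℂ) (hi : Integrable h ρ)
    {W : V m → ℂ} (hW : Continuous W) (h0 : ∀ ξ, 1 ≤ ‖ξ‖ → W ξ = 0) :
    ∫ t, (∫ ξ, W ξ * ch t ξ) * h t ∂ρ = ∫ ξ, W ξ * (∫ t, ch t ξ * h t ∂ρ) := by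
  have hWi : Integrable W := hW.integrable_of_hasCompactSupport (compact_supp _ h0)
  have h1 : Integrable (fun z : V m × V m => h z.1 * W z.2) (ρ.prod volume) := hi.mul_prod hWi
  have h2 : Integrable (fun z : V m × V m => (h z.1 * W z.2) * ch z.1 z.2) (ρ.prod volume) := by
    refine h1.mul_bdd (c := 1) ch_cont.aestronglyMeasurable (Filter.Eventually.of_forall fun z => ?_)
    rw [ch_norm]
  have h3 := integral_integral_swap (f := fun (t ξ : V m) => (h t * W ξ) * ch t ξ) h2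
  calc ∫ t, (∫ ξ, W ξ * ch t ξ) * h t ∂ρ = ∫ t, (∫ ξ, (h t * W ξ) * ch t ξ) ∂ρ := by
        refine integral_congr_ae (Filter.Eventually.of_forall fun t => ?_)
        simp only []
        rw [← integral_mul_const]
        refine integral_congr_ae (Filter.Eventually.of_forall fun ξ => ?_)
        simp only []
        ring
    _ = ∫ ξ, (∫ t, (h t * W ξ) * ch t ξ ∂ρ) := h3
    _ = ∫ ξ, W ξ * (∫ t, ch t ξ * h t ∂ρ) := by
        refine integral_congr_ae (Filter.Eventually.of_forall fun ξ => ?_)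
        simp only []
        rw [← integral_const_mul]
        refine integral_congr_ae (Filter.Eventually.of_forall fun t => ?_)
        simp only []
        ring

/-- two measures whose transforms agree on the unit ball agree on the functions `Wf` -/
theorem Wf_eq {m : ℕ} (ρ ρ' : Measure (V m)) [IsFiniteMeasure ρ] [IsFiniteMeasure ρ'] (h h' : V m → ℂ)
    (hi : Integrable h ρ) (hi' : Integrable h' ρ')
    (heq : ∀ ξ : V m, ‖ξ‖ ≤ 1 → ∫ t, ch t ξ * h t ∂ρ = ∫ t, ch t ξ * h' t ∂ρ') {f : V m → ℂ} (hf : Wf f) :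
    ∫ t, f t * h t ∂ρ = ∫ t, f t * h' t ∂ρ' := by
  obtain ⟨W, hW, h0, hfe⟩ := hf
  simp only [hfe]
  rw [fub ρ h hi hW h0, fub ρ' h' hi' hW h0]
  refine integral_congr_ae (Filter.Eventually.of_forall fun ξ => ?_)
  simp only []
  by_cases hξ : ‖ξ‖ ≤ 1
  · rw [heq ξ hξ]
  · rw [h0 ξ (not_le.1 hξ).le, zero_mul, zero_mul]

/-- the total variation measure of a family of measures on the unit sphere -/
noncomputable def rho {m : ℕ} (c : ℝ) (μ : ℕ → Measure (V m)) : Measure (V m) :=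
  ENNReal.ofReal c • Measure.dirac 0 +
    Measure.sum (fun k : ℕ => (μ k).map (fun x : V m => (Real.pi * ((k : ℝ) + 1)) • x))

/-- the standing assumptions on the families -/
structure Fm {m : ℕ} (μ : ℕ → Measure (V m)) : Prop where
  fin : ∀ k, IsFiniteMeasure (μ k)
  sph : ∀ k, ∀ᵐ x ∂(μ k), ‖x‖ = 1
  sum : Summable (fun k => (μ k).real Set.univ)

theorem smul_meas {m : ℕ} (r : ℝ) : Measurable (fun x : V m => r • x) := by fun_prop

theorem rho_univ {m : ℕ} (c : ℝ) {μ : ℕ → Measure (V m)} :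
    rho c μ Set.univ = ENNReal.ofReal c + ∑' k, μ k Set.univ := by
  unfold rho
  rw [Measure.add_apply, Measure.smul_apply, Measure.dirac_apply' _ MeasurableSet.univ,
    Measure.sum_apply _ MeasurableSet.univ]
  congr 1
  · simp
  · refine tsum_congr fun k => ?_
    rw [Measure.map_apply (smul_meas _) MeasurableSet.univ, Set.preimage_univ]

theorem Fm.tsum_ne_top {m : ℕ} {μ : ℕ → Measure (V m)} (h : Fm μ) : ∑' k, μ k Set.univ ≠ ⊤ := by
  have h1 : ∀ k, μ k Set.univ = ENNReal.ofReal ((μ k).real Set.univ) := by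
    intro k
    haveI := h.fin k
    rw [ofReal_measureReal]
  simp only [h1]
  exact h.sum.tsum_ofReal_ne_top

theorem Fm.rho_finite {m : ℕ} (c : ℝ) {μ : ℕ → Measure (V m)} (h : Fm μ) : IsFiniteMeasure (rho c μ) := by
  refine ⟨?_⟩
  rw [rho_univ]
  exact ENNReal.add_lt_top.2 ⟨ENNReal.ofReal_lt_top, h.tsum_ne_top.lt_top⟩

theorem cos_int {m : ℕ} (ρ : Measure (V m)) [IsFiniteMeasure ρ] :
    Integrable (fun t : V m => (-(Real.cos ‖t‖ : ℝ) : ℂ)) ρ := by
  refine Integrable.of_bound (C := 1) (Continuous.aestronglyMeasurable (by fun_prop))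
    (Filter.Eventually.of_forall fun t => ?_)
  rw [norm_neg, Complex.norm_real]
  exact Real.abs_cos_le_one _

/-- the integral against the density `- cos ‖t‖` -/
theorem fam_int {m : ℕ} (c : ℝ) (hc : 0 ≤ c) {μ : ℕ → Measure (V m)} (h : Fm μ) (f : V m → ℂ) (hf : Measurable f)
    (C : ℝ) (hC : ∀ t, ‖f t‖ ≤ C) :
    HasSum (fun k : ℕ => (-1 : ℂ) ^ k * ∫ x, f ((Real.pi * ((k : ℝ) + 1)) • x) ∂(μ k))
      (∫ t, f t * (-(Real.cos ‖t‖ : ℝ) : ℂ) ∂(rho c μ) + c * f 0) := by
  haveI := h.rho_finite c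
  have hcm : Measurable (fun t : V m => (-(Real.cos ‖t‖ : ℝ) : ℂ)) := by
    refine Continuous.measurable (by fun_prop)
  have hgm : Measurable (fun t : V m => f t * (-(Real.cos ‖t‖ : ℝ) : ℂ)) := hf.mul hcm
  have hi : Integrable (fun t : V m => f t * (-(Real.cos ‖t‖ : ℝ) : ℂ)) (rho c μ) := by
    refine Integrable.of_bound (C := C) hgm.aestronglyMeasurable (Filter.Eventually.of_forall fun t => ?_)
    rw [norm_mul, norm_neg, Complex.norm_real]
    calc ‖f t‖ * ‖Real.cos ‖t‖‖ ≤ C * 1 :=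
          mul_le_mul (hC t) (Real.abs_cos_le_one _) (norm_nonneg _) ((norm_nonneg _).trans (hC t))
      _ = C := mul_one C
  have hi1 : Integrable (fun t : V m => f t * (-(Real.cos ‖t‖ : ℝ) : ℂ)) (ENNReal.ofReal c • Measure.dirac 0) := by
    refine hi.mono_measure ?_
    unfold rho
    exact Measure.le_add_right le_rfl
  have hi2 : Integrable (fun t : V m => f t * (-(Real.cos ‖t‖ : ℝ) : ℂ))
      (Measure.sum (fun k : ℕ => (μ k).map (fun x : V m => (Real.pi * ((k : ℝ) + 1)) • x))) := by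
    refine hi.mono_measure ?_
    unfold rho
    exact Measure.le_add_left le_rfl
  have h1 : ∫ t, f t * (-(Real.cos ‖t‖ : ℝ) : ℂ) ∂(rho c μ) + c * f 0 =
      ∫ t, f t * (-(Real.cos ‖t‖ : ℝ) : ℂ) ∂(Measure.sum (fun k : ℕ =>
        (μ k).map (fun x : V m => (Real.pi * ((k : ℝ) + 1)) • x))) := by
    unfold rho
    rw [integral_add_measure hi1 hi2, integral_smul_measure, integral_dirac,
      ENNReal.toReal_ofReal hc]
    simp only [norm_zero, Real.cos_zero, Complex.ofReal_one, mul_neg, mul_one, smul_neg, Complex.real_smul]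
    ring
  rw [h1]
  have h2 := hasSum_integral_measure hi2
  refine h2.congr_fun fun k => ?_
  rw [integral_map (smul_meas _).aemeasurable hgm.aestronglyMeasurable, ← integral_const_mul]
  refine integral_congr_ae ?_
  filter_upwards [h.sph k] with x hx
  have h3 : ‖(Real.pi * ((k : ℝ) + 1)) • x‖ = ((k + 1 : ℕ) : ℝ) * Real.pi := by
    rw [norm_smul, hx, mul_one, Real.norm_eq_abs, abs_of_nonneg (by positivity)]
    push_cast
    ring
  rw [h3, Real.cos_nat_mul_pi]
  push_cast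
  ring

theorem mon_smul {m : ℕ} (β : Fin (m + 1) → ℕ) (r : ℝ) (x : V m) :
    mon β (r • x) = r ^ (∑ i, β i) * mon β x := by
  unfold mon
  rw [← prod_pow_eq_pow_sum, ← prod_mul_distrib]
  refine prod_congr rfl fun i _ => ?_
  rw [PiLp.smul_apply, smul_eq_mul, mul_pow]

theorem mon_cont {m : ℕ} (β : Fin (m + 1) → ℕ) : Continuous (mon β : V m → ℝ) := by
  unfold mon
  fun_prop

theorem mon_le {m : ℕ} (β : Fin (m + 1) → ℕ) (x : V m) (hx : ‖x‖ = 1) : |mon β x| ≤ 1 := by
  unfold mon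
  rw [abs_prod]
  refine prod_le_one (fun i _ => abs_nonneg _) fun i _ => ?_
  rw [abs_pow]
  refine pow_le_one₀ (abs_nonneg _) ?_
  have h := PiLp.norm_apply_le x i
  rw [hx, Real.norm_eq_abs] at h
  exact h

/-- the moment sequences -/
noncomputable def bs {m : ℕ} (μ : ℕ → Measure (V m)) (β : Fin (m + 1) → ℕ) (k : ℕ) : ℝ :=
  (k : ℝ) ^ (∑ i, β i) * ∫ x, mon β x ∂(μ (k - 1))

/-- the integrals of `t^β Phi q ‖t‖` -/
theorem fam_gb {m : ℕ} (c : ℝ) (hc : 0 ≤ c) {μ : ℕ → Measure (V m)} (h : Fm μ) (β : Fin (m + 1) → ℕ) (q : ℕ)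
    (hq : ∑ i, β i + (m + 1) ≤ q) :
    ∫ t, gb β q t * (-(Real.cos ‖t‖ : ℝ) : ℂ) ∂(rho c μ) =
      ((Real.pi ^ (∑ i, β i) * Sq q (bs μ β) - c * (mon β (0 : V m) * Phi q 0) : ℝ) : ℂ) := by
  have hW := Wf_gb m _ β q le_rfl hq
  obtain ⟨C, hC⟩ := hW.bdd
  have h1 := fam_int c hc h (gb β q) hW.cont.measurable C hC
  have h2 : ∀ k : ℕ, (-1 : ℂ) ^ k * ∫ x, gb β q ((Real.pi * ((k : ℝ) + 1)) • x) ∂(μ k) =
      ((Real.pi ^ (∑ i, β i) * ((-1) ^ k * bs μ β (k + 1) * Phi q (Real.pi * (k + 1))) : ℝ) : ℂ) := by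
    intro k
    have h3 : ∫ x, gb β q ((Real.pi * ((k : ℝ) + 1)) • x) ∂(μ k) =
        (((Real.pi * ((k : ℝ) + 1)) ^ (∑ i, β i) * Phi q (Real.pi * (k + 1)) * ∫ x, mon β x ∂(μ k) : ℝ) : ℂ) := by
      rw [← integral_const_mul, ← integral_complex_ofReal]
      refine integral_congr_ae ?_
      filter_upwards [h.sph k] with x hx
      unfold gb
      rw [mon_smul, norm_smul, hx, mul_one, Real.norm_eq_abs, abs_of_nonneg (by positivity)]
      congr 1
      ring
    rw [h3, mul_pow]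
    unfold bs
    rw [Nat.add_sub_cancel]
    push_cast
    ring
  simp only [h2] at h1
  have h4 : gb β q (0 : V m) = ((mon β (0 : V m) * Phi q 0 : ℝ) : ℂ) := by
    unfold gb
    rw [norm_zero]
  have h5 := h1.tsum_eq
  rw [← Complex.ofReal_tsum, tsum_mul_left, h4] at h5
  rw [eq_sub_of_add_eq h5.symm]
  unfold Sq
  push_cast
  ring

end Pool.Agent.Q198.XM
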