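import Pool.Agent.Q198.XM.Bwd
import Pool.Agent.Q198.XM.Brg

/-!
# Extremal measures for the Laplacian: complex measures
-/

set_option autoImplicit false
set_option linter.all false

namespace Pool.Agent.Q198.XM

open MeasureTheory Finset

/-- the transform of a complex measure -/
noncomputable def tr {m : ℕ} (ν : ComplexMeasure (V m)) (ξ : V m) : ℂ :=
  VectorMeasure.integral ν (fun t => ch t ξ) (ContinuousLinearMap.mul ℝ ℂ)

/-- the complex measure attached to a family -/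
noncomputable def fam {m : ℕ} (μ : ℕ → Measure (V m)) : ComplexMeasure (V m) :=
  (rho (((m : ℝ) + 1) / 3) μ).withDensityᵥ (fun t : V m => (-(Real.cos ‖t‖ : ℝ) : ℂ))

/-- the values of the complex measure attached to a family -/
theorem fam_val {m : ℕ} {μ : ℕ → Measure (V m)} (hf : Fm μ) (E : Set (V m)) (hE : MeasurableSet E) :
    HasSum (fun k : ℕ => (-1 : ℂ) ^ k * (((μ k).real {x | (Real.pi * ((k : ℝ) + 1)) • x ∈ E} : ℝ) : ℂ))
      (fam μ E + ((m : ℂ) + 1) / 3 * E.indicator 1 (0 : V m)) := by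
  haveI := hf.rho_finite (((m : ℝ) + 1) / 3)
  have h1 := fam_int (((m : ℝ) + 1) / 3) (by positivity) hf (E.indicator (1 : V m → ℂ)) (measurable_one.indicator hE) 1
    (fun t => by
      refine (norm_indicator_le_norm_self _ _).trans ?_
      simp)
  have h2 : ∫ t, E.indicator (1 : V m → ℂ) t * (-(Real.cos ‖t‖ : ℝ) : ℂ) ∂(rho (((m : ℝ) + 1) / 3) μ) = fam μ E := by
    unfold fam
    rw [withDensityᵥ_apply (cos_int _) hE, ← integral_indicator hE]
    refine integral_congr_ae (Filter.Eventually.of_forall fun t => ?_)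
    by_cases ht : t ∈ E
    · simp [Set.indicator_of_mem ht]
    · simp [Set.indicator_of_notMem ht]
  have h3 : ∀ k : ℕ, ∫ x, E.indicator (1 : V m → ℂ) ((Real.pi * ((k : ℝ) + 1)) • x) ∂(μ k) =
      (((μ k).real {x | (Real.pi * ((k : ℝ) + 1)) • x ∈ E} : ℝ) : ℂ) := by
    intro k
    have h4 : (fun x : V m => E.indicator (1 : V m → ℂ) ((Real.pi * ((k : ℝ) + 1)) • x)) =
        ({x : V m | (Real.pi * ((k : ℝ) + 1)) • x ∈ E}).indicator (fun _ => (1 : ℂ)) := by
      funext x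
      by_cases hx : (Real.pi * ((k : ℝ) + 1)) • x ∈ E
      · rw [Set.indicator_of_mem hx, Set.indicator_of_mem (by exact hx), Pi.one_apply]
      · rw [Set.indicator_of_notMem hx, Set.indicator_of_notMem (by exact hx)]
    have hS : MeasurableSet {x : V m | (Real.pi * ((k : ℝ) + 1)) • x ∈ E} := (smul_meas _) hE
    have h5 := integral_indicator_const (μ := μ k) (1 : ℂ) hS
    rw [Complex.real_smul, mul_one] at h5
    rw [h4]
    exact h5
  rw [h2] at h1
  simp only [h3] at h1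
  convert! h1 using 2
  push_cast
  ring

theorem fam_ae {m : ℕ} {μ : ℕ → Measure (V m)} (hf : Fm μ) :
    ∀ᵐ t ∂(rho (((m : ℝ) + 1) / 3) μ), ‖(-(Real.cos ‖t‖ : ℝ) : ℂ)‖ = 1 := by
  have hmeas : MeasurableSet {t : V m | ‖(-(Real.cos ‖t‖ : ℝ) : ℂ)‖ = 1} := by
    refine measurableSet_eq_fun (Continuous.measurable (by fun_prop)) measurable_const
  unfold rho
  rw [ae_add_measure_iff]
  refine ⟨Measure.ae_smul_measure ?_ _, ?_⟩
  · rw [ae_dirac_iff hmeas]
    simp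
  · rw [Measure.ae_sum_iff' hmeas]
    intro k
    rw [ae_map_iff (smul_meas _).aemeasurable hmeas]
    filter_upwards [hf.sph k] with x hx
    have h3 : ‖(Real.pi * ((k : ℝ) + 1)) • x‖ = ((k + 1 : ℕ) : ℝ) * Real.pi := by
      rw [norm_smul, hx, mul_one, Real.norm_eq_abs, abs_of_nonneg (by positivity)]
      push_cast
      ring
    rw [h3, Real.cos_nat_mul_pi]
    simp

theorem fam_variation {m : ℕ} {μ : ℕ → Measure (V m)} (hf : Fm μ) :
    (fam μ).variation = rho (((m : ℝ) + 1) / 3) μ := by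
  haveI := hf.rho_finite (((m : ℝ) + 1) / 3)
  unfold fam
  rw [Measure.variation_withDensityᵥ (cos_int _)]
  conv_rhs => rw [← withDensity_one (μ := rho (((m : ℝ) + 1) / 3) μ)]
  refine withDensity_congr_ae ?_
  filter_upwards [fam_ae hf] with t ht
  rw [← ofReal_norm_eq_enorm, ht]
  simp

theorem fam_extremal {m : ℕ} {μ : ℕ → Measure (V m)} (hf : Fm μ) (hm : Mom μ) :
    (fam μ).variation Set.univ = ((m + 1 : ℕ) : ENNReal) ∧ ∀ ξ : V m, ‖ξ‖ ≤ 1 → tr (fam μ) ξ = ((-‖ξ‖ ^ 2 : ℝ) : ℂ) := by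
  haveI := hf.rho_finite (((m : ℝ) + 1) / 3)
  obtain ⟨h1, h2⟩ := bwd hf hm
  have hv := fam_variation hf
  refine ⟨?_, fun ξ hξ => ?_⟩
  · rw [hv, h1, ← ENNReal.ofReal_natCast]
    push_cast
    rfl
  · rw [← h2 ξ hξ]
    unfold tr
    have h3 := vint (fam μ) (by rw [hv]; infer_instance) (fun t : V m => (-(Real.cos ‖t‖ : ℝ) : ℂ))
      (by rw [hv]; exact cos_int _) (by rw [hv]; exact fam_ae hf) (by rw [hv]; rfl) (fun t => ch t ξ) (by
        rw [hv]
        refine Integrable.of_bound (C := 1) (ch_cont_left ξ).aestronglyMeasurable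
          (Filter.Eventually.of_forall fun t => ?_)
        rw [ch_norm])
    rw [h3, hv]

theorem extremal_fam {m : ℕ} (ν : ComplexMeasure (V m)) (hn : ν.variation Set.univ = ((m + 1 : ℕ) : ENNReal))
    (hT : ∀ ξ : V m, ‖ξ‖ ≤ 1 → tr ν ξ = ((-‖ξ‖ ^ 2 : ℝ) : ℂ)) :
    ∃ μ : ℕ → Measure (V m), Fm μ ∧ Mom μ ∧ fam μ = ν := by
  haveI : IsFiniteMeasure ν.variation := ⟨by rw [hn]; exact ENNReal.natCast_lt_top _⟩
  obtain ⟨h, hi, hb, heq⟩ := polar ν inferInstance
  obtain ⟨μ, h1, h2, h3, h4⟩ := fwd m ν.variation h hi hb (by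
    rw [Measure.real, hn, ENNReal.toReal_natCast]
    push_cast
    rfl) (fun ξ hξ => by
    rw [← hT ξ hξ]
    unfold tr
    rw [vint ν inferInstance h hi hb heq (fun t => ch t ξ) (by
      refine Integrable.of_bound (C := 1) (ch_cont_left ξ).aestronglyMeasurable
        (Filter.Eventually.of_forall fun t => ?_)
      rw [ch_norm])])
  refine ⟨μ, h1, h2, ?_⟩
  unfold fam
  rw [h3]
  conv_rhs => rw [← heq]
  ext E hE
  rw [withDensityᵥ_apply (cos_int _) hE, withDensityᵥ_apply hi hE]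
  refine integral_congr_ae ?_
  filter_upwards [ae_restrict_of_ae h4] with t ht
  rw [ht]

/-- the family is determined by the values of the complex measure -/
theorem fam_unique {m : ℕ} {μ μ' : ℕ → Measure (V m)} (hf : ∀ k, IsFiniteMeasure (μ k)) (hf' : ∀ k, IsFiniteMeasure (μ' k))
    (hs : ∀ k, ∀ᵐ x ∂(μ k), ‖x‖ = 1) (hs' : ∀ k, ∀ᵐ x ∂(μ' k), ‖x‖ = 1) (ν : Set (V m) → ℂ)
    (h : ∀ E, MeasurableSet E → HasSum (fun k : ℕ => (-1 : ℂ) ^ k *
      (((μ k).real {x | (Real.pi * ((k : ℝ) + 1)) • x ∈ E} : ℝ) : ℂ)) (ν E + ((m : ℂ) + 1) / 3 * E.indicator 1 (0 : V m)))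
    (h' : ∀ E, MeasurableSet E → HasSum (fun k : ℕ => (-1 : ℂ) ^ k *
      (((μ' k).real {x | (Real.pi * ((k : ℝ) + 1)) • x ∈ E} : ℝ) : ℂ)) (ν E + ((m : ℂ) + 1) / 3 * E.indicator 1 (0 : V m))) :
    μ = μ' := by
  funext k
  have key : ∀ {σ : ℕ → Measure (V m)}, (∀ k, IsFiniteMeasure (σ k)) → (∀ k, ∀ᵐ x ∂(σ k), ‖x‖ = 1) →
      ∀ F : Set (V m), MeasurableSet F → ∀ a : ℂ,
      HasSum (fun l : ℕ => (-1 : ℂ) ^ l * (((σ l).real {x : V m | (Real.pi * ((l : ℝ) + 1)) • x ∈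
        {y : V m | ‖y‖ = Real.pi * ((k : ℝ) + 1) ∧ (Real.pi * ((k : ℝ) + 1))⁻¹ • y ∈ F}} : ℝ) : ℂ)) a →
      (((σ k).real F : ℝ) : ℂ) = (-1) ^ k * a := by
    intro σ hσf hσ F hF a hsum
    have hk : (0 : ℝ) < Real.pi * ((k : ℝ) + 1) := by positivity
    have hz : ∀ l : ℕ, l ≠ k → (-1 : ℂ) ^ l * (((σ l).real {x : V m | (Real.pi * ((l : ℝ) + 1)) • x ∈
        {y : V m | ‖y‖ = Real.pi * ((k : ℝ) + 1) ∧ (Real.pi * ((k : ℝ) + 1))⁻¹ • y ∈ F}} : ℝ) : ℂ) = 0 := by
      intro l hl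
      have h1 : (σ l) {x : V m | (Real.pi * ((l : ℝ) + 1)) • x ∈
        {y : V m | ‖y‖ = Real.pi * ((k : ℝ) + 1) ∧ (Real.pi * ((k : ℝ) + 1))⁻¹ • y ∈ F}} = 0 := by
        refine measure_mono_null (fun x hx => ?_) (ae_iff.1 (hσ l))
        simp only [Set.mem_setOf_eq] at hx ⊢
        intro hx1
        obtain ⟨h2, _⟩ := hx
        rw [norm_smul, hx1, mul_one, Real.norm_eq_abs, abs_of_nonneg (by positivity)] at h2
        have h3 := mul_left_cancel₀ Real.pi_ne_zero h2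
        have h4 : (l : ℝ) = k := by linarith
        exact hl (by exact_mod_cast h4)
      rw [Measure.real, h1]
      simp
    have h5 := (hasSum_single k hz).unique hsum
    have h6 : (σ k) {x : V m | (Real.pi * ((k : ℝ) + 1)) • x ∈
        {y : V m | ‖y‖ = Real.pi * ((k : ℝ) + 1) ∧ (Real.pi * ((k : ℝ) + 1))⁻¹ • y ∈ F}} = (σ k) F := by
      refine measure_congr ?_
      filter_upwards [hσ k] with x hx
      apply propext
      show (‖(Real.pi * ((k : ℝ) + 1)) • x‖ = Real.pi * ((k : ℝ) + 1) ∧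
        (Real.pi * ((k : ℝ) + 1))⁻¹ • (Real.pi * ((k : ℝ) + 1)) • x ∈ F) ↔ x ∈ F
      rw [norm_smul, hx, mul_one, Real.norm_eq_abs, abs_of_pos hk, smul_smul, inv_mul_cancel₀ hk.ne', one_smul]
      simp
    rw [← h5, Measure.real, Measure.real, h6, ← mul_assoc, ← mul_pow]
    simp
  ext F hF
  haveI := hf k
  haveI := hf' k
  have hEm : MeasurableSet {y : V m | ‖y‖ = Real.pi * ((k : ℝ) + 1) ∧ (Real.pi * ((k : ℝ) + 1))⁻¹ • y ∈ F} :=
    (measurableSet_eq_fun measurable_norm measurable_const).inter ((smul_meas _) hF)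
  have h1 := key hf hs F hF _ (h _ hEm)
  have h2 := key hf' hs' F hF _ (h' _ hEm)
  have h3 : (μ k).real F = (μ' k).real F := by
    have := h1.trans h2.symm
    exact_mod_cast this
  rw [← ofReal_measureReal (μ := μ k), ← ofReal_measureReal (μ := μ' k), h3]

end Pool.Agent.Q198.XM
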