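import Pool.Agent.Q198.XM.Ref

/-!
# Extremal measures for the Laplacian: extremal measures live on the spheres of radius `π k`
-/

set_option autoImplicit false
set_option linter.all false

namespace Pool.Agent.Q198.XM

open MeasureTheory Finset

section cosine

variable {m : ℕ} (ρ : Measure (V m)) [IsFiniteMeasure ρ] (g : V m → ℝ) (hg : Integrable g ρ)

include hg in
theorem cos_g_int (s : ℝ) : Integrable (fun t : V m => Real.cos (‖t‖ * s) * g t) ρ := by
  refine hg.bdd_mul (c := 1) (Continuous.aestronglyMeasurable (by fun_prop))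
    (Filter.Eventually.of_forall fun t => ?_)
  exact Real.abs_cos_le_one _

include hg in
theorem cos_g_cont : Continuous (fun s : ℝ => ∫ t, Real.cos (‖t‖ * s) * g t ∂ρ) := by
  refine continuous_of_dominated (bound := fun t => ‖g t‖) (fun s => (cos_g_int ρ g hg s).aestronglyMeasurable)
    (fun s => Filter.Eventually.of_forall fun t => ?_) hg.norm
    (Filter.Eventually.of_forall fun t => by fun_prop)
  rw [norm_mul]
  calc ‖Real.cos (‖t‖ * s)‖ * ‖g t‖ ≤ 1 * ‖g t‖ :=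
        mul_le_mul_of_nonneg_right (Real.abs_cos_le_one _) (norm_nonneg _)
    _ = ‖g t‖ := one_mul _

include hg in
theorem cos_g_phi (q : ℕ) :
    ∫ s in (-1 : ℝ)..1, (∫ t, Real.cos (‖t‖ * s) * g t ∂ρ) * (1 - s ^ 2) ^ q = ∫ t, Phi q ‖t‖ * g t ∂ρ := by
  rw [intervalIntegral.integral_of_le (by norm_num)]
  have h1 : Integrable (fun s : ℝ => (1 - s ^ 2) ^ q) (volume.restrict (Set.Ioc (-1 : ℝ) 1)) := by
    have h2 : Continuous (fun s : ℝ => (1 - s ^ 2) ^ q) := by fun_prop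
    exact (h2.integrableOn_Icc (a := (-1 : ℝ)) (b := 1)).mono_set Set.Ioc_subset_Icc_self
  have h2 : Integrable (fun z : ℝ × V m => (1 - z.1 ^ 2) ^ q * g z.2) ((volume.restrict (Set.Ioc (-1 : ℝ) 1)).prod ρ) :=
    h1.mul_prod hg
  have h3 : Integrable (fun z : ℝ × V m => Real.cos (‖z.2‖ * z.1) * ((1 - z.1 ^ 2) ^ q * g z.2))
      ((volume.restrict (Set.Ioc (-1 : ℝ) 1)).prod ρ) := by
    refine h2.bdd_mul (c := 1) (Continuous.aestronglyMeasurable (by fun_prop))
      (Filter.Eventually.of_forall fun t => ?_)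
    exact Real.abs_cos_le_one _
  have h4 := integral_integral_swap (f := fun (s : ℝ) (t : V m) => Real.cos (‖t‖ * s) * ((1 - s ^ 2) ^ q * g t)) h3
  calc ∫ s in Set.Ioc (-1 : ℝ) 1, (∫ t, Real.cos (‖t‖ * s) * g t ∂ρ) * (1 - s ^ 2) ^ q
      = ∫ s in Set.Ioc (-1 : ℝ) 1, (∫ t, Real.cos (‖t‖ * s) * ((1 - s ^ 2) ^ q * g t) ∂ρ) := by
        refine integral_congr_ae (Filter.Eventually.of_forall fun s => ?_)
        simp only []
        rw [← integral_mul_const]
        refine integral_congr_ae (Filter.Eventually.of_forall fun t => ?_)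
        simp only []
        ring
    _ = ∫ t, (∫ s in Set.Ioc (-1 : ℝ) 1, Real.cos (‖t‖ * s) * ((1 - s ^ 2) ^ q * g t)) ∂ρ := h4
    _ = ∫ t, Phi q ‖t‖ * g t ∂ρ := by
        refine integral_congr_ae (Filter.Eventually.of_forall fun t => ?_)
        simp only []
        unfold Phi
        rw [intervalIntegral.integral_of_le (by norm_num), ← integral_mul_const]
        refine integral_congr_ae (Filter.Eventually.of_forall fun s => ?_)
        simp only []
        ring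

end cosine

/-- the integral of `cos (s ‖t‖)` for the reference measure -/
theorem ref_cos (m : ℕ) (s : ℝ) (h1 : -1 ≤ s) (h2 : s ≤ 1) :
    ∫ t, Real.cos (‖t‖ * s) * (-Real.cos ‖t‖) ∂(rho (((m : ℝ) + 1) / 3) (mu0 m)) = -(((m : ℝ) + 1) * s ^ 2) := by
  have h3 := fam_int (((m : ℝ) + 1) / 3) (by positivity) (mu0_fm m) (fun t => ((Real.cos (‖t‖ * s) : ℝ) : ℂ))
    (Continuous.measurable (by fun_prop)) 1 (fun t => by
      rw [Complex.norm_real]
      exact Real.abs_cos_le_one _)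
  have h4 : ∀ k : ℕ, (-1 : ℂ) ^ k * ∫ x, ((Real.cos (‖(Real.pi * ((k : ℝ) + 1)) • x‖ * s) : ℝ) : ℂ) ∂(mu0 m k) =
      (((4 * ((m : ℝ) + 1) / Real.pi ^ 2) * ((-1) ^ k * (1 / ((k : ℝ) + 1) ^ 2) * Real.cos (Real.pi * (k + 1) * s)) : ℝ) : ℂ) := by
    intro k
    rw [mu0_int]
    have h5 : ∀ j : Fin (m + 1), ((Real.cos (‖(Real.pi * ((k : ℝ) + 1)) • (ej j : V m)‖ * s) : ℝ) : ℂ) +
        ((Real.cos (‖(Real.pi * ((k : ℝ) + 1)) • (-ej j : V m)‖ * s) : ℝ) : ℂ) =
        2 * ((Real.cos (Real.pi * (k + 1) * s) : ℝ) : ℂ) := by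
      intro j
      rw [norm_smul, norm_smul, norm_neg, ej_norm, mul_one, Real.norm_eq_abs, abs_of_nonneg (by positivity)]
      ring
    simp only [h5]
    rw [sum_const, card_univ, Fintype.card_fin, nsmul_eq_mul, Complex.real_smul]
    push_cast
    have hpi : (Real.pi : ℂ) ≠ 0 := by exact_mod_cast Real.pi_ne_zero
    have hk : ((k : ℂ) + 1) ≠ 0 := Nat.cast_add_one_ne_zero k
    field_simp
    ring
  simp only [h4] at h3
  have h6 := Complex.hasSum_ofReal.2 ((bern_two s h1 h2).mul_left (4 * ((m : ℝ) + 1) / Real.pi ^ 2))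
  have h7 := h6.unique h3
  have h8 : ∫ t, ((Real.cos (‖t‖ * s) : ℝ) : ℂ) * (-(Real.cos ‖t‖ : ℝ) : ℂ) ∂(rho (((m : ℝ) + 1) / 3) (mu0 m)) =
      ((∫ t, Real.cos (‖t‖ * s) * (-Real.cos ‖t‖) ∂(rho (((m : ℝ) + 1) / 3) (mu0 m)) : ℝ) : ℂ) := by
    rw [← integral_complex_ofReal]
    refine integral_congr_ae (Filter.Eventually.of_forall fun t => ?_)
    simp only []
    push_cast
    ring
  rw [h8] at h7
  simp only [norm_zero, zero_mul, Real.cos_zero] at h7
  have h9 : (4 * ((m : ℝ) + 1) / Real.pi ^ 2) * (Real.pi ^ 2 * ((1 - s ^ 2) / 4 - 1 / 6)) =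
      (∫ t, Real.cos (‖t‖ * s) * (-Real.cos ‖t‖) ∂(rho (((m : ℝ) + 1) / 3) (mu0 m))) + ((m : ℝ) + 1) / 3 * 1 := by
    exact_mod_cast h7
  have h10 : (4 * ((m : ℝ) + 1) / Real.pi ^ 2) * (Real.pi ^ 2 * ((1 - s ^ 2) / 4 - 1 / 6)) =
      ((m : ℝ) + 1) * (1 / 3 - s ^ 2) := by
    have hpi : Real.pi ≠ 0 := Real.pi_ne_zero
    field_simp
    ring
  rw [h10] at h9
  linarith

/-- the integral of `cos (s ‖t‖)` for an arbitrary representing measure -/
theorem cos_val (m : ℕ) (ρ : Measure (V m)) [IsFiniteMeasure ρ] (h : V m → ℂ) (hi : Integrable h ρ)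
    (hT : ∀ ξ : V m, ‖ξ‖ ≤ 1 → ∫ t, ch t ξ * h t ∂ρ = ((-‖ξ‖ ^ 2 : ℝ) : ℂ)) :
    ∫ t, Real.cos ‖t‖ * (h t).re ∂ρ = -((m : ℝ) + 1) := by
  haveI := (mu0_fm m).rho_finite (((m : ℝ) + 1) / 3)
  have hre : Integrable (fun t => (h t).re) ρ := hi.re
  have hcos : Integrable (fun t : V m => -Real.cos ‖t‖) (rho (((m : ℝ) + 1) / 3) (mu0 m)) := by
    refine Integrable.of_bound (C := 1) (Continuous.aestronglyMeasurable (by fun_prop))
      (Filter.Eventually.of_forall fun t => ?_)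
    rw [norm_neg]
    exact Real.abs_cos_le_one _
  have key := even_zero (fun s => (∫ t, Real.cos (‖t‖ * s) * (h t).re ∂ρ) -
      ∫ t, Real.cos (‖t‖ * s) * (-Real.cos ‖t‖) ∂(rho (((m : ℝ) + 1) / 3) (mu0 m)))
    ((cos_g_cont ρ _ hre).sub (cos_g_cont _ _ hcos))
    (fun s => by simp only [mul_neg, Real.cos_neg]) (m + 1) (fun q hq => by
      have h1 : ∀ s : ℝ, ((∫ t, Real.cos (‖t‖ * s) * (h t).re ∂ρ) -
          ∫ t, Real.cos (‖t‖ * s) * (-Real.cos ‖t‖) ∂(rho (((m : ℝ) + 1) / 3) (mu0 m))) * (1 - s ^ 2) ^ q =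
          (∫ t, Real.cos (‖t‖ * s) * (h t).re ∂ρ) * (1 - s ^ 2) ^ q -
          (∫ t, Real.cos (‖t‖ * s) * (-Real.cos ‖t‖) ∂(rho (((m : ℝ) + 1) / 3) (mu0 m))) * (1 - s ^ 2) ^ q := by
        intro s
        ring
      simp only [h1]
      have c1 := cos_g_cont ρ _ hre
      have c2 := cos_g_cont _ _ hcos
      have c0 : Continuous (fun s : ℝ => (1 - s ^ 2) ^ q) := by fun_prop
      have i1 : IntervalIntegrable (fun s : ℝ => (∫ t, Real.cos (‖t‖ * s) * (h t).re ∂ρ) * (1 - s ^ 2) ^ q) volume (-1) 1 :=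
        (c1.mul c0).intervalIntegrable _ _
      have i2 : IntervalIntegrable (fun s : ℝ => (∫ t, Real.cos (‖t‖ * s) * (-Real.cos ‖t‖)
          ∂(rho (((m : ℝ) + 1) / 3) (mu0 m))) * (1 - s ^ 2) ^ q) volume (-1) 1 :=
        (c2.mul c0).intervalIntegrable _ _
      rw [intervalIntegral.integral_sub i1 i2, cos_g_phi ρ _ hre, cos_g_phi _ _ hcos]
      have h2 := Wf_eq ρ (rho (((m : ℝ) + 1) / 3) (mu0 m)) h (fun t => (-(Real.cos ‖t‖ : ℝ) : ℂ)) hi (cos_int _)
        (fun ξ hξ => by rw [hT ξ hξ, T0 m ξ hξ]) (Wf_Phi m q hq)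
      have h3 := congrArg Complex.re h2
      have hp : ∀ (σ : Measure (V m)) [IsFiniteMeasure σ] (u : V m → ℂ), Integrable u σ →
          (∫ t, (Phi q ‖t‖ : ℂ) * u t ∂σ).re = ∫ t, Phi q ‖t‖ * (u t).re ∂σ := by
        intro σ _ u hu
        have hpi : Integrable (fun t : V m => (Phi q ‖t‖ : ℂ) * u t) σ := by
          refine hu.bdd_mul (c := 2) (Continuous.aestronglyMeasurable
            (Complex.continuous_ofReal.comp ((Phi_cont q).comp continuous_norm)))
            (Filter.Eventually.of_forall fun t => ?_)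
          rw [Complex.norm_real]
          exact Phi_abs_le _ _
        rw [← RCLike.re_eq_complex_re, ← integral_re hpi]
        refine integral_congr_ae (Filter.Eventually.of_forall fun t => ?_)
        simp only [RCLike.re_eq_complex_re]
        rw [Complex.re_ofReal_mul]
      rw [hp ρ h hi, hp _ _ (cos_int _)] at h3
      rw [h3, sub_eq_zero]
      refine integral_congr_ae (Filter.Eventually.of_forall fun t => ?_)
      simp only [Complex.neg_re, Complex.ofReal_re])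
  have k1 := key 1 ⟨by norm_num, le_rfl⟩
  simp only [ref_cos m 1 (by norm_num) le_rfl] at k1
  simp only [mul_one, one_pow] at k1
  linarith

/-- the density is `- cos ‖t‖` and the measure lives on the spheres of radius `π k` -/
theorem dens (m : ℕ) (ρ : Measure (V m)) [IsFiniteMeasure ρ] (h : V m → ℂ) (hi : Integrable h ρ)
    (hn : ∀ᵐ t ∂ρ, ‖h t‖ = 1) (hmass : ρ.real Set.univ = (m : ℝ) + 1)
    (hT : ∀ ξ : V m, ‖ξ‖ ≤ 1 → ∫ t, ch t ξ * h t ∂ρ = ((-‖ξ‖ ^ 2 : ℝ) : ℂ)) :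
    ∀ᵐ t ∂ρ, h t = (-(Real.cos ‖t‖ : ℝ) : ℂ) ∧ Real.sin ‖t‖ = 0 := by
  have hval := cos_val m ρ h hi hT
  have hre : Integrable (fun t => (h t).re) ρ := hi.re
  have hcr : Integrable (fun t : V m => Real.cos ‖t‖ * (h t).re) ρ := by
    refine hre.bdd_mul (c := 1) (Continuous.aestronglyMeasurable (by fun_prop))
      (Filter.Eventually.of_forall fun t => ?_)
    exact Real.abs_cos_le_one _
  have hnn : ∀ᵐ t ∂ρ, 0 ≤ 1 + Real.cos ‖t‖ * (h t).re := by
    filter_upwards [hn] with t ht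
    have h1 : |(h t).re| ≤ 1 := by
      rw [← ht]
      exact Complex.abs_re_le_norm _
    have h2 : |Real.cos ‖t‖ * (h t).re| ≤ 1 := by
      rw [abs_mul]
      calc |Real.cos ‖t‖| * |(h t).re| ≤ 1 * 1 := mul_le_mul (Real.abs_cos_le_one _) h1 (abs_nonneg _) zero_le_one
        _ = 1 := one_mul 1
    linarith [(abs_le.1 h2).1]
  have h0 : ∫ t, (1 + Real.cos ‖t‖ * (h t).re) ∂ρ = 0 := by
    rw [integral_add (integrable_const _) hcr, hval, integral_const, hmass, smul_eq_mul]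
    ring
  have h3 := (integral_eq_zero_iff_of_nonneg_ae hnn ((integrable_const _).add hcr)).1 h0
  filter_upwards [h3, hn] with t ht hnt
  have h4 : 1 + Real.cos ‖t‖ * (h t).re = 0 := ht
  have h5 : |(h t).re| ≤ 1 := by
    rw [← hnt]
    exact Complex.abs_re_le_norm _
  have h6 := Real.abs_cos_le_one ‖t‖
  have h7 : Real.cos ‖t‖ ^ 2 ≤ 1 := by rw [← sq_abs]; exact pow_le_one₀ (abs_nonneg _) h6
  have h8 : (h t).re ^ 2 ≤ 1 := by rw [← sq_abs]; exact pow_le_one₀ (abs_nonneg _) h5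
  have h9 : Real.cos ‖t‖ * (h t).re = -1 := by linarith
  have h10 : Real.cos ‖t‖ ^ 2 * (h t).re ^ 2 = 1 := by rw [← mul_pow, h9]; norm_num
  have h11 : Real.cos ‖t‖ ^ 2 = 1 := by nlinarith [sq_nonneg (Real.cos ‖t‖), sq_nonneg (h t).re]
  have h12 : (h t).re ^ 2 = 1 := by rw [h11, one_mul] at h10; exact h10
  have h13 : (h t).re = -Real.cos ‖t‖ := by
    have : Real.cos ‖t‖ * ((h t).re + Real.cos ‖t‖) = 0 := by
      rw [mul_add, h9, ← sq, h11]
      norm_num
    rcases mul_eq_zero.1 this with h | h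
    · rw [h] at h11
      norm_num at h11
    · linarith
  have h14 : (h t).im = 0 := by
    have h15 := Complex.sq_norm (h t)
    rw [hnt, Complex.normSq_apply] at h15
    nlinarith
  refine ⟨?_, ?_⟩
  · apply Complex.ext
    · rw [Complex.neg_re, Complex.ofReal_re, h13]
    · rw [Complex.neg_im, Complex.ofReal_im, h14, neg_zero]
  · have := Real.sin_sq_add_cos_sq ‖t‖
    rw [h11] at this
    nlinarith

/-- the sphere of radius `π (k+1)` -/
def Sp (m k : ℕ) : Set (V m) := {t | ‖t‖ = Real.pi * ((k : ℝ) + 1)}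

theorem Sp_meas (m k : ℕ) : MeasurableSet (Sp m k) := measurableSet_eq_fun measurable_norm measurable_const

theorem Sp_disj (m : ℕ) : Pairwise (Function.onFun Disjoint (Sp m)) := by
  intro k l hkl
  refine Set.disjoint_left.2 fun t h1 h2 => hkl ?_
  unfold Sp at h1 h2
  rw [Set.mem_setOf_eq] at h1 h2
  rw [h1] at h2
  have h3 := mul_left_cancel₀ Real.pi_ne_zero h2
  have h4 : (k : ℝ) = l := by linarith
  exact_mod_cast h4

theorem cover (m : ℕ) (t : V m) (h : Real.sin ‖t‖ = 0) : t ∈ ({0} : Set (V m)) ∪ ⋃ k, Sp m k := by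
  obtain ⟨n, hn⟩ := Real.sin_eq_zero_iff.1 h
  have h0 : 0 ≤ n := by
    by_contra hneg
    push Not at hneg
    have h1 : (n : ℝ) < 0 := by exact_mod_cast hneg
    have h2 := norm_nonneg t
    rw [← hn] at h2
    nlinarith [Real.pi_pos]
  obtain ⟨k, rfl⟩ := Int.eq_ofNat_of_zero_le h0
  rcases Nat.eq_zero_or_pos k with hk | hk
  · left
    rw [hk] at hn
    simp only [Int.ofNat_eq_natCast, Nat.cast_zero, Int.cast_zero, zero_mul] at hn
    exact norm_eq_zero.1 hn.symm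
  · right
    obtain ⟨l, rfl⟩ := Nat.exists_eq_add_of_le' hk
    refine Set.mem_iUnion.2 ⟨l, ?_⟩
    unfold Sp
    rw [Set.mem_setOf_eq, ← hn]
    push_cast
    ring

/-- the measures on the unit sphere -/
noncomputable def mk (m : ℕ) (ρ : Measure (V m)) (k : ℕ) : Measure (V m) :=
  (ρ.restrict (Sp m k)).map (fun t : V m => (Real.pi * ((k : ℝ) + 1))⁻¹ • t)

theorem mk_map (m : ℕ) (ρ : Measure (V m)) (k : ℕ) :
    (mk m ρ k).map (fun x : V m => (Real.pi * ((k : ℝ) + 1)) • x) = ρ.restrict (Sp m k) := by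
  unfold mk
  rw [Measure.map_map (smul_meas _) (smul_meas _)]
  have h1 : ((fun x : V m => (Real.pi * ((k : ℝ) + 1)) • x) ∘ fun t : V m => (Real.pi * ((k : ℝ) + 1))⁻¹ • t) = id := by
    funext t
    have h2 : Real.pi * ((k : ℝ) + 1) ≠ 0 := by positivity
    simp only [Function.comp, id]
    rw [smul_smul, mul_inv_cancel₀ h2, one_smul]
  rw [h1, Measure.map_id]

theorem rho_mk (m : ℕ) (ρ : Measure (V m)) [IsFiniteMeasure ρ] (h : ∀ᵐ t ∂ρ, Real.sin ‖t‖ = 0) :
    rho (ρ.real {0}) (mk m ρ) = ρ := by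
  unfold rho
  simp only [mk_map]
  rw [← Measure.restrict_iUnion (Sp_disj m) (Sp_meas m), ofReal_measureReal, ← Measure.restrict_singleton,
    ← Measure.restrict_union ?_ (MeasurableSet.iUnion (Sp_meas m))]
  · refine Measure.restrict_eq_self_of_ae_mem ?_
    filter_upwards [h] with t ht
    exact cover m t ht
  · rw [Set.disjoint_singleton_left]
    intro h1
    obtain ⟨k, hk⟩ := Set.mem_iUnion.1 h1
    unfold Sp at hk
    rw [Set.mem_setOf_eq, norm_zero] at hk
    have : 0 < Real.pi * ((k : ℝ) + 1) := by positivity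
    linarith

theorem mk_fm (m : ℕ) (ρ : Measure (V m)) [IsFiniteMeasure ρ] (h : ∀ᵐ t ∂ρ, Real.sin ‖t‖ = 0) : Fm (mk m ρ) := by
  refine ⟨fun k => ?_, fun k => ?_, ?_⟩
  · unfold mk
    infer_instance
  · unfold mk
    rw [ae_map_iff (smul_meas _).aemeasurable (measurableSet_eq_fun measurable_norm measurable_const)]
    filter_upwards [ae_restrict_mem (Sp_meas m k)] with t ht
    unfold Sp at ht
    rw [Set.mem_setOf_eq] at ht
    have h2 : 0 < Real.pi * ((k : ℝ) + 1) := by positivity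
    rw [norm_smul, ht, Real.norm_eq_abs, abs_of_pos (inv_pos.2 h2), inv_mul_cancel₀ h2.ne']
  · have h1 : ∑' k, mk m ρ k Set.univ ≠ ⊤ := by
      have h2 : ρ Set.univ < ⊤ := measure_lt_top ρ _
      rw [← rho_mk m ρ h, rho_univ] at h2
      exact (ENNReal.add_lt_top.1 h2).2.ne
    exact ENNReal.summable_toReal h1

end Pool.Agent.Q198.XM
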