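import Pool.Agent.Q198.XM.Fwd

/-!
# Extremal measures for the Laplacian: the moments of an extremal measure
-/

set_option autoImplicit false
set_option linter.all false

namespace Pool.Agent.Q198.XM

open MeasureTheory Finset

/-- the moment conditions -/
structure Mom {m : ℕ} (μ : ℕ → Measure (V m)) : Prop where
  one : ∀ (k : ℕ) (i : Fin (m + 1)), ∫ x, x i ∂(μ k) = 0
  two : ∀ (k : ℕ) (i l : Fin (m + 1)),
    ∫ x, x i * x l ∂(μ k) = if i = l then 4 / (Real.pi ^ 2 * ((k : ℝ) + 1) ^ 2) else 0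
  high : ∀ α : Fin (m + 1) → ℕ, 3 ≤ ∑ i, α i → ∃ P : Polynomial ℝ, P.eval 0 = 0 ∧ 2 * P.natDegree + 2 ≤ ∑ i, α i ∧
    ∀ k : ℕ, ((k : ℝ) + 1) ^ (∑ i, α i) * ∫ x, ∏ i, x i ^ α i ∂(μ k) = P.eval (((k : ℝ) + 1) ^ 2)

theorem Sq_sub {M : ℕ} {b b' : ℕ → ℝ} (hb : Gr M b) (hb' : Gr M b') (q : ℕ) (hq : M + 3 ≤ q) :
    Sq q (fun k => b k - b' k) = Sq q b - Sq q b' := by
  have s1 := Sq_summable hb hq
  have s2 := Sq_summable hb' hq
  unfold Sq
  rw [← s1.tsum_sub s2]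
  refine tsum_congr fun k => ?_
  ring

theorem mon_int {m : ℕ} (ν : Measure (V m)) [IsFiniteMeasure ν] (hs : ∀ᵐ x ∂ν, ‖x‖ = 1) (β : Fin (m + 1) → ℕ) :
    Integrable (mon β) ν := by
  refine Integrable.of_bound (C := 1) (mon_cont β).aestronglyMeasurable ?_
  filter_upwards [hs] with x hx
  exact mon_le β x hx

theorem mon_int_le {m : ℕ} (ν : Measure (V m)) [IsFiniteMeasure ν] (hs : ∀ᵐ x ∂ν, ‖x‖ = 1) (β : Fin (m + 1) → ℕ) :
    |∫ x, mon β x ∂ν| ≤ ν.real Set.univ := by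
  have h := norm_integral_le_of_norm_le_const (μ := ν) (f := mon β) (C := 1) (by
    filter_upwards [hs] with x hx
    exact mon_le β x hx)
  rw [one_mul, Real.norm_eq_abs] at h
  exact h

theorem Fm.gr {m : ℕ} {μ : ℕ → Measure (V m)} (h : Fm μ) (β : Fin (m + 1) → ℕ) : Gr (∑ i, β i) (bs μ β) := by
  refine ⟨∑' k, (μ k).real Set.univ, tsum_nonneg fun k => measureReal_nonneg, fun k hk => ?_⟩
  haveI := h.fin (k - 1)
  unfold bs
  rw [abs_mul, abs_of_nonneg (by positivity : (0 : ℝ) ≤ (k : ℝ) ^ (∑ i, β i)), mul_comm]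
  refine mul_le_mul_of_nonneg_right ?_ (by positivity)
  refine (mon_int_le _ (h.sph (k - 1)) β).trans ?_
  exact h.sum.le_tsum (k - 1) fun l _ => measureReal_nonneg

theorem mon_at_zero {m : ℕ} (β : Fin (m + 1) → ℕ) (h : 1 ≤ ∑ i, β i) : mon β (0 : V m) = 0 := by
  have h1 := mon_smul β 0 (0 : V m)
  rw [zero_smul, zero_pow (by omega), zero_mul] at h1
  exact h1

section main

variable {m : ℕ} {c : ℝ} (hc : 0 ≤ c) {μ : ℕ → Measure (V m)} (hf : Fm μ)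
  (heq : ∀ f : V m → ℂ, Wf f → ∫ t, f t * (-(Real.cos ‖t‖ : ℝ) : ℂ) ∂(rho c μ) =
    ∫ t, f t * (-(Real.cos ‖t‖ : ℝ) : ℂ) ∂(rho (((m : ℝ) + 1) / 3) (mu0 m)))

include hc hf heq

theorem Sq_same (β : Fin (m + 1) → ℕ) (h1 : 1 ≤ ∑ i, β i) (q : ℕ) (hq : ∑ i, β i + (m + 1) ≤ q) :
    Sq q (bs μ β) = Sq q (bs (mu0 m) β) := by
  have h2 := heq _ (Wf_gb m _ β q le_rfl hq)
  rw [fam_gb c hc hf β q hq, fam_gb _ (by positivity) (mu0_fm m) β q hq, mon_at_zero β h1] at h2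
  have h3 : Real.pi ^ (∑ i, β i) * Sq q (bs μ β) - c * (0 * Phi q 0) =
      Real.pi ^ (∑ i, β i) * Sq q (bs (mu0 m) β) - ((m : ℝ) + 1) / 3 * (0 * Phi q 0) := by exact_mod_cast h2
  have h4 : (Real.pi ^ (∑ i, β i)) ≠ 0 := by positivity
  apply mul_left_cancel₀ h4
  linarith

theorem mom_gen (β : Fin (m + 1) → ℕ) (h1 : 1 ≤ ∑ i, β i) (j : ℕ) (hg : Gr (2 * j + 1) (bs μ β))
    (hg0 : Gr (2 * j + 1) (bs (mu0 m) β)) :
    ∃ P : Polynomial ℝ, P.natDegree ≤ j ∧ P.eval 0 = 0 ∧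
      ∀ k : ℕ, 1 ≤ k → bs μ β k - bs (mu0 m) β k = P.eval ((k : ℝ) ^ 2) := by
  refine poly_of_orth j _ (hg.sub hg0) (max (∑ i, β i + (m + 1)) (2 * j + 1 + 3)) fun q hq => ?_
  rw [Sq_sub hg hg0 q ((le_max_right _ _).trans hq), Sq_same hc hf heq β h1 q ((le_max_left _ _).trans hq), sub_self]

theorem mom_one (k : ℕ) (i : Fin (m + 1)) : ∫ x, x i ∂(μ k) = 0 := by
  have hs : ∑ l, (Pi.single i 1 : Fin (m + 1) → ℕ) l = 1 := by simp
  have hg := hf.gr (Pi.single i 1)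
  have hg0 := (mu0_fm m).gr (Pi.single i 1)
  rw [hs] at hg hg0
  obtain ⟨P, hP1, hP2, hP3⟩ := mom_gen hc hf heq (Pi.single i 1) (by rw [hs]) 0 hg hg0
  have h1 := hP3 (k + 1) (by omega)
  rw [ref_odd m _ (by rw [hs]; exact odd_one) (k + 1) (by omega), sub_zero] at h1
  have hP : P = 0 := by
    rw [Polynomial.eq_C_of_natDegree_eq_zero (Nat.le_zero.1 hP1)] at hP2 ⊢
    rw [Polynomial.eval_C] at hP2
    rw [hP2, Polynomial.C_0]
  rw [hP, Polynomial.eval_zero] at h1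
  unfold bs at h1
  rw [Nat.add_sub_cancel] at h1
  simp only [mon_single] at h1
  rcases mul_eq_zero.1 h1 with h2 | h2
  · exfalso
    have h3 : (0 : ℝ) < ((k + 1 : ℕ) : ℝ) ^ (∑ l, (Pi.single i 1 : Fin (m + 1) → ℕ) l) := by positivity
    linarith
  · exact h2

theorem mom_two (k : ℕ) (i l : Fin (m + 1)) :
    ∫ x, x i * x l ∂(μ k) = if i = l then 4 / (Real.pi ^ 2 * ((k : ℝ) + 1) ^ 2) else 0 := by
  rw [← ref_two]
  have hs : ∑ r, (Pi.single i 1 + Pi.single l 1 : Fin (m + 1) → ℕ) r = 2 := by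
    rw [sum_single]
    simp
  have hg := (hf.gr (Pi.single i 1 + Pi.single l 1)).mono (show _ ≤ 2 * 1 + 1 by rw [hs]; norm_num)
  have hg0 := ((mu0_fm m).gr (Pi.single i 1 + Pi.single l 1)).mono (show _ ≤ 2 * 1 + 1 by rw [hs]; norm_num)
  obtain ⟨P, hP1, hP2, hP3⟩ := mom_gen hc hf heq (Pi.single i 1 + Pi.single l 1) (by rw [hs]; norm_num) 1 hg hg0
  obtain ⟨a, b, hab⟩ := Polynomial.exists_eq_X_add_C_of_natDegree_le_one hP1
  have hb : b = 0 := by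
    rw [hab] at hP2
    simpa using hP2
  subst hb
  have key : ∀ k : ℕ, ∫ x, x i * x l ∂(μ k) - ∫ x, x i * x l ∂(mu0 m k) = a := by
    intro k
    have h1 := hP3 (k + 1) (by omega)
    unfold bs at h1
    rw [Nat.add_sub_cancel, hs, hab] at h1
    simp only [mon_pair, Polynomial.eval_add, Polynomial.eval_mul, Polynomial.eval_C, Polynomial.eval_X, add_zero] at h1
    have h2 : (0 : ℝ) < ((k + 1 : ℕ) : ℝ) ^ 2 := by positivity
    apply mul_left_cancel₀ h2.ne'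
    linarith
  have hlim : ∀ {μ' : ℕ → Measure (V m)}, Fm μ' →
      Filter.Tendsto (fun k => ∫ x, x i * x l ∂(μ' k)) Filter.atTop (nhds 0) := by
    intro μ' h'
    refine squeeze_zero_norm (fun k => ?_) h'.sum.tendsto_atTop_zero
    haveI := h'.fin k
    have h3 := mon_int_le (μ' k) (h'.sph k) (Pi.single i 1 + Pi.single l 1)
    simp only [mon_pair] at h3
    exact h3
  have h4 := (hlim hf).sub (hlim (mu0_fm m))
  simp only [key, sub_zero] at h4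
  have ha : a = 0 := tendsto_nhds_unique tendsto_const_nhds h4
  have h5 := key k
  rw [ha] at h5
  linarith

theorem mass_eq (k : ℕ) : (μ k).real Set.univ = 4 * ((m : ℝ) + 1) / (Real.pi ^ 2 * ((k : ℝ) + 1) ^ 2) := by
  haveI := hf.fin k
  have h1 : (μ k).real Set.univ = ∫ x, ∑ i, x i * x i ∂(μ k) := by
    have h2 : ∫ x, ∑ i, x i * x i ∂(μ k) = ∫ x, (1 : ℝ) ∂(μ k) := by
      refine integral_congr_ae ?_
      filter_upwards [hf.sph k] with x hx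
      have h3 := EuclideanSpace.norm_sq_eq x
      rw [hx] at h3
      simp only [Real.norm_eq_abs, sq_abs] at h3
      simp only [← sq]
      rw [← h3]
      norm_num
    rw [h2, integral_const]
    simp
  rw [h1, integral_finset_sum _ (fun i _ => by
    have h4 := mon_int (μ k) (hf.sph k) (Pi.single i 1 + Pi.single i 1)
    have h5 : (mon (Pi.single i 1 + Pi.single i 1) : V m → ℝ) = fun x => x i * x i := funext (mon_pair i i)
    rwa [h5] at h4)]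
  simp only [mom_two hc hf heq k, if_true]
  rw [sum_const, card_univ, Fintype.card_fin, nsmul_eq_mul]
  push_cast
  ring

theorem gr_high (β : Fin (m + 1) → ℕ) (h3 : 3 ≤ ∑ i, β i) : Gr (∑ i, β i - 2) (bs μ β) := by
  refine ⟨4 * ((m : ℝ) + 1) / Real.pi ^ 2, by positivity, fun k hk => ?_⟩
  haveI := hf.fin (k - 1)
  unfold bs
  have hk0 : (0 : ℝ) < k := by exact_mod_cast hk
  rw [abs_mul, abs_of_nonneg (by positivity : (0 : ℝ) ≤ (k : ℝ) ^ (∑ i, β i))]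
  have h1 := (mon_int_le _ (hf.sph (k - 1)) β).trans (le_of_eq (mass_eq hc hf heq (k - 1)))
  have h2 : ((k - 1 : ℕ) : ℝ) + 1 = k := by
    obtain ⟨l, rfl⟩ := Nat.exists_eq_add_of_le' hk
    rw [Nat.add_sub_cancel]
    push_cast
    ring
  rw [h2] at h1
  have h4 : (k : ℝ) ^ (∑ i, β i) = (k : ℝ) ^ (∑ i, β i - 2) * (k : ℝ) ^ 2 := by
    rw [← pow_add]
    congr 1
    omega
  calc (k : ℝ) ^ (∑ i, β i) * |∫ x, mon β x ∂(μ (k - 1))|
      ≤ (k : ℝ) ^ (∑ i, β i) * (4 * ((m : ℝ) + 1) / (Real.pi ^ 2 * (k : ℝ) ^ 2)) :=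
        mul_le_mul_of_nonneg_left h1 (by positivity)
    _ = 4 * ((m : ℝ) + 1) / Real.pi ^ 2 * (k : ℝ) ^ (∑ i, β i - 2) := by
        rw [h4]
        field_simp

theorem mom_high (β : Fin (m + 1) → ℕ) (h3 : 3 ≤ ∑ i, β i) :
    ∃ P : Polynomial ℝ, P.eval 0 = 0 ∧ 2 * P.natDegree + 2 ≤ ∑ i, β i ∧
      ∀ k : ℕ, ((k : ℝ) + 1) ^ (∑ i, β i) * ∫ x, ∏ i, x i ^ β i ∂(μ k) = P.eval (((k : ℝ) + 1) ^ 2) := by
  obtain ⟨j, hj1, hj2⟩ : ∃ j, ∑ i, β i - 2 ≤ 2 * j + 1 ∧ 2 * j + 2 ≤ ∑ i, β i := ⟨(∑ i, β i - 2) / 2, by omega, by omega⟩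
  have hg := (gr_high hc hf heq β h3).mono hj1
  have hg0 := (gr_high (c := ((m : ℝ) + 1) / 3) (by positivity) (mu0_fm m) (fun _ _ => rfl) β h3).mono hj1
  obtain ⟨P, hP1, hP2, hP3⟩ := mom_gen hc hf heq β (by omega) j hg hg0
  obtain ⟨Q, hQ1, hQ2, hQ3⟩ := ref_poly m β h3
  refine ⟨P + Q, by rw [Polynomial.eval_add, hP2, hQ1, add_zero], ?_, fun k => ?_⟩
  · have h4 := Polynomial.natDegree_add_le P Q
    have h5 : max P.natDegree Q.natDegree ≤ (∑ i, β i - 2) / 2 := max_le (by omega) (by omega)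
    omega
  · have h6 := hP3 (k + 1) (by omega)
    have h7 := hQ3 (k + 1) (by omega)
    have h8 : bs μ β (k + 1) = ((k : ℝ) + 1) ^ (∑ i, β i) * ∫ x, ∏ i, x i ^ β i ∂(μ k) := by
      unfold bs
      rw [Nat.add_sub_cancel]
      push_cast
      rfl
    rw [← h8, Polynomial.eval_add]
    push_cast at h6 h7
    rw [← h6, ← h7]
    ring

theorem fam_mom : Mom μ :=
  ⟨mom_one hc hf heq, mom_two hc hf heq, mom_high hc hf heq⟩

end main

theorem sum_inv : HasSum (fun k : ℕ => 1 / ((k : ℝ) + 1) ^ 2) (Real.pi ^ 2 / 6) := by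
  have h := bern_two 1 (by norm_num) le_rfl
  have h2 := h.mul_left (-1)
  have e : (-1 : ℝ) * (Real.pi ^ 2 * ((1 - 1 ^ 2) / 4 - 1 / 6)) = Real.pi ^ 2 / 6 := by ring
  rw [e] at h2
  refine h2.congr_fun fun k => ?_
  rw [mul_one]
  have h3 : Real.cos (Real.pi * ((k : ℝ) + 1)) = (-1) ^ (k + 1) := by
    rw [← Real.cos_nat_mul_pi]
    congr 1
    push_cast
    ring
  rw [h3]
  have h4 : ((-1 : ℝ) ^ k) * (-1) ^ k = 1 := by rw [← mul_pow]; norm_num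
  rw [pow_succ]
  linear_combination (-(1 / ((k : ℝ) + 1) ^ 2)) * h4

/-- the total mass of a family with masses `4 n / (π k)²` -/
theorem rho_total {m : ℕ} {c : ℝ} (hc : 0 ≤ c) {μ : ℕ → Measure (V m)} (hf : Fm μ)
    (hm : ∀ k, (μ k).real Set.univ = 4 * ((m : ℝ) + 1) / (Real.pi ^ 2 * ((k : ℝ) + 1) ^ 2)) :
    rho c μ Set.univ = ENNReal.ofReal (c + 2 * ((m : ℝ) + 1) / 3) := by
  rw [rho_univ, ENNReal.ofReal_add hc (by positivity)]
  congr 1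
  have h1 : ∀ k, μ k Set.univ = ENNReal.ofReal (4 * ((m : ℝ) + 1) / Real.pi ^ 2 * (1 / ((k : ℝ) + 1) ^ 2)) := by
    intro k
    haveI := hf.fin k
    rw [← ofReal_measureReal, hm]
    congr 1
    field_simp
  simp only [h1]
  have h2 := sum_inv.mul_left (4 * ((m : ℝ) + 1) / Real.pi ^ 2)
  rw [← ENNReal.ofReal_tsum_of_nonneg (fun k => by positivity) h2.summable, h2.tsum_eq]
  congr 1
  have hpi : Real.pi ≠ 0 := Real.pi_ne_zero
  field_simp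
  ring

/-- extremal measures: the forward direction -/
theorem fwd (m : ℕ) (ρ : Measure (V m)) [IsFiniteMeasure ρ] (h : V m → ℂ) (hi : Integrable h ρ)
    (hn : ∀ᵐ t ∂ρ, ‖h t‖ = 1) (hmass : ρ.real Set.univ = (m : ℝ) + 1)
    (hT : ∀ ξ : V m, ‖ξ‖ ≤ 1 → ∫ t, ch t ξ * h t ∂ρ = ((-‖ξ‖ ^ 2 : ℝ) : ℂ)) :
    ∃ μ : ℕ → Measure (V m), Fm μ ∧ Mom μ ∧ rho (((m : ℝ) + 1) / 3) μ = ρ ∧
      ∀ᵐ t ∂ρ, h t = (-(Real.cos ‖t‖ : ℝ) : ℂ) := by
  have hd := dens m ρ h hi hn hmass hT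
  have hsin : ∀ᵐ t ∂ρ, Real.sin ‖t‖ = 0 := by
    filter_upwards [hd] with t ht
    exact ht.2
  have hf := mk_fm m ρ hsin
  have hr := rho_mk m ρ hsin
  have hc : 0 ≤ ρ.real {0} := measureReal_nonneg
  haveI := (mu0_fm m).rho_finite (((m : ℝ) + 1) / 3)
  have heq : ∀ f : V m → ℂ, Wf f → ∫ t, f t * (-(Real.cos ‖t‖ : ℝ) : ℂ) ∂(rho (ρ.real {0}) (mk m ρ)) =
      ∫ t, f t * (-(Real.cos ‖t‖ : ℝ) : ℂ) ∂(rho (((m : ℝ) + 1) / 3) (mu0 m)) := by
    intro f hW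
    rw [hr]
    have h1 := Wf_eq ρ (rho (((m : ℝ) + 1) / 3) (mu0 m)) h (fun t => (-(Real.cos ‖t‖ : ℝ) : ℂ)) hi (cos_int _)
      (fun ξ hξ => by rw [hT ξ hξ, T0 m ξ hξ]) hW
    rw [← h1]
    refine integral_congr_ae ?_
    filter_upwards [hd] with t ht
    rw [ht.1]
  have hmom := fam_mom hc hf heq
  have htot := rho_total hc hf (mass_eq hc hf heq)
  rw [hr] at htot
  have h2 : ρ.real Set.univ = ρ.real {0} + 2 * ((m : ℝ) + 1) / 3 := by
    rw [Measure.real, htot, ENNReal.toReal_ofReal (by positivity)]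
  have h3 : ρ.real {0} = ((m : ℝ) + 1) / 3 := by
    rw [hmass] at h2
    linarith
  refine ⟨mk m ρ, hf, hmom, ?_, ?_⟩
  · rw [← h3]
    exact hr
  · filter_upwards [hd] with t ht
    exact ht.1

end Pool.Agent.Q198.XM
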