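import Mathlib

/-!
# Extremal measures for the Laplacian: the functions `Phi q`

`Phi q ρ = ∫_{-1}^{1} cos (ρ s) (1 - s²)^q ds`.
-/

set_option autoImplicit false
set_option linter.all false

namespace Pool.Agent.Q198.XM

open MeasureTheory Finset

/-- the kernel `∫_{-1}^{1} cos (ρ s) (1 - s²)^q ds` -/
noncomputable def Phi (q : ℕ) (ρ : ℝ) : ℝ := ∫ s in (-1 : ℝ)..1, Real.cos (ρ * s) * (1 - s ^ 2) ^ q

theorem Phi_int (q : ℕ) (ρ : ℝ) :
    IntervalIntegrable (fun s : ℝ => Real.cos (ρ * s) * (1 - s ^ 2) ^ q) volume (-1) 1 := by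
  apply Continuous.intervalIntegrable
  fun_prop

theorem Phi_abs_le (q : ℕ) (ρ : ℝ) : |Phi q ρ| ≤ 2 := by
  have h := intervalIntegral.norm_integral_le_of_norm_le_const (a := (-1 : ℝ)) (b := 1) (C := 1)
    (f := fun s : ℝ => Real.cos (ρ * s) * (1 - s ^ 2) ^ q) (fun s hs => by
      rw [Set.uIoc_of_le (by norm_num)] at hs
      obtain ⟨h1, h2⟩ := hs
      have h3 : |1 - s ^ 2| ≤ 1 := by
        rw [abs_le]
        constructor <;> nlinarith
      rw [Real.norm_eq_abs, abs_mul, abs_pow]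
      calc |Real.cos (ρ * s)| * |1 - s ^ 2| ^ q ≤ 1 * 1 :=
            mul_le_mul (Real.abs_cos_le_one _) (pow_le_one₀ (abs_nonneg _) h3) (by positivity) (by norm_num)
        _ = 1 := by norm_num)
  rw [Real.norm_eq_abs] at h
  unfold Phi
  have e : (1 : ℝ) * |1 - -1| = 2 := by norm_num
  rw [e] at h
  exact h

/-- the recursion -/
theorem Phi_rec (j : ℕ) (ρ : ℝ) :
    ρ ^ 2 * Phi (j + 2) ρ = 2 * (j + 2) * (2 * j + 3) * Phi (j + 1) ρ - 4 * (j + 1) * (j + 2) * Phi j ρ := by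
  have h1 : ∀ s : ℝ, HasDerivAt (fun s : ℝ => ρ * Real.sin (ρ * s) * (1 - s ^ 2) ^ (j + 2) +
      Real.cos (ρ * s) * (-(2 * (j + 2)) * s * (1 - s ^ 2) ^ (j + 1)))
      (ρ ^ 2 * (Real.cos (ρ * s) * (1 - s ^ 2) ^ (j + 2)) -
        2 * (j + 2) * (2 * j + 3) * (Real.cos (ρ * s) * (1 - s ^ 2) ^ (j + 1)) +
        4 * (j + 1) * (j + 2) * (Real.cos (ρ * s) * (1 - s ^ 2) ^ j)) s := by
    intro s
    have hr : HasDerivAt (fun s : ℝ => ρ * s) ρ s := by
      simpa using (hasDerivAt_id s).const_mul ρ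
    have hs := hr.sin
    have hc := hr.cos
    have hu : HasDerivAt (fun s : ℝ => 1 - s ^ 2) (-(2 * s)) s := by
      have := ((hasDerivAt_id s).pow 2).const_sub 1
      simpa using this
    have hp2 := hu.pow (j + 2)
    have hp1 := hu.pow (j + 1)
    have hid := (hasDerivAt_id s).const_mul (-(2 * ((j : ℝ) + 2)))
    have h := ((hs.const_mul ρ).mul hp2).add (hc.mul (hid.mul hp1))
    refine h.congr_deriv ?_
    simp only [id, Nat.add_sub_cancel, Pi.mul_apply, Pi.pow_apply]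
    push_cast
    ring
  have h2 := intervalIntegral.integral_eq_sub_of_hasDerivAt (a := (-1 : ℝ)) (b := 1) (fun s _ => h1 s)
    (by
      apply Continuous.intervalIntegrable
      fun_prop)
  have h3 : (ρ * Real.sin (ρ * 1) * (1 - 1 ^ 2) ^ (j + 2) +
      Real.cos (ρ * 1) * (-(2 * ((j : ℝ) + 2)) * 1 * (1 - 1 ^ 2) ^ (j + 1))) -
      (ρ * Real.sin (ρ * -1) * (1 - (-1) ^ 2) ^ (j + 2) +
      Real.cos (ρ * -1) * (-(2 * ((j : ℝ) + 2)) * (-1) * (1 - (-1) ^ 2) ^ (j + 1))) = 0 := by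
    norm_num
  rw [h3] at h2
  have i2 := (Phi_int (j + 2) ρ).const_mul (ρ ^ 2)
  have i1 := (Phi_int (j + 1) ρ).const_mul (2 * (j + 2) * (2 * j + 3))
  have i0 := (Phi_int j ρ).const_mul (4 * (j + 1) * (j + 2))
  rw [intervalIntegral.integral_add (i2.sub i1) i0, intervalIntegral.integral_sub i2 i1,
    intervalIntegral.integral_const_mul, intervalIntegral.integral_const_mul,
    intervalIntegral.integral_const_mul] at h2
  unfold Phi
  linarith

/-- the decay -/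
theorem Phi_decay (N : ℕ) : ∀ q : ℕ, 2 * N ≤ q → ∀ ρ : ℝ, (ρ ^ 2) ^ N * |Phi q ρ| ≤ 2 * (8 * (q : ℝ) ^ 2) ^ N := by
  induction N with
  | zero =>
    intro q _ ρ
    simpa using Phi_abs_le q ρ
  | succ N ih =>
    intro q hq ρ
    obtain ⟨j, rfl⟩ := Nat.exists_eq_add_of_le (show 2 ≤ q by omega)
    rw [add_comm 2 j] at hq ⊢
    have h1 := ih (j + 1) (by omega) ρ
    have h0 := ih j (by omega) ρ
    have hq0 : (0 : ℝ) ≤ j := Nat.cast_nonneg j
    have m1 : (8 * ((j + 1 : ℕ) : ℝ) ^ 2) ^ N ≤ (8 * ((j + 2 : ℕ) : ℝ) ^ 2) ^ N := by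
      apply pow_le_pow_left₀ (by positivity)
      push_cast
      nlinarith
    have m0 : (8 * (j : ℝ) ^ 2) ^ N ≤ (8 * ((j + 2 : ℕ) : ℝ) ^ 2) ^ N := by
      apply pow_le_pow_left₀ (by positivity)
      push_cast
      nlinarith
    set B := (8 * ((j + 2 : ℕ) : ℝ) ^ 2) ^ N with hB
    have hB0 : 0 ≤ B := by positivity
    have hrho : 0 ≤ (ρ ^ 2) ^ N := by positivity
    calc (ρ ^ 2) ^ (N + 1) * |Phi (j + 2) ρ| = (ρ ^ 2) ^ N * |ρ ^ 2 * Phi (j + 2) ρ| := by
          rw [abs_mul, abs_of_nonneg (sq_nonneg ρ)]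
          ring
      _ = (ρ ^ 2) ^ N * |2 * (j + 2) * (2 * j + 3) * Phi (j + 1) ρ - 4 * (j + 1) * (j + 2) * Phi j ρ| := by
          rw [Phi_rec]
      _ ≤ (ρ ^ 2) ^ N * (2 * (j + 2) * (2 * j + 3) * |Phi (j + 1) ρ| + 4 * (j + 1) * (j + 2) * |Phi j ρ|) := by
          refine mul_le_mul_of_nonneg_left ?_ hrho
          refine (abs_sub _ _).trans (le_of_eq ?_)
          rw [abs_mul (2 * ((j : ℝ) + 2) * (2 * j + 3)), abs_mul (4 * ((j : ℝ) + 1) * (j + 2)),
            abs_of_nonneg (show (0 : ℝ) ≤ 2 * (j + 2) * (2 * j + 3) by positivity),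
            abs_of_nonneg (show (0 : ℝ) ≤ 4 * (j + 1) * (j + 2) by positivity)]
      _ = 2 * (j + 2) * (2 * j + 3) * ((ρ ^ 2) ^ N * |Phi (j + 1) ρ|) +
          4 * (j + 1) * (j + 2) * ((ρ ^ 2) ^ N * |Phi j ρ|) := by ring
      _ ≤ 2 * (j + 2) * (2 * j + 3) * (2 * B) + 4 * (j + 1) * (j + 2) * (2 * B) := by
          refine add_le_add (mul_le_mul_of_nonneg_left (h1.trans ?_) (by positivity))
            (mul_le_mul_of_nonneg_left (h0.trans ?_) (by positivity))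
          · linarith
          · linarith
      _ ≤ 2 * (8 * ((j + 2 : ℕ) : ℝ) ^ 2) ^ (N + 1) := by
          rw [pow_succ, ← hB]
          push_cast
          nlinarith [mul_nonneg hB0 hq0]

/-- the derivative -/
theorem Phi_deriv (q : ℕ) (ρ : ℝ) : HasDerivAt (Phi q) (-(ρ / (2 * (q + 1))) * Phi (q + 1) ρ) ρ := by
  have h1 : HasDerivAt (Phi q) (∫ s in (-1 : ℝ)..1, (-(s * Real.sin (ρ * s))) * (1 - s ^ 2) ^ q) ρ := by
    have h := intervalIntegral.hasDerivAt_integral_of_dominated_loc_of_deriv_le (μ := volume) (a := -1) (b := 1)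
      (F := fun (x s : ℝ) => Real.cos (x * s) * (1 - s ^ 2) ^ q)
      (F' := fun (x s : ℝ) => (-(s * Real.sin (x * s))) * (1 - s ^ 2) ^ q) (x₀ := ρ) (s := Set.univ)
      (bound := fun _ => (1 : ℝ)) Filter.univ_mem
      (Filter.Eventually.of_forall fun x => (by fun_prop : Continuous fun s : ℝ =>
        Real.cos (x * s) * (1 - s ^ 2) ^ q).aestronglyMeasurable) (Phi_int q ρ)
      ((by fun_prop : Continuous fun s : ℝ => (-(s * Real.sin (ρ * s))) * (1 - s ^ 2) ^ q).aestronglyMeasurable)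
      (Filter.Eventually.of_forall fun s hs x _ => by
        rw [Set.uIoc_of_le (by norm_num)] at hs
        obtain ⟨h1, h2⟩ := hs
        have h3 : |1 - s ^ 2| ≤ 1 := by
          rw [abs_le]
          constructor <;> nlinarith
        have h4 : |s| ≤ 1 := abs_le.2 ⟨h1.le, h2⟩
        rw [Real.norm_eq_abs, abs_mul, abs_neg, abs_mul, abs_pow]
        calc |s| * |Real.sin (x * s)| * |1 - s ^ 2| ^ q ≤ 1 * 1 * 1 :=
              mul_le_mul (mul_le_mul h4 (Real.abs_sin_le_one _) (abs_nonneg _) (by norm_num))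
                (pow_le_one₀ (abs_nonneg _) h3) (by positivity) (by norm_num)
          _ = 1 := by norm_num)
      (by simp) (Filter.Eventually.of_forall fun s _ x _ => by
        have hr : HasDerivAt (fun x : ℝ => x * s) s x := by
          simpa using (hasDerivAt_id x).mul_const s
        have := hr.cos.mul_const ((1 - s ^ 2) ^ q)
        refine this.congr_deriv ?_
        ring)
    exact h.2
  have h2 : ∀ s : ℝ, HasDerivAt (fun s : ℝ => Real.sin (ρ * s) * (1 - s ^ 2) ^ (q + 1))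
      (ρ * (Real.cos (ρ * s) * (1 - s ^ 2) ^ (q + 1)) +
        2 * (q + 1) * ((-(s * Real.sin (ρ * s))) * (1 - s ^ 2) ^ q)) s := by
    intro s
    have hr : HasDerivAt (fun s : ℝ => ρ * s) ρ s := by
      simpa using (hasDerivAt_id s).const_mul ρ
    have hu : HasDerivAt (fun s : ℝ => 1 - s ^ 2) (-(2 * s)) s := by
      have := ((hasDerivAt_id s).pow 2).const_sub 1
      simpa using this
    have h := hr.sin.mul (hu.pow (q + 1))
    refine h.congr_deriv ?_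
    simp only [Nat.add_sub_cancel, Pi.pow_apply]
    push_cast
    ring
  have h3 := intervalIntegral.integral_eq_sub_of_hasDerivAt (a := (-1 : ℝ)) (b := 1) (fun s _ => h2 s)
    (by
      apply Continuous.intervalIntegrable
      fun_prop)
  have i1 := (Phi_int (q + 1) ρ).const_mul ρ
  have i2 : IntervalIntegrable (fun s : ℝ => 2 * ((q : ℝ) + 1) * ((-(s * Real.sin (ρ * s))) * (1 - s ^ 2) ^ q))
      volume (-1) 1 := by
    apply Continuous.intervalIntegrable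
    fun_prop
  rw [intervalIntegral.integral_add i1 i2, intervalIntegral.integral_const_mul,
    intervalIntegral.integral_const_mul] at h3
  have h4 : (Real.sin (ρ * 1) * (1 - 1 ^ 2) ^ (q + 1) - Real.sin (ρ * -1) * (1 - (-1) ^ 2) ^ (q + 1)) = 0 := by
    norm_num
  rw [h4] at h3
  refine h1.congr_deriv ?_
  have hq : (0 : ℝ) < 2 * (q + 1) := by positivity
  set I := ∫ s in (-1 : ℝ)..1, (-(s * Real.sin (ρ * s))) * (1 - s ^ 2) ^ q with hI
  have h5 : 2 * ((q : ℝ) + 1) * I = -ρ * Phi (q + 1) ρ := by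
    unfold Phi
    linarith
  rw [neg_mul, div_mul_eq_mul_div, ← neg_div, eq_div_iff hq.ne']
  linarith

theorem Phi_cont (q : ℕ) : Continuous (Phi q) :=
  continuous_iff_continuousAt.2 fun ρ => (Phi_deriv q ρ).continuousAt

theorem Phi_even (q : ℕ) (ρ : ℝ) : Phi q (-ρ) = Phi q ρ := by
  unfold Phi
  congr 1
  funext s
  rw [neg_mul, Real.cos_neg]

theorem Phi_abs (q : ℕ) (ρ : ℝ) : Phi q |ρ| = Phi q ρ := by
  rcases abs_choice ρ with h | h
  · rw [h]
  · rw [h, Phi_even]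

/-- the recursion at zero -/
theorem Phi_zero_rec (j : ℕ) : (2 * j + 3) * Phi (j + 1) 0 = 2 * (j + 1) * Phi j 0 := by
  have h := Phi_rec j 0
  have hj : (0 : ℝ) < j + 2 := by positivity
  have h2 : ((j : ℝ) + 2) * ((2 * j + 3) * Phi (j + 1) 0) = ((j : ℝ) + 2) * (2 * (j + 1) * Phi j 0) := by
    linarith
  exact mul_left_cancel₀ hj.ne' h2

theorem Phi_zero_pos (j : ℕ) : 0 < Phi j 0 := by
  induction j with
  | zero =>
    unfold Phi
    simp
  | succ j ih =>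
    have h := Phi_zero_rec j
    have h1 : (0 : ℝ) < 2 * j + 3 := by positivity
    have h2 : 0 < 2 * ((j : ℝ) + 1) * Phi j 0 := by positivity
    rw [← h] at h2
    exact (mul_pos_iff_of_pos_left h1).1 h2

/-- a bound for the kernel times a power -/
theorem Phi_pow_bound (m q : ℕ) (hq : 2 * m ≤ q) (r ρ : ℝ) (hr : 1 / 2 ≤ r) :
    |ρ| ^ m * |Phi q (r * ρ)| ≤ 2 * (8 * (q : ℝ) ^ 2 * 4) ^ m + 2 := by
  have h0 : 0 ≤ 2 * (8 * (q : ℝ) ^ 2 * 4) ^ m := by positivity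
  by_cases h : |ρ| ≤ 1
  · calc |ρ| ^ m * |Phi q (r * ρ)| ≤ 1 * 2 :=
          mul_le_mul (pow_le_one₀ (abs_nonneg _) h) (Phi_abs_le _ _) (abs_nonneg _) (by norm_num)
      _ ≤ _ := by linarith
  · push Not at h
    have h1 : |ρ| ^ m ≤ (ρ ^ 2) ^ m := by
      rw [← sq_abs ρ, ← pow_mul, mul_comm, pow_mul]
      have h2 : 1 ≤ |ρ| ^ m := one_le_pow₀ h.le
      calc |ρ| ^ m = |ρ| ^ m * 1 := by ring
        _ ≤ |ρ| ^ m * |ρ| ^ m := mul_le_mul_of_nonneg_left h2 (by positivity)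
        _ = (|ρ| ^ m) ^ 2 := by ring
    have h2 : (ρ ^ 2) ^ m ≤ ((r * ρ) ^ 2) ^ m * 4 ^ m := by
      rw [← mul_pow]
      apply pow_le_pow_left₀ (sq_nonneg ρ)
      have h3 : 1 ≤ 4 * r ^ 2 := by nlinarith
      nlinarith [mul_nonneg (sub_nonneg.2 h3) (sq_nonneg ρ)]
    have h3 := Phi_decay m q hq (r * ρ)
    calc |ρ| ^ m * |Phi q (r * ρ)| ≤ (((r * ρ) ^ 2) ^ m * 4 ^ m) * |Phi q (r * ρ)| :=
          mul_le_mul_of_nonneg_right (h1.trans h2) (abs_nonneg _)
      _ = 4 ^ m * (((r * ρ) ^ 2) ^ m * |Phi q (r * ρ)|) := by ring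
      _ ≤ 4 ^ m * (2 * (8 * (q : ℝ) ^ 2) ^ m) := mul_le_mul_of_nonneg_left h3 (by positivity)
      _ = 2 * (8 * (q : ℝ) ^ 2 * 4) ^ m := by rw [mul_pow (8 * (q : ℝ) ^ 2) 4 m]; ring
      _ ≤ _ := by linarith

end Pool.Agent.Q198.XM
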