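import Pool.Agent.Q198.XM.Fam

/-!
# Extremal measures for the Laplacian: the reference measure
-/

set_option autoImplicit false
set_option linter.all false

namespace Pool.Agent.Q198.XM

open MeasureTheory Finset

/-- the reference family -/
noncomputable def mu0 (m : ℕ) (k : ℕ) : Measure (V m) :=
  ENNReal.ofReal (2 / (Real.pi ^ 2 * ((k : ℝ) + 1) ^ 2)) •
    ∑ j : Fin (m + 1), (Measure.dirac (ej j : V m) + Measure.dirac (-ej j : V m))

theorem mu0_int {E : Type} [NormedAddCommGroup E] [NormedSpace ℝ E] [CompleteSpace E] (m k : ℕ) (f : V m → E) :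
    ∫ x, f x ∂(mu0 m k) = (2 / (Real.pi ^ 2 * ((k : ℝ) + 1) ^ 2)) • ∑ j : Fin (m + 1), (f (ej j) + f (-ej j)) := by
  unfold mu0
  have hi : ∀ a : V m, Integrable f (Measure.dirac a) := fun a => integrable_dirac (by simp)
  rw [integral_smul_measure, ENNReal.toReal_ofReal (by positivity),
    integral_finsetSum_measure (fun j _ => (hi _).add_measure (hi _))]
  congr 1
  refine sum_congr rfl fun j _ => ?_
  rw [integral_add_measure (hi _) (hi _), integral_dirac, integral_dirac]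

theorem mu0_apply (m k : ℕ) (s : Set (V m)) (hs : MeasurableSet s) :
    mu0 m k s = ENNReal.ofReal (2 / (Real.pi ^ 2 * ((k : ℝ) + 1) ^ 2)) *
      ∑ j : Fin (m + 1), (s.indicator 1 (ej j : V m) + s.indicator 1 (-ej j : V m)) := by
  unfold mu0
  rw [Measure.smul_apply, Measure.finset_sum_apply, smul_eq_mul]
  congr 1
  refine sum_congr rfl fun j _ => ?_
  rw [Measure.add_apply, Measure.dirac_apply' _ hs, Measure.dirac_apply' _ hs]

theorem mu0_univ (m k : ℕ) : mu0 m k Set.univ = ENNReal.ofReal (4 * ((m : ℝ) + 1) / (Real.pi ^ 2 * ((k : ℝ) + 1) ^ 2)) := by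
  rw [mu0_apply m k _ MeasurableSet.univ]
  simp only [Set.indicator_univ, Pi.one_apply, sum_const, card_univ, Fintype.card_fin]
  have h1 : (m + 1) • ((1 : ENNReal) + 1) = ENNReal.ofReal (2 * ((m : ℝ) + 1)) := by
    rw [nsmul_eq_mul, ENNReal.ofReal_mul (by norm_num), mul_comm]
    congr 1
    · norm_num
    · rw [← Nat.cast_add_one, ENNReal.ofReal_natCast]
  rw [h1, ← ENNReal.ofReal_mul (by positivity)]
  congr 1
  ring

theorem mu0_fm (m : ℕ) : Fm (mu0 m) := by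
  refine ⟨fun k => ⟨?_⟩, fun k => ?_, ?_⟩
  · rw [mu0_univ]
    exact ENNReal.ofReal_lt_top
  · rw [ae_iff]
    have hs : MeasurableSet {x : V m | ¬ ‖x‖ = 1} := by
      refine (measurableSet_eq_fun measurable_norm measurable_const).compl
    rw [mu0_apply m k _ hs]
    have h1 : ∀ j : Fin (m + 1), ({x : V m | ¬ ‖x‖ = 1}).indicator (1 : V m → ENNReal) (ej j : V m) +
        ({x : V m | ¬ ‖x‖ = 1}).indicator (1 : V m → ENNReal) (-ej j : V m) = 0 := by
      intro j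
      rw [Set.indicator_of_notMem (by simp [ej_norm]), Set.indicator_of_notMem (by simp [ej_norm]), add_zero]
    simp only [h1, sum_const_zero, mul_zero]
  · have h2 : ∀ k : ℕ, (mu0 m k).real Set.univ = (4 * ((m : ℝ) + 1) / Real.pi ^ 2) * (1 / ((k : ℝ) + 1) ^ 2) := by
      intro k
      rw [Measure.real, mu0_univ, ENNReal.toReal_ofReal (by positivity)]
      field_simp
    simp only [h2]
    exact summable_sq.mul_left _

theorem mu0_real_univ (m k : ℕ) : (mu0 m k).real Set.univ = 4 * ((m : ℝ) + 1) / (Real.pi ^ 2 * ((k : ℝ) + 1) ^ 2) := by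
  rw [Measure.real, mu0_univ, ENNReal.toReal_ofReal (by positivity)]

/-- the transform of the reference measure -/
theorem T0 (m : ℕ) (ξ : V m) (hξ : ‖ξ‖ ≤ 1) :
    ∫ t, ch t ξ * (-(Real.cos ‖t‖ : ℝ) : ℂ) ∂(rho (((m : ℝ) + 1) / 3) (mu0 m)) = ((-‖ξ‖ ^ 2 : ℝ) : ℂ) := by
  have h1 := fam_int (((m : ℝ) + 1) / 3) (by positivity) (mu0_fm m) (fun t => ch t ξ) (ch_cont_left ξ).measurable 1
    (fun t => by rw [ch_norm])
  have h2 : ∀ k : ℕ, (-1 : ℂ) ^ k * ∫ x, ch ((Real.pi * ((k : ℝ) + 1)) • x) ξ ∂(mu0 m k) =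
      ((∑ j : Fin (m + 1), (4 / Real.pi ^ 2) * ((-1) ^ k * (1 / ((k : ℝ) + 1) ^ 2) * Real.cos (Real.pi * (k + 1) * ξ j)) : ℝ) : ℂ) := by
    intro k
    rw [mu0_int]
    have h3 : ∀ j : Fin (m + 1), ch ((Real.pi * ((k : ℝ) + 1)) • (ej j : V m)) ξ + ch ((Real.pi * ((k : ℝ) + 1)) • (-ej j : V m)) ξ =
        ((2 * Real.cos (Real.pi * (k + 1) * ξ j) : ℝ) : ℂ) := by
      intro j
      unfold ch
      have h4 : inner ℝ (ej j) ξ = ξ j := by
        unfold ej
        simp [EuclideanSpace.inner_single_left]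
      rw [smul_neg, inner_neg_left, inner_smul_left, h4]
      simp only [conj_trivial]
      push_cast
      rw [Complex.two_cos]
      rw [add_comm]
      congr 2 <;> ring
    simp only [h3]
    rw [Complex.real_smul]
    push_cast
    rw [mul_sum, mul_sum]
    refine sum_congr rfl fun j _ => ?_
    have hpi : (Real.pi : ℂ) ≠ 0 := by exact_mod_cast Real.pi_ne_zero
    have hk : ((k : ℂ) + 1) ≠ 0 := Nat.cast_add_one_ne_zero k
    field_simp
    ring
  simp only [h2] at h1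
  have hs : ∀ j : Fin (m + 1), |ξ j| ≤ 1 := by
    intro j
    have h := PiLp.norm_apply_le ξ j
    rw [Real.norm_eq_abs] at h
    exact h.trans hξ
  have h5 : HasSum (fun k : ℕ => ∑ j : Fin (m + 1), (4 / Real.pi ^ 2) * ((-1) ^ k * (1 / ((k : ℝ) + 1) ^ 2) * Real.cos (Real.pi * (k + 1) * ξ j)))
      (∑ j : Fin (m + 1), (4 / Real.pi ^ 2) * (Real.pi ^ 2 * ((1 - ξ j ^ 2) / 4 - 1 / 6))) := by
    refine hasSum_sum fun j _ => ?_
    exact (bern_two (ξ j) (abs_le.1 (hs j)).1 (abs_le.1 (hs j)).2).mul_left _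
  have h6 := (Complex.hasSum_ofReal.2 h5).unique h1
  have h7 : ∑ j : Fin (m + 1), (4 / Real.pi ^ 2) * (Real.pi ^ 2 * ((1 - ξ j ^ 2) / 4 - 1 / 6)) =
      ((m : ℝ) + 1) / 3 - ‖ξ‖ ^ 2 := by
    rw [EuclideanSpace.norm_sq_eq]
    have h8 : ∀ j : Fin (m + 1), (4 / Real.pi ^ 2) * (Real.pi ^ 2 * ((1 - ξ j ^ 2) / 4 - 1 / 6)) = 1 / 3 - ‖ξ j‖ ^ 2 := by
      intro j
      have hpi : Real.pi ≠ 0 := Real.pi_ne_zero
      rw [Real.norm_eq_abs, sq_abs]
      field_simp
      ring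
    simp only [h8]
    rw [sum_sub_distrib, sum_const, card_univ, Fintype.card_fin, nsmul_eq_mul]
    push_cast
    ring
  rw [h7] at h6
  have h9 : ch (0 : V m) ξ = 1 := by
    unfold ch
    simp
  rw [h9] at h6
  push_cast at h6 ⊢
  linear_combination -h6

theorem mon_neg {m : ℕ} (β : Fin (m + 1) → ℕ) (x : V m) : mon β (-x) = (-1) ^ (∑ i, β i) * mon β x := by
  rw [← mon_smul, neg_one_smul]

/-- the moments of the reference family -/
theorem ref_bs (m : ℕ) (β : Fin (m + 1) → ℕ) (k : ℕ) (hk : 1 ≤ k) :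
    bs (mu0 m) β k = (k : ℝ) ^ (∑ i, β i) *
      ((2 / (Real.pi ^ 2 * (k : ℝ) ^ 2)) * ∑ j : Fin (m + 1), (1 + (-1) ^ (∑ i, β i)) * mon β (ej j : V m)) := by
  unfold bs
  rw [mu0_int, smul_eq_mul]
  have h1 : ((k - 1 : ℕ) : ℝ) + 1 = k := by
    obtain ⟨l, rfl⟩ := Nat.exists_eq_add_of_le' hk
    rw [Nat.add_sub_cancel]
    push_cast
    ring
  rw [h1]
  congr 2
  refine sum_congr rfl fun j _ => ?_
  rw [mon_neg]
  ring

theorem ref_odd (m : ℕ) (β : Fin (m + 1) → ℕ) (h : Odd (∑ i, β i)) (k : ℕ) (hk : 1 ≤ k) : bs (mu0 m) β k = 0 := by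
  rw [ref_bs m β k hk, h.neg_one_pow]
  simp

theorem ref_poly (m : ℕ) (β : Fin (m + 1) → ℕ) (h3 : 3 ≤ ∑ i, β i) :
    ∃ P : Polynomial ℝ, P.eval 0 = 0 ∧ 2 * P.natDegree + 2 ≤ ∑ i, β i ∧
      ∀ k : ℕ, 1 ≤ k → bs (mu0 m) β k = P.eval ((k : ℝ) ^ 2) := by
  rcases Nat.even_or_odd (∑ i, β i) with he | ho
  · obtain ⟨l, hl⟩ := he
    obtain ⟨i, rfl⟩ : ∃ i, l = i + 1 := ⟨l - 1, by omega⟩
    have hi : 1 ≤ i := by omega
    set M := ∑ j : Fin (m + 1), (1 + (-1) ^ (∑ i, β i)) * mon β (ej j : V m) with hM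
    refine ⟨Polynomial.C (2 / Real.pi ^ 2 * M) * Polynomial.X ^ i, ?_, ?_, fun k hk => ?_⟩
    · simp [show i ≠ 0 by omega]
    · have h4 := Polynomial.natDegree_C_mul_X_pow_le (2 / Real.pi ^ 2 * M) i
      omega
    · rw [ref_bs m β k hk, ← hM, hl]
      have hk0 : (0 : ℝ) < k := by exact_mod_cast hk
      simp only [Polynomial.eval_mul, Polynomial.eval_C, Polynomial.eval_pow, Polynomial.eval_X]
      have h5 : (k : ℝ) ^ (i + 1 + (i + 1)) = ((k : ℝ) ^ 2) ^ i * (k : ℝ) ^ 2 := by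
        rw [← pow_succ, ← pow_mul]
        congr 1
        ring
      rw [h5]
      field_simp
  · exact ⟨0, by simp, by simp; omega, fun k hk => by rw [ref_odd m β ho k hk]; simp⟩

theorem mon_pair {m : ℕ} (i l : Fin (m + 1)) (x : V m) :
    mon (Pi.single i 1 + Pi.single l 1) x = x i * x l := by
  rw [mon_succ, ← zero_add (Pi.single i 1), mon_succ, mon_zero, mul_one, mul_comm]

theorem mon_single {m : ℕ} (i : Fin (m + 1)) (x : V m) : mon (Pi.single i 1) x = x i := by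
  rw [← zero_add (Pi.single i 1), mon_succ, mon_zero, mul_one]

theorem ref_two (m : ℕ) (i l : Fin (m + 1)) (k : ℕ) :
    ∫ x, x i * x l ∂(mu0 m k) = if i = l then 4 / (Real.pi ^ 2 * ((k : ℝ) + 1) ^ 2) else 0 := by
  rw [mu0_int, smul_eq_mul]
  have h1 : ∀ j : Fin (m + 1), ((ej j : V m) i * (ej j : V m) l + (-ej j : V m) i * (-ej j : V m) l) =
      if j = i then (if i = l then 2 else 0) else 0 := by
    intro j
    rw [PiLp.neg_apply, PiLp.neg_apply, ej_apply, ej_apply]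
    by_cases h2 : j = i
    · subst h2
      by_cases h3 : j = l
      · subst h3
        norm_num
      · simp [h3, Ne.symm h3]
    · simp [Ne.symm h2, h2]
  simp only [h1]
  rw [sum_ite_eq' univ i, if_pos (mem_univ i)]
  by_cases h : i = l
  · rw [if_pos h, if_pos h]
    ring
  · rw [if_neg h, if_neg h, mul_zero]

end Pool.Agent.Q198.XM
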