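import Pool.Agent.Q198.XM.Phi

/-!
# Extremal measures for the Laplacian: sequences which are orthogonal to the functions `Phi q`
-/

set_option autoImplicit false
set_option linter.all false

namespace Pool.Agent.Q198.XM

open MeasureTheory Finset

/-- the alternating sum `∑_{k ≥ 1} (-1)^(k-1) b_k Φ_q(π k)` -/
noncomputable def Sq (q : ℕ) (b : ℕ → ℝ) : ℝ :=
  ∑' k : ℕ, (-1) ^ k * b (k + 1) * Phi q (Real.pi * (k + 1))

/-- growth of order `M` -/
def Gr (M : ℕ) (b : ℕ → ℝ) : Prop := ∃ C : ℝ, 0 ≤ C ∧ ∀ k : ℕ, 1 ≤ k → |b k| ≤ C * (k : ℝ) ^ M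

theorem Phi_nat (N q : ℕ) (hq : 2 * N ≤ q) (k : ℕ) :
    |Phi q (Real.pi * (k + 1))| ≤ 2 * (8 * (q : ℝ) ^ 2) ^ N / ((k : ℝ) + 1) ^ (2 * N) := by
  have h := Phi_decay N q hq (Real.pi * (k + 1))
  have hk : (0 : ℝ) < (k : ℝ) + 1 := by positivity
  rw [le_div_iff₀ (by positivity), mul_comm]
  refine le_trans (mul_le_mul_of_nonneg_right ?_ (abs_nonneg _)) h
  rw [← pow_mul]
  apply pow_le_pow_left₀ hk.le
  nlinarith [Real.pi_gt_three]

theorem summable_sq : Summable (fun k : ℕ => 1 / ((k : ℝ) + 1) ^ 2) := by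
  have h := (summable_nat_add_iff 1).2 (Real.summable_one_div_nat_pow.2 (show 1 < 2 by norm_num))
  refine h.congr fun k => ?_
  push_cast
  rfl

theorem Sq_summable {M q : ℕ} {b : ℕ → ℝ} (hb : Gr M b) (hq : M + 3 ≤ q) :
    Summable (fun k : ℕ => (-1) ^ k * b (k + 1) * Phi q (Real.pi * (k + 1))) := by
  obtain ⟨C, hC0, hC⟩ := hb
  obtain ⟨N, hN1, hN2⟩ : ∃ N, 2 * N ≤ q ∧ M + 2 ≤ 2 * N := ⟨q / 2, by omega, by omega⟩
  have hs := summable_sq.mul_left (C * (2 * (8 * (q : ℝ) ^ 2) ^ N))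
  refine Summable.of_norm_bounded hs fun k => ?_
  have h1 := hC (k + 1) (by omega)
  have h2 := Phi_nat N q hN1 k
  have hk : (1 : ℝ) ≤ (k : ℝ) + 1 := by
    have : (0 : ℝ) ≤ k := Nat.cast_nonneg k
    linarith
  rw [Real.norm_eq_abs, abs_mul, abs_mul, abs_pow, abs_neg, abs_one, one_pow, one_mul]
  calc |b (k + 1)| * |Phi q (Real.pi * (k + 1))|
      ≤ (C * ((k + 1 : ℕ) : ℝ) ^ M) * (2 * (8 * (q : ℝ) ^ 2) ^ N / ((k : ℝ) + 1) ^ (2 * N)) :=
        mul_le_mul h1 h2 (abs_nonneg _) (by positivity)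
    _ = C * (2 * (8 * (q : ℝ) ^ 2) ^ N) * (((k : ℝ) + 1) ^ M / ((k : ℝ) + 1) ^ (2 * N)) := by
        push_cast
        ring
    _ ≤ C * (2 * (8 * (q : ℝ) ^ 2) ^ N) * (1 / ((k : ℝ) + 1) ^ 2) := by
        refine mul_le_mul_of_nonneg_left ?_ (by positivity)
        rw [div_le_div_iff₀ (by positivity) (by positivity), one_mul, ← pow_add]
        exact pow_le_pow_right₀ hk hN2

theorem Gr.mono {M M' : ℕ} {b : ℕ → ℝ} (h : Gr M b) (hM : M ≤ M') : Gr M' b := by
  obtain ⟨C, hC0, hC⟩ := h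
  refine ⟨C, hC0, fun k hk => (hC k hk).trans (mul_le_mul_of_nonneg_left ?_ hC0)⟩
  have : (1 : ℝ) ≤ k := by exact_mod_cast hk
  exact pow_le_pow_right₀ this hM

theorem Gr.sub {M : ℕ} {b b' : ℕ → ℝ} (h : Gr M b) (h' : Gr M b') : Gr M (fun k => b k - b' k) := by
  obtain ⟨C, hC0, hC⟩ := h
  obtain ⟨C', hC0', hC'⟩ := h'
  refine ⟨C + C', by linarith, fun k hk => ?_⟩
  calc |b k - b' k| ≤ |b k| + |b' k| := abs_sub _ _
    _ ≤ _ := by rw [add_mul]; exact add_le_add (hC k hk) (hC' k hk)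

theorem Gr.const (M : ℕ) (c : ℝ) : Gr M (fun _ => c) := by
  refine ⟨|c|, abs_nonneg c, fun k hk => ?_⟩
  have : (1 : ℝ) ≤ (k : ℝ) ^ M := one_le_pow₀ (by exact_mod_cast hk)
  nlinarith [abs_nonneg c]

theorem Gr.mul_sq {M : ℕ} {b b' : ℕ → ℝ} (h : Gr M b') (hb : ∀ k, 1 ≤ k → b k = (k : ℝ) ^ 2 * b' k) :
    Gr (M + 2) b := by
  obtain ⟨C, hC0, hC⟩ := h
  refine ⟨C, hC0, fun k hk => ?_⟩
  rw [hb k hk, abs_mul, abs_of_nonneg (by positivity), pow_add]
  nlinarith [hC k hk, sq_nonneg (k : ℝ), mul_le_mul_of_nonneg_left (hC k hk) (sq_nonneg (k : ℝ))]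

/-- the recursion for the alternating sums -/
theorem Sq_rel {M : ℕ} {b b' : ℕ → ℝ} (h' : Gr M b') (hb : ∀ k, 1 ≤ k → b k = (k : ℝ) ^ 2 * b' k)
    (j : ℕ) (hj : M + 3 ≤ j) : Real.pi ^ 2 * Sq (j + 2) b =
      2 * (j + 2) * (2 * j + 3) * Sq (j + 1) b' - 4 * (j + 1) * (j + 2) * Sq j b' := by
  have s1 := Sq_summable (q := j + 1) h' (by omega)
  have s0 := Sq_summable (q := j) h' hj
  unfold Sq
  rw [← tsum_mul_left, ← tsum_mul_left, ← tsum_mul_left, ← (s1.mul_left _).tsum_sub (s0.mul_left _)]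
  refine tsum_congr fun k => ?_
  have h1 := Phi_rec j (Real.pi * (k + 1))
  have h2 := hb (k + 1) (by omega)
  rw [h2]
  push_cast
  calc Real.pi ^ 2 * ((-1) ^ k * (((k : ℝ) + 1) ^ 2 * b' (k + 1)) * Phi (j + 2) (Real.pi * (k + 1)))
      = (-1) ^ k * b' (k + 1) * ((Real.pi * (k + 1)) ^ 2 * Phi (j + 2) (Real.pi * (k + 1))) := by ring
    _ = _ := by rw [h1]; ring

/-- the cosine series -/
noncomputable def cs (b : ℕ → ℝ) (s : ℝ) : ℝ := ∑' k : ℕ, (-1) ^ k * b (k + 1) * Real.cos (Real.pi * (k + 1) * s)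

theorem cs_bound (b : ℕ → ℝ) (k : ℕ) (s : ℝ) :
    ‖(-1) ^ k * b (k + 1) * Real.cos (Real.pi * (k + 1) * s)‖ ≤ |b (k + 1)| := by
  rw [Real.norm_eq_abs, abs_mul, abs_mul, abs_pow, abs_neg, abs_one, one_pow, one_mul]
  exact mul_le_of_le_one_right (abs_nonneg _) (Real.abs_cos_le_one _)

theorem cs_cont {b : ℕ → ℝ} (hb : Summable (fun k : ℕ => |b (k + 1)|)) : Continuous (cs b) := by
  refine continuous_tsum (fun k => by fun_prop) hb fun k s => cs_bound b k s

theorem cs_even (b : ℕ → ℝ) (s : ℝ) : cs b (-s) = cs b s := by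
  unfold cs
  refine tsum_congr fun k => ?_
  rw [mul_neg, Real.cos_neg]

theorem cs_hasSum {b : ℕ → ℝ} (hb : Summable (fun k : ℕ => |b (k + 1)|)) (s : ℝ) :
    HasSum (fun k : ℕ => (-1) ^ k * b (k + 1) * Real.cos (Real.pi * (k + 1) * s)) (cs b s) :=
  (Summable.of_norm_bounded hb fun k => cs_bound b k s).hasSum

theorem cs_integral {b : ℕ → ℝ} (hb : Summable (fun k : ℕ => |b (k + 1)|)) (u : ℝ → ℝ) (hu : Continuous u)
    (hu1 : ∀ s, -1 ≤ s → s ≤ 1 → |u s| ≤ 1) :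
    HasSum (fun k : ℕ => (-1) ^ k * b (k + 1) * ∫ s in (-1 : ℝ)..1, Real.cos (Real.pi * (k + 1) * s) * u s)
      (∫ s in (-1 : ℝ)..1, cs b s * u s) := by
  have h := intervalIntegral.hasSum_integral_of_dominated_convergence (μ := volume) (a := -1) (b := 1)
    (F := fun (k : ℕ) (s : ℝ) => ((-1) ^ k * b (k + 1) * Real.cos (Real.pi * (k + 1) * s)) * u s)
    (f := fun s => cs b s * u s) (fun k _ => |b (k + 1)|)
    (fun k => (by fun_prop : Continuous fun s : ℝ =>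
      ((-1) ^ k * b (k + 1) * Real.cos (Real.pi * (k + 1) * s)) * u s).aestronglyMeasurable)
    (fun k => Filter.Eventually.of_forall fun s hs => by
      rw [Set.uIoc_of_le (by norm_num)] at hs
      rw [norm_mul, Real.norm_eq_abs (u s)]
      calc _ ≤ |b (k + 1)| * 1 := mul_le_mul (cs_bound b k s) (hu1 s hs.1.le hs.2) (abs_nonneg _) (abs_nonneg _)
        _ = _ := mul_one _)
    (Filter.Eventually.of_forall fun s _ => hb) (by simp)
    (Filter.Eventually.of_forall fun s _ => (cs_hasSum hb s).mul_right (u s))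
  refine h.congr_fun fun k => ?_
  rw [← intervalIntegral.integral_const_mul]
  congr 1
  funext s
  ring

theorem abs_pow_le (q : ℕ) (s : ℝ) (h1 : -1 ≤ s) (h2 : s ≤ 1) : |(1 - s ^ 2) ^ q| ≤ 1 := by
  rw [abs_pow]
  refine pow_le_one₀ (abs_nonneg _) ?_
  rw [abs_le]
  constructor <;> nlinarith

theorem Sq_eq_integral {b : ℕ → ℝ} (hb : Summable (fun k : ℕ => |b (k + 1)|)) (q : ℕ) :
    Sq q b = ∫ s in (-1 : ℝ)..1, cs b s * (1 - s ^ 2) ^ q :=
  (cs_integral hb (fun s => (1 - s ^ 2) ^ q) (by fun_prop) fun s => abs_pow_le q s).tsum_eq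

/-- an even continuous function orthogonal to the functions `(1 - s²)^q`, `q ≥ q₀`, is zero on `[-1, 1]` -/
theorem even_zero (g : ℝ → ℝ) (hg : Continuous g) (heven : ∀ s, g (-s) = g s) (q₀ : ℕ)
    (h : ∀ q, q₀ ≤ q → ∫ s in (-1 : ℝ)..1, g s * (1 - s ^ 2) ^ q = 0) : ∀ s ∈ Set.Icc (-1 : ℝ) 1, g s = 0 := by
  set f : ℝ → ℝ := fun s => g s * (1 - s ^ 2) ^ q₀ with hf
  have hfc : Continuous f := by fun_prop
  have hfe : ∀ s, f |s| = f s := by
    intro s
    rcases abs_choice s with h1 | h1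
    · rw [h1]
    · simp only [hf]
      rw [h1, heven, neg_sq]
  -- orthogonality to the even polynomials
  have horth : ∀ p : Polynomial ℝ, ∫ s in (-1 : ℝ)..1, f s * p.eval (s ^ 2) = 0 := by
    intro p
    have hcomp : ∀ s : ℝ, p.eval (s ^ 2) = (p.comp (1 - Polynomial.X)).eval (1 - s ^ 2) := by
      intro s
      rw [Polynomial.eval_comp]
      congr 1
      simp
    have h1 : ∀ s : ℝ, f s * p.eval (s ^ 2) = ∑ i ∈ range ((p.comp (1 - Polynomial.X)).natDegree + 1),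
        (p.comp (1 - Polynomial.X)).coeff i * (g s * (1 - s ^ 2) ^ (q₀ + i)) := by
      intro s
      rw [hcomp, Polynomial.eval_eq_sum_range, mul_sum]
      refine sum_congr rfl fun i _ => ?_
      simp only [hf]
      rw [pow_add]
      ring
    simp only [h1]
    rw [intervalIntegral.integral_finset_sum]
    · refine sum_eq_zero fun i _ => ?_
      rw [intervalIntegral.integral_const_mul, h _ (by omega), mul_zero]
    · intro i _
      apply Continuous.intervalIntegrable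
      fun_prop
  have hsq : ∫ s in (-1 : ℝ)..1, f s ^ 2 = 0 := by
    obtain ⟨B, hB⟩ : ∃ B, ∀ s ∈ Set.Icc (-1 : ℝ) 1, |f s| ≤ B := by
      obtain ⟨B, hB⟩ := (isCompact_Icc (a := (-1 : ℝ)) (b := 1)).exists_bound_of_continuousOn hfc.continuousOn
      exact ⟨B, hB⟩
    have hB0 : 0 ≤ B := (abs_nonneg _).trans (hB 0 ⟨by norm_num, by norm_num⟩)
    have hge : 0 ≤ ∫ s in (-1 : ℝ)..1, f s ^ 2 :=
      intervalIntegral.integral_nonneg (by norm_num) fun s _ => sq_nonneg _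
    refine le_antisymm (le_of_forall_pos_le_add fun ε hε => ?_) hge
    rw [zero_add]
    obtain ⟨p, hp⟩ := exists_polynomial_near_of_continuousOn 0 1 (fun u => f (Real.sqrt u))
      (hfc.comp Real.continuous_sqrt).continuousOn (ε / (2 * (B + 1))) (by positivity)
    have h1 : ∫ s in (-1 : ℝ)..1, f s ^ 2 = ∫ s in (-1 : ℝ)..1, f s * (f s - p.eval (s ^ 2)) := by
      have h2 : ∀ s : ℝ, f s * (f s - p.eval (s ^ 2)) = f s ^ 2 - f s * p.eval (s ^ 2) := fun s => by ring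
      simp only [h2]
      rw [intervalIntegral.integral_sub, horth, sub_zero]
      · apply Continuous.intervalIntegrable
        fun_prop
      · apply Continuous.intervalIntegrable
        fun_prop
    rw [h1]
    have h3 := intervalIntegral.norm_integral_le_of_norm_le_const (a := (-1 : ℝ)) (b := 1)
      (C := B * (ε / (2 * (B + 1)))) (f := fun s : ℝ => f s * (f s - p.eval (s ^ 2))) (fun s hs => by
        rw [Set.uIoc_of_le (by norm_num)] at hs
        have hs' : s ∈ Set.Icc (-1 : ℝ) 1 := ⟨hs.1.le, hs.2⟩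
        rw [norm_mul]
        refine mul_le_mul (hB s hs') ?_ (norm_nonneg _) hB0
        have h4 := hp (s ^ 2) ⟨sq_nonneg s, by nlinarith [hs.1, hs.2]⟩
        rw [Real.sqrt_sq_eq_abs, hfe] at h4
        rw [Real.norm_eq_abs, abs_sub_comm]
        exact h4.le)
    refine (Real.le_norm_self _).trans (h3.trans ?_)
    have e : B * (ε / (2 * (B + 1))) * |1 - -1| = ε * (B / (B + 1)) := by
      have : |(1 : ℝ) - -1| = 2 := by norm_num
      rw [this]
      field_simp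
    rw [e]
    have h5 : B / (B + 1) ≤ 1 := by
      rw [div_le_one (by linarith)]
      linarith
    nlinarith
  have hf0 : ∀ s ∈ Set.Icc (-1 : ℝ) 1, f s = 0 := by
    intro s hs
    by_contra hne
    have := intervalIntegral.integral_pos (a := (-1 : ℝ)) (b := 1) (f := fun s => f s ^ 2) (by norm_num)
      (by fun_prop) (fun s _ => sq_nonneg _) ⟨s, hs, by positivity⟩
    linarith
  have hg0 : Set.EqOn g (fun _ => 0) (Set.Ioo (-1 : ℝ) 1) := by
    intro s hs
    have h1 := hf0 s ⟨hs.1.le, hs.2.le⟩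
    simp only [hf] at h1
    rcases mul_eq_zero.1 h1 with h2 | h2
    · exact h2
    · exfalso
      have h3 : 0 < 1 - s ^ 2 := by nlinarith [hs.1, hs.2]
      exact (pow_pos h3 _).ne' h2
  have hcl := hg0.closure hg continuous_const
  rw [closure_Ioo (by norm_num)] at hcl
  exact hcl

theorem int_cos (m : ℤ) (hm : m ≠ 0) : ∫ s in (-1 : ℝ)..1, Real.cos (Real.pi * m * s) = 0 := by
  have hm' : (m : ℝ) ≠ 0 := by exact_mod_cast hm
  have hc : Real.pi * (m : ℝ) ≠ 0 := mul_ne_zero Real.pi_ne_zero hm'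
  have h : ∀ s : ℝ, HasDerivAt (fun s : ℝ => Real.sin (Real.pi * m * s) / (Real.pi * m))
      (Real.cos (Real.pi * m * s)) s := by
    intro s
    have hr : HasDerivAt (fun s : ℝ => Real.pi * m * s) (Real.pi * m) s := by
      simpa using (hasDerivAt_id s).const_mul (Real.pi * m)
    refine (hr.sin.div_const _).congr_deriv ?_
    field_simp
  rw [intervalIntegral.integral_eq_sub_of_hasDerivAt (fun s _ => h s)
    (by apply Continuous.intervalIntegrable; fun_prop)]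
  have h1 : Real.sin (Real.pi * m * 1) = 0 := by
    rw [mul_one, mul_comm]
    exact Real.sin_int_mul_pi m
  have h2 : Real.sin (Real.pi * m * -1) = 0 := by
    rw [mul_neg, mul_one, Real.sin_neg, mul_comm, Real.sin_int_mul_pi, neg_zero]
  rw [h1, h2]
  simp

theorem int_cos_cos (k l : ℕ) : ∫ s in (-1 : ℝ)..1, Real.cos (Real.pi * (k + 1) * s) * Real.cos (Real.pi * (l + 1) * s) =
    if k = l then 1 else 0 := by
  have h : ∀ s : ℝ, Real.cos (Real.pi * (k + 1) * s) * Real.cos (Real.pi * (l + 1) * s) =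
      (1 / 2) * Real.cos (Real.pi * ((k : ℤ) - (l : ℤ) : ℤ) * s) +
      (1 / 2) * Real.cos (Real.pi * ((k : ℤ) + (l : ℤ) + 2 : ℤ) * s) := by
    intro s
    push_cast
    have e1 : Real.pi * ((k : ℝ) - l) * s = Real.pi * (k + 1) * s - Real.pi * (l + 1) * s := by ring
    have e2 : Real.pi * ((k : ℝ) + l + 2) * s = Real.pi * (k + 1) * s + Real.pi * (l + 1) * s := by ring
    rw [e1, e2, Real.cos_sub, Real.cos_add]
    ring
  simp only [h]
  rw [intervalIntegral.integral_add (by apply Continuous.intervalIntegrable; fun_prop)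
    (by apply Continuous.intervalIntegrable; fun_prop), intervalIntegral.integral_const_mul,
    intervalIntegral.integral_const_mul, int_cos _ (by omega : (k : ℤ) + (l : ℤ) + 2 ≠ 0)]
  split_ifs with hkl
  · rw [hkl]
    simp
    norm_num
  · rw [int_cos _ (by omega : (k : ℤ) - (l : ℤ) ≠ 0)]
    norm_num

/-- a summable sequence whose cosine series is constant is zero -/
theorem zero_of_const {b : ℕ → ℝ} (hb : Summable (fun k : ℕ => |b (k + 1)|)) (C : ℝ)
    (h : ∀ s ∈ Set.Icc (-1 : ℝ) 1, cs b s = C) : ∀ k, 1 ≤ k → b k = 0 := by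
  intro k hk
  obtain ⟨l, rfl⟩ := Nat.exists_eq_add_of_le' hk
  have h1 := (cs_integral hb (fun s => Real.cos (Real.pi * (l + 1) * s)) (by fun_prop)
    fun s _ _ => Real.abs_cos_le_one _).tsum_eq
  simp only [int_cos_cos] at h1
  rw [tsum_eq_single l (fun k hk => by rw [if_neg hk, mul_zero]), if_pos rfl] at h1
  have h2 : ∫ s in (-1 : ℝ)..1, cs b s * Real.cos (Real.pi * (l + 1) * s) = 0 := by
    have h3 : ∫ s in (-1 : ℝ)..1, cs b s * Real.cos (Real.pi * (l + 1) * s) =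
        ∫ s in (-1 : ℝ)..1, C * Real.cos (Real.pi * ((l : ℤ) + 1 : ℤ) * s) := by
      refine intervalIntegral.integral_congr fun s hs => ?_
      rw [Set.uIcc_of_le (by norm_num)] at hs
      simp only [h s hs]
      push_cast
      rfl
    rw [h3, intervalIntegral.integral_const_mul, int_cos _ (by omega), mul_zero]
  rw [h2, mul_one] at h1
  have h3 : ((-1 : ℝ)) ^ l ≠ 0 := pow_ne_zero _ (by norm_num)
  exact (mul_eq_zero.1 h1).resolve_left h3

/-- sequences with the same recursion as `Phi j 0` -/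
theorem ratio (A : ℕ → ℝ) (j₁ : ℕ) (h : ∀ j, j₁ ≤ j → (2 * (j : ℝ) + 3) * A (j + 1) = 2 * (j + 1) * A j) :
    ∃ C : ℝ, ∀ j, j₁ ≤ j → A j = C * Phi j 0 := by
  refine ⟨A j₁ / Phi j₁ 0, fun j hj => ?_⟩
  induction j, hj using Nat.le_induction with
  | base => rw [div_mul_cancel₀ _ (Phi_zero_pos _).ne']
  | succ j hj ih =>
    have h1 := h j hj
    have h2 := Phi_zero_rec j
    have h3 : (0 : ℝ) < 2 * j + 3 := by positivity
    apply mul_left_cancel₀ h3.ne'
    rw [h1, ih]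
    calc 2 * ((j : ℝ) + 1) * (A j₁ / Phi j₁ 0 * Phi j 0) = (A j₁ / Phi j₁ 0) * (2 * (j + 1) * Phi j 0) := by ring
      _ = _ := by rw [← h2]; ring

theorem ratio_Sq {M : ℕ} {b b' : ℕ → ℝ} (h' : Gr M b') (hb : ∀ k, 1 ≤ k → b k = (k : ℝ) ^ 2 * b' k)
    (q₀ : ℕ) (h0 : ∀ q, q₀ ≤ q → Sq q b = 0) : ∃ (C : ℝ) (j₁ : ℕ), ∀ j, j₁ ≤ j → Sq j b' = C * Phi j 0 := by
  obtain ⟨C, hC⟩ := ratio (fun j => Sq j b') (max q₀ (M + 3)) (fun j hj => by
    have h1 := Sq_rel h' hb j ((le_max_right _ _).trans hj)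
    rw [h0 (j + 2) (by have := (le_max_left q₀ (M + 3)).trans hj; omega), mul_zero] at h1
    have h2 : (0 : ℝ) < j + 2 := by positivity
    have h3 : (2 * ((j : ℝ) + 2)) * ((2 * j + 3) * Sq (j + 1) b') = (2 * ((j : ℝ) + 2)) * (2 * (j + 1) * Sq j b') := by
      linarith
    exact mul_left_cancel₀ (by positivity) h3)
  exact ⟨C, _, hC⟩

/-- bounded sequences orthogonal to all `Phi q` are zero -/
theorem bounded_zero {b : ℕ → ℝ} (hb : Gr 0 b) (q₀ : ℕ) (h0 : ∀ q, q₀ ≤ q → Sq q b = 0) :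
    ∀ k, 1 ≤ k → b k = 0 := by
  set b' : ℕ → ℝ := fun k => b k / (k : ℝ) ^ 2 with hb'
  have hbb : ∀ k, 1 ≤ k → b k = (k : ℝ) ^ 2 * b' k := by
    intro k hk
    have : (k : ℝ) ≠ 0 := by
      have : k ≠ 0 := by omega
      exact_mod_cast this
    simp only [hb']
    field_simp
  obtain ⟨C, hC0, hC⟩ := hb
  have hle : ∀ k, 1 ≤ k → |b' k| ≤ C / (k : ℝ) ^ 2 := by
    intro k hk
    simp only [hb']
    rw [abs_div, abs_of_nonneg (sq_nonneg (k : ℝ))]
    have := hC k hk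
    rw [pow_zero, mul_one] at this
    exact div_le_div_of_nonneg_right this (sq_nonneg _)
  have hgr : Gr 0 b' := by
    refine ⟨C, hC0, fun k hk => (hle k hk).trans ?_⟩
    rw [pow_zero, mul_one]
    have : (1 : ℝ) ≤ (k : ℝ) ^ 2 := one_le_pow₀ (by exact_mod_cast hk)
    exact div_le_self hC0 this
  have hsum : Summable (fun k : ℕ => |b' (k + 1)|) := by
    refine Summable.of_nonneg_of_le (fun k => abs_nonneg _) (fun k => hle (k + 1) (by omega)) ?_
    refine (summable_sq.mul_left C).congr fun k => ?_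
    push_cast
    rw [mul_one_div]
  obtain ⟨c, j₁, hc⟩ := ratio_Sq hgr hbb q₀ h0
  have hzero := even_zero (fun s => cs b' s - c) ((cs_cont hsum).sub continuous_const)
    (fun s => by simp only [cs_even]) j₁ (fun q hq => by
      have h1 : ∀ s : ℝ, (cs b' s - c) * (1 - s ^ 2) ^ q = cs b' s * (1 - s ^ 2) ^ q -
          c * (Real.cos (0 * s) * (1 - s ^ 2) ^ q) := by
        intro s
        rw [zero_mul, Real.cos_zero]
        ring
      simp only [h1]
      have hcc := cs_cont hsum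
      rw [intervalIntegral.integral_sub (by apply Continuous.intervalIntegrable; fun_prop)
        (by apply Continuous.intervalIntegrable; fun_prop), intervalIntegral.integral_const_mul,
        ← Sq_eq_integral hsum, hc q hq]
      exact sub_self _)
  have h2 := zero_of_const hsum c (fun s hs => sub_eq_zero.1 (hzero s hs))
  intro k hk
  rw [hbb k hk, h2 k hk, mul_zero]

/-- the Fourier series of the second Bernoulli polynomial -/
theorem bern_two (s : ℝ) (h1 : -1 ≤ s) (h2 : s ≤ 1) :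
    HasSum (fun k : ℕ => (-1) ^ k * (1 / ((k : ℝ) + 1) ^ 2) * Real.cos (Real.pi * (k + 1) * s))
      (Real.pi ^ 2 * ((1 - s ^ 2) / 4 - 1 / 6)) := by
  have h := hasSum_one_div_nat_pow_mul_cos (k := 1) one_ne_zero (x := (1 + s) / 2)
    ⟨by linarith, by linarith⟩
  have hpoly : (Polynomial.map (algebraMap ℚ ℝ) (Polynomial.bernoulli (2 * 1))).eval ((1 + s) / 2) =
      ((1 + s) / 2) ^ 2 - (1 + s) / 2 + 1 / 6 := by
    rw [Polynomial.bernoulli]
    simp [Finset.sum_range_succ, Polynomial.eval_add, bernoulli_one, bernoulli_two]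
    ring
  rw [hpoly] at h
  have h3 := (hasSum_nat_add_iff' 1).2 h
  simp only [Finset.sum_range_one, Nat.cast_zero] at h3
  have e0 : (1 : ℝ) / 0 ^ (2 * 1) * Real.cos (2 * Real.pi * 0 * ((1 + s) / 2)) = 0 := by norm_num
  rw [e0, sub_zero] at h3
  have h4 := h3.mul_left (-1)
  have e1 : (-1 : ℝ) * ((-1) ^ (1 + 1) * (2 * Real.pi) ^ (2 * 1) / 2 / ((2 * 1).factorial : ℝ) *
      (((1 + s) / 2) ^ 2 - (1 + s) / 2 + 1 / 6)) = Real.pi ^ 2 * ((1 - s ^ 2) / 4 - 1 / 6) := by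
    norm_num [Nat.factorial]
    ring
  rw [e1] at h4
  refine h4.congr_fun fun k => ?_
  have e2 : 2 * Real.pi * ((k + 1 : ℕ) : ℝ) * ((1 + s) / 2) = Real.pi * (k + 1) * s + ((k + 1 : ℕ) : ℝ) * Real.pi := by
    push_cast
    ring
  rw [e2, Real.cos_add_nat_mul_pi]
  push_cast
  ring

theorem sum_inv_sq_gr : Gr 0 (fun k : ℕ => 1 / (k : ℝ) ^ 2) := by
  refine ⟨1, by norm_num, fun k hk => ?_⟩
  have : (1 : ℝ) ≤ (k : ℝ) ^ 2 := one_le_pow₀ (by exact_mod_cast hk)
  rw [abs_of_nonneg (by positivity), pow_zero, mul_one, div_le_one (by linarith)]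
  exact this

theorem Sq_inv_sq (q : ℕ) : Sq q (fun k : ℕ => 1 / (k : ℝ) ^ 2) = Real.pi ^ 2 * (Phi (q + 1) 0 / 4 - Phi q 0 / 6) := by
  have hsum : Summable (fun k : ℕ => |1 / ((k + 1 : ℕ) : ℝ) ^ 2|) := by
    refine summable_sq.congr fun k => ?_
    rw [abs_of_nonneg (by positivity)]
    push_cast
    rfl
  rw [Sq_eq_integral (b := fun k : ℕ => 1 / (k : ℝ) ^ 2) hsum]
  have h1 : ∫ s in (-1 : ℝ)..1, cs (fun k : ℕ => 1 / (k : ℝ) ^ 2) s * (1 - s ^ 2) ^ q =
      ∫ s in (-1 : ℝ)..1, (Real.pi ^ 2 / 4 * (Real.cos (0 * s) * (1 - s ^ 2) ^ (q + 1)) -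
        Real.pi ^ 2 / 6 * (Real.cos (0 * s) * (1 - s ^ 2) ^ q)) := by
    refine intervalIntegral.integral_congr fun s hs => ?_
    rw [Set.uIcc_of_le (by norm_num)] at hs
    have h2 : cs (fun k : ℕ => 1 / (k : ℝ) ^ 2) s = Real.pi ^ 2 * ((1 - s ^ 2) / 4 - 1 / 6) := by
      have h3 := (bern_two s hs.1 hs.2).tsum_eq
      rw [← h3, cs]
      refine tsum_congr fun k => ?_
      have : ((k + 1 : ℕ) : ℝ) = (k : ℝ) + 1 := by push_cast; ring
      simp only [this]
    have h4 : ∀ x : ℝ, cs (fun k : ℕ => 1 / (k : ℝ) ^ 2) s = x → cs (fun k : ℕ => 1 / (k : ℝ) ^ 2) s * (1 - s ^ 2) ^ q =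
        x * (1 - s ^ 2) ^ q := fun x hx => by rw [hx]
    refine (h4 _ h2).trans ?_
    rw [zero_mul, Real.cos_zero, pow_succ]
    ring
  have i1 := (Phi_int (q + 1) 0).const_mul (Real.pi ^ 2 / 4)
  have i0 := (Phi_int q 0).const_mul (Real.pi ^ 2 / 6)
  have e1 : (∫ s in (-1 : ℝ)..1, Real.cos (0 * s) * (1 - s ^ 2) ^ (q + 1)) = Phi (q + 1) 0 := rfl
  have e0 : (∫ s in (-1 : ℝ)..1, Real.cos (0 * s) * (1 - s ^ 2) ^ q) = Phi q 0 := rfl
  rw [h1, intervalIntegral.integral_sub i1 i0,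
    intervalIntegral.integral_const_mul, intervalIntegral.integral_const_mul, e1, e0]
  ring

theorem Sq_one (q : ℕ) (hq : 5 ≤ q) : Sq q (fun _ => 1) = Phi q 0 / 2 := by
  obtain ⟨j, rfl⟩ := Nat.exists_eq_add_of_le' (show 2 ≤ q by omega)
  have h := Sq_rel (b := fun _ => (1 : ℝ)) sum_inv_sq_gr (fun k hk => by
    have : (k : ℝ) ≠ 0 := by
      have : k ≠ 0 := by omega
      exact_mod_cast this
    field_simp) j (by omega)
  rw [Sq_inv_sq, Sq_inv_sq] at h
  have r0 := Phi_zero_rec j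
  have r1 := Phi_zero_rec (j + 1)
  push_cast at r1
  have hpi : (0 : ℝ) < Real.pi ^ 2 := by positivity
  apply mul_left_cancel₀ hpi.ne'
  rw [h]
  have r1' : (2 * (j : ℝ) + 5) * Phi (j + 2) 0 = 2 * (j + 2) * Phi (j + 1) 0 := by
    rw [show j + 1 + 1 = j + 2 by omega] at r1
    linarith
  rw [show j + 1 + 1 = j + 2 by omega]
  linear_combination (-(Real.pi ^ 2) * (j + 2) / 3) * r0 + (Real.pi ^ 2 * (j + 1) / 2) * r1'

end Pool.Agent.Q198.XM
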