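import Pool.Agent.Q198.XM.Seq

/-!
# Extremal measures for the Laplacian: the sequences orthogonal to all `Phi q` are polynomials
-/

set_option autoImplicit false
set_option linter.all false

namespace Pool.Agent.Q198.XM

open MeasureTheory Finset

theorem Sq_sub_const {M : ℕ} {b : ℕ → ℝ} (hb : Gr M b) (c : ℝ) (q : ℕ) (hq : M + 3 ≤ q) (hq5 : 5 ≤ q) :
    Sq q (fun k => b k - c) = Sq q b - c * (Phi q 0 / 2) := by
  have s1 := Sq_summable hb hq
  have s2 := Sq_summable (q := q) (Gr.const 0 1) (by omega)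
  rw [← Sq_one q hq5]
  unfold Sq
  rw [← tsum_mul_left, ← s1.tsum_sub (s2.mul_left c)]
  refine tsum_congr fun k => ?_
  ring

/-- the reduction step -/
theorem reduce {M : ℕ} {b : ℕ → ℝ} (hb : Gr M (fun k => b k / (k : ℝ) ^ 2)) (q₀ : ℕ) (h0 : ∀ q, q₀ ≤ q → Sq q b = 0) :
    ∃ (c : ℝ) (q₁ : ℕ), Gr M (fun k => b k / (k : ℝ) ^ 2 - c) ∧
      ∀ q, q₁ ≤ q → Sq q (fun k => b k / (k : ℝ) ^ 2 - c) = 0 := by
  obtain ⟨C, j₁, hC⟩ := ratio_Sq hb (fun k hk => by
    have : (k : ℝ) ≠ 0 := by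
      have : k ≠ 0 := by omega
      exact_mod_cast this
    field_simp) q₀ h0
  refine ⟨2 * C, max j₁ (M + 5), hb.sub (Gr.const M _), fun q hq => ?_⟩
  rw [Sq_sub_const hb (2 * C) q (by have := (le_max_right j₁ (M + 5)).trans hq; omega)
    (by have := (le_max_right j₁ (M + 5)).trans hq; omega), hC q ((le_max_left _ _).trans hq)]
  ring

theorem Gr_div {M : ℕ} {b : ℕ → ℝ} (hb : Gr (M + 2) b) : Gr M (fun k => b k / (k : ℝ) ^ 2) := by
  obtain ⟨C, hC0, hC⟩ := hb
  refine ⟨C, hC0, fun k hk => ?_⟩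
  have hk0 : (0 : ℝ) < k := by exact_mod_cast hk
  rw [abs_div, abs_of_nonneg (sq_nonneg (k : ℝ)), div_le_iff₀ (by positivity), mul_assoc, ← pow_add]
  exact hC k hk

/-- sequences of polynomial growth which are orthogonal to all `Phi q` are even polynomials without constant term -/
theorem poly_of_orth (j : ℕ) : ∀ b : ℕ → ℝ, Gr (2 * j + 1) b → ∀ q₀ : ℕ, (∀ q, q₀ ≤ q → Sq q b = 0) →
    ∃ P : Polynomial ℝ, P.natDegree ≤ j ∧ P.eval 0 = 0 ∧ ∀ k : ℕ, 1 ≤ k → b k = P.eval ((k : ℝ) ^ 2) := by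
  induction j with
  | zero =>
    intro b hb q₀ h0
    have hgr : Gr 0 (fun k => b k / (k : ℝ) ^ 2) := Gr_div (hb.mono (by norm_num))
    obtain ⟨c, q₁, hg, hc⟩ := reduce hgr q₀ h0
    have hz := bounded_zero hg q₁ hc
    have hbk : ∀ k, 1 ≤ k → b k = c * (k : ℝ) ^ 2 := by
      intro k hk
      have hk0 : (0 : ℝ) < k := by exact_mod_cast hk
      have h1 := sub_eq_zero.1 (hz k hk)
      rw [div_eq_iff (by positivity)] at h1
      exact h1
    have hc0 : c = 0 := by
      obtain ⟨C, hC0, hC⟩ := hb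
      by_contra hne
      have hcp : 0 < |c| := abs_pos.2 hne
      obtain ⟨k, hk⟩ := exists_nat_gt (C / |c|)
      have hk1 : 1 ≤ k := by
        by_contra h
        have : k = 0 := by omega
        rw [this] at hk
        have : 0 ≤ C / |c| := by positivity
        push_cast at hk
        linarith
      have h1 := hC k hk1
      rw [hbk k hk1, abs_mul, abs_of_nonneg (sq_nonneg (k : ℝ))] at h1
      have hk0 : (0 : ℝ) < k := by exact_mod_cast hk1
      rw [div_lt_iff₀ hcp] at hk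
      have h2 : |c| * (k : ℝ) ^ 2 = (k * |c|) * k := by ring
      have h3 : C * (k : ℝ) ^ (2 * 0 + 1) = C * k := by norm_num
      rw [h2, h3] at h1
      have := le_of_mul_le_mul_right h1 hk0
      linarith
    refine ⟨0, by simp, by simp, fun k hk => ?_⟩
    rw [hbk k hk, hc0]
    simp
  | succ j ih =>
    intro b hb q₀ h0
    have hgr : Gr (2 * j + 1) (fun k => b k / (k : ℝ) ^ 2) := Gr_div (by
      have : 2 * (j + 1) + 1 = 2 * j + 1 + 2 := by omega
      rwa [this] at hb)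
    obtain ⟨c, q₁, hg, hc⟩ := reduce hgr q₀ h0
    obtain ⟨P, hP1, hP2, hP3⟩ := ih _ hg q₁ hc
    refine ⟨Polynomial.X * (P + Polynomial.C c), ?_, by simp, fun k hk => ?_⟩
    · refine (Polynomial.natDegree_mul_le).trans ?_
      have h1 : (Polynomial.X : Polynomial ℝ).natDegree ≤ 1 := Polynomial.natDegree_X_le
      have h2 : (P + Polynomial.C c).natDegree ≤ j := by
        refine (Polynomial.natDegree_add_le _ _).trans (max_le hP1 ?_)
        rw [Polynomial.natDegree_C]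
        exact Nat.zero_le _
      omega
    · have hk0 : (0 : ℝ) < k := by exact_mod_cast hk
      have h1 := hP3 k hk
      have h2 : b k / (k : ℝ) ^ 2 = P.eval ((k : ℝ) ^ 2) + c := by linarith
      rw [div_eq_iff (by positivity)] at h2
      rw [h2]
      simp
      ring

/-- the powers are orthogonal to all `Phi q` -/
theorem Sq_pow (i : ℕ) : ∀ q : ℕ, 2 * (i + 1) + 5 ≤ q → Sq q (fun k => ((k : ℝ) ^ 2) ^ (i + 1)) = 0 := by
  induction i with
  | zero =>
    intro q hq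
    obtain ⟨j, rfl⟩ := Nat.exists_eq_add_of_le' (show 2 ≤ q by omega)
    have h := Sq_rel (b := fun k => ((k : ℝ) ^ 2) ^ (0 + 1)) (b' := fun _ => 1) (Gr.const 0 1)
      (fun k hk => by simp) j (by omega)
    rw [Sq_one (j + 1) (by omega), Sq_one j (by omega)] at h
    have r0 := Phi_zero_rec j
    have hpi : (0 : ℝ) < Real.pi ^ 2 := by positivity
    apply mul_left_cancel₀ hpi.ne'
    rw [h]
    linear_combination ((j : ℝ) + 2) * r0
  | succ i ih =>
    intro q hq
    obtain ⟨j, rfl⟩ := Nat.exists_eq_add_of_le' (show 2 ≤ q by omega)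
    have hg : Gr (2 * (i + 1)) (fun k => ((k : ℝ) ^ 2) ^ (i + 1)) := by
      refine ⟨1, by norm_num, fun k hk => ?_⟩
      show |((k : ℝ) ^ 2) ^ (i + 1)| ≤ _
      rw [abs_of_nonneg (by positivity), one_mul, ← pow_mul]
    have h := Sq_rel (b := fun k => ((k : ℝ) ^ 2) ^ (i + 1 + 1)) hg (fun k hk => by
      rw [pow_succ ((k : ℝ) ^ 2) (i + 1)]
      ring) j (by omega)
    rw [ih (j + 1) (by omega), ih j (by omega)] at h
    have hpi : (0 : ℝ) < Real.pi ^ 2 := by positivity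
    apply mul_left_cancel₀ hpi.ne'
    rw [h]
    ring

theorem Sq_poly (P : Polynomial ℝ) (h0 : P.eval 0 = 0) (q : ℕ) (hq : 2 * P.natDegree + 5 ≤ q) :
    Sq q (fun k => P.eval ((k : ℝ) ^ 2)) = 0 := by
  have h1 : ∀ k : ℕ, (-1) ^ k * P.eval (((k + 1 : ℕ) : ℝ) ^ 2) * Phi q (Real.pi * (k + 1)) =
      ∑ i ∈ range (P.natDegree + 1), P.coeff i * ((-1) ^ k * ((((k + 1 : ℕ) : ℝ) ^ 2) ^ i) * Phi q (Real.pi * (k + 1))) := by
    intro k
    rw [Polynomial.eval_eq_sum_range, mul_sum, sum_mul]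
    refine sum_congr rfl fun i _ => ?_
    ring
  unfold Sq
  simp only [h1]
  have hs : ∀ i ∈ range (P.natDegree + 1), Summable (fun k : ℕ =>
      P.coeff i * ((-1) ^ k * ((((k + 1 : ℕ) : ℝ) ^ 2) ^ i) * Phi q (Real.pi * (k + 1)))) := by
    intro i hi
    have hi' := mem_range.1 hi
    have hg : Gr (2 * i) (fun k => ((k : ℝ) ^ 2) ^ i) := by
      refine ⟨1, by norm_num, fun k hk => ?_⟩
      show |((k : ℝ) ^ 2) ^ i| ≤ _
      rw [abs_of_nonneg (by positivity), one_mul, ← pow_mul]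
    exact (Sq_summable hg (by omega)).mul_left _
  rw [Summable.tsum_finsetSum hs]
  refine sum_eq_zero fun i hi => ?_
  have hi' := mem_range.1 hi
  rw [tsum_mul_left]
  rcases Nat.eq_zero_or_pos i with h2 | h2
  · have h3 : P.coeff 0 = 0 := by rw [Polynomial.coeff_zero_eq_eval_zero, h0]
    rw [h2, h3, zero_mul]
  · obtain ⟨l, rfl⟩ := Nat.exists_eq_add_of_le' h2
    have h3 := Sq_pow l q (by omega)
    unfold Sq at h3
    rw [h3, mul_zero]

end Pool.Agent.Q198.XM
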