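import Pool.Agent.Q198.XM.Seq2

/-!
# Extremal measures for the Laplacian: `Phi q ‖x‖` is a Fourier transform

`∫ (1 - ‖ξ‖²)_+^(q - m/2) exp (- i ⟪x, ξ⟫) dξ = c * Phi q ‖x‖` on the Euclidean space of dimension `m + 1`.
-/

set_option autoImplicit false
set_option linter.all false

namespace Pool.Agent.Q198.XM

open MeasureTheory Finset

/-- Euclidean space of dimension `m + 1` -/
abbrev V (m : ℕ) : Type := EuclideanSpace ℝ (Fin (m + 1))

/-- the weight `(1 - ‖ξ‖²)_+^(q - m/2)` -/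
noncomputable def wt (m q : ℕ) (ξ : V m) : ℝ := (max 0 (1 - ‖ξ‖ ^ 2)) ^ ((q : ℝ) - m / 2)

/-- the character `exp (- i ⟪t, ξ⟫)` -/
noncomputable def ch {m : ℕ} (t ξ : V m) : ℂ := Complex.exp (-(Complex.I * ((inner ℝ t ξ : ℝ) : ℂ)))

theorem ch_norm {m : ℕ} (t ξ : V m) : ‖ch t ξ‖ = 1 := by
  unfold ch
  rw [Complex.norm_exp]
  simp

theorem ch_cont {m : ℕ} : Continuous (fun p : V m × V m => ch p.1 p.2) := by
  unfold ch
  fun_prop

theorem ch_cont_left {m : ℕ} (ξ : V m) : Continuous (fun t : V m => ch t ξ) := by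
  unfold ch
  fun_prop

theorem ch_cont_right {m : ℕ} (t : V m) : Continuous (fun ξ : V m => ch t ξ) := by
  unfold ch
  fun_prop

theorem wt_exp_pos {m q : ℕ} (hq : m + 1 ≤ q) : 0 < (q : ℝ) - m / 2 := by
  have h1 : (m : ℝ) + 1 ≤ q := by exact_mod_cast hq
  have h2 : (0 : ℝ) ≤ m := Nat.cast_nonneg m
  linarith

theorem wt_cont {m q : ℕ} (hq : m + 1 ≤ q) : Continuous (wt m q) := by
  unfold wt
  refine Continuous.rpow_const (by fun_prop) fun x => Or.inr (wt_exp_pos hq).le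

theorem wt_zero {m q : ℕ} (hq : m + 1 ≤ q) (ξ : V m) (h : 1 ≤ ‖ξ‖) : wt m q ξ = 0 := by
  unfold wt
  have h1 : max 0 (1 - ‖ξ‖ ^ 2) = 0 := max_eq_left (by nlinarith)
  rw [h1, Real.zero_rpow (wt_exp_pos hq).ne']

theorem wt_nonneg {m q : ℕ} (ξ : V m) : 0 ≤ wt m q ξ := Real.rpow_nonneg (le_max_left _ _) _

theorem wt_pos {m q : ℕ} (ξ : V m) (h : ‖ξ‖ < 1) : 0 < wt m q ξ := by
  unfold wt
  apply Real.rpow_pos_of_pos
  have h1 : ‖ξ‖ ^ 2 < 1 := by nlinarith [norm_nonneg ξ]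
  exact lt_max_of_lt_right (by linarith)

theorem compact_supp {m : ℕ} {E : Type} [NormedAddCommGroup E] (W : V m → E) (h : ∀ ξ, 1 ≤ ‖ξ‖ → W ξ = 0) :
    HasCompactSupport W := by
  refine HasCompactSupport.intro (isCompact_closedBall (0 : V m) 1) fun x hx => h x ?_
  rw [mem_closedBall_zero_iff, not_le] at hx
  exact hx.le

/-- the integral over the slices -/
theorem slice_inner (m q : ℕ) (hq : m + 1 ≤ q) (s : ℝ) :
    ∫ η : Fin m → ℝ, (max 0 (1 - (s ^ 2 + ∑ i, η i ^ 2))) ^ ((q : ℝ) - m / 2) =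
      (if |s| ≤ 1 then (1 - s ^ 2) ^ q else 0) *
        ∫ η : Fin m → ℝ, (max 0 (1 - ∑ i, η i ^ 2)) ^ ((q : ℝ) - m / 2) := by
  have hp := wt_exp_pos hq
  by_cases h1 : |s| < 1
  · rw [if_pos h1.le]
    have h2 : 0 < 1 - s ^ 2 := by
      have := sq_lt_one_iff_abs_lt_one s |>.2 h1
      linarith
    set R := Real.sqrt (1 - s ^ 2) with hR
    have hR0 : 0 < R := Real.sqrt_pos.2 h2
    have hR2 : R ^ 2 = 1 - s ^ 2 := Real.sq_sqrt h2.le
    have h3 := Measure.integral_comp_smul_of_nonneg (volume : Measure (Fin m → ℝ))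
      (fun η : Fin m → ℝ => (max 0 (1 - (s ^ 2 + ∑ i, η i ^ 2))) ^ ((q : ℝ) - m / 2)) R (hR := hR0.le)
    have h4 : ∀ η : Fin m → ℝ, (max 0 (1 - (s ^ 2 + ∑ i, (R • η) i ^ 2))) ^ ((q : ℝ) - m / 2) =
        (1 - s ^ 2) ^ ((q : ℝ) - m / 2) * (max 0 (1 - ∑ i, η i ^ 2)) ^ ((q : ℝ) - m / 2) := by
      intro η
      rw [← Real.mul_rpow h2.le (le_max_left _ _)]
      congr 1
      rw [mul_max_of_nonneg _ _ h2.le, mul_zero]
      congr 1
      have h5 : ∑ i, (R • η) i ^ 2 = (1 - s ^ 2) * ∑ i, η i ^ 2 := by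
        rw [mul_sum]
        refine sum_congr rfl fun i _ => ?_
        rw [Pi.smul_apply, smul_eq_mul, mul_pow, hR2]
      rw [h5]
      ring
    simp only [h4] at h3
    rw [integral_const_mul] at h3
    have h6 : Module.finrank ℝ (Fin m → ℝ) = m := by simp
    rw [h6, smul_eq_mul] at h3
    have h7 : (1 - s ^ 2) ^ q = R ^ m * (1 - s ^ 2) ^ ((q : ℝ) - m / 2) := by
      have h8 : R ^ m = (1 - s ^ 2) ^ ((m : ℝ) / 2) := by
        rw [hR, Real.sqrt_eq_rpow, ← Real.rpow_natCast, ← Real.rpow_mul h2.le]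
        congr 1
        ring
      rw [h8, ← Real.rpow_add h2, ← Real.rpow_natCast]
      congr 1
      ring
    rw [h7, mul_assoc, h3, ← mul_assoc, mul_inv_cancel₀ (by positivity), one_mul]
  · push Not at h1
    have h2 : 1 ≤ s ^ 2 := by
      rw [← sq_abs]
      nlinarith [abs_nonneg s]
    have h3 : ∀ η : Fin m → ℝ, (max 0 (1 - (s ^ 2 + ∑ i, η i ^ 2))) ^ ((q : ℝ) - m / 2) = 0 := by
      intro η
      have h4 : 0 ≤ ∑ i, η i ^ 2 := sum_nonneg fun i _ => sq_nonneg _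
      rw [max_eq_left (by linarith), Real.zero_rpow hp.ne']
    simp only [h3, integral_zero]
    by_cases h5 : |s| ≤ 1
    · rw [if_pos h5]
      have h6 : |s| = 1 := le_antisymm h5 h1
      have h7 : s ^ 2 = 1 := by rw [← sq_abs, h6]; norm_num
      rw [h7, sub_self, zero_pow (by omega), zero_mul]
    · rw [if_neg h5, zero_mul]

/-- Fubini for functions of the first coordinate and the norm of the others -/
theorem slice_fub (m : ℕ) (g : ℝ → ℝ → ℂ)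
    (hi : Integrable (fun ξ : V m => g (ξ 0) (∑ i : Fin m, ξ i.succ ^ 2))) :
    ∫ ξ : V m, g (ξ 0) (∑ i : Fin m, ξ i.succ ^ 2) = ∫ s : ℝ, ∫ η : Fin m → ℝ, g s (∑ i, η i ^ 2) := by
  have e1 := EuclideanSpace.volume_preserving_symm_measurableEquiv_toLp (Fin (m + 1))
  have e2 := volume_preserving_piFinSuccAbove (fun _ : Fin (m + 1) => ℝ) 0
  have h1 := e1.integral_comp' (fun x : Fin (m + 1) → ℝ => g (x 0) (∑ i : Fin m, x i.succ ^ 2))
  have h2 := e2.integral_comp' (fun p : ℝ × (Fin m → ℝ) => g p.1 (∑ i : Fin m, p.2 i ^ 2))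
  have i1 : Integrable (fun x : Fin (m + 1) → ℝ => g (x 0) (∑ i : Fin m, x i.succ ^ 2)) := by
    rw [← e1.integrable_comp_emb (MeasurableEquiv.measurableEmbedding _)]
    exact hi
  have i2 : Integrable (fun p : ℝ × (Fin m → ℝ) => g p.1 (∑ i : Fin m, p.2 i ^ 2)) := by
    rw [← e2.integrable_comp_emb (MeasurableEquiv.measurableEmbedding _)]
    exact i1
  have h3 : ∫ ξ : V m, g (ξ 0) (∑ i : Fin m, ξ i.succ ^ 2) =
      ∫ x : Fin (m + 1) → ℝ, g (x 0) (∑ i : Fin m, x i.succ ^ 2) := h1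
  have h4 : ∫ x : Fin (m + 1) → ℝ, g (x 0) (∑ i : Fin m, x i.succ ^ 2) =
      ∫ p : ℝ × (Fin m → ℝ), g p.1 (∑ i : Fin m, p.2 i ^ 2) := h2
  rw [h3, h4, Measure.volume_eq_prod, integral_prod _ i2]

theorem norm_sq_succ {m : ℕ} (ξ : V m) : ‖ξ‖ ^ 2 = ξ 0 ^ 2 + ∑ i : Fin m, ξ i.succ ^ 2 := by
  rw [EuclideanSpace.norm_sq_eq, Fin.sum_univ_succ]
  simp

/-- the first basis vector -/
noncomputable def e0 (m : ℕ) : V m := EuclideanSpace.single 0 1

theorem int_exp (q : ℕ) (ρ : ℝ) :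
    ∫ s in (-1 : ℝ)..1, Complex.exp (-(Complex.I * ((ρ * s : ℝ) : ℂ))) * (((1 - s ^ 2) ^ q : ℝ) : ℂ) = (Phi q ρ : ℂ) := by
  have h1 : ∀ s : ℝ, Complex.exp (-(Complex.I * ((ρ * s : ℝ) : ℂ))) * (((1 - s ^ 2) ^ q : ℝ) : ℂ) =
      ((Real.cos (ρ * s) * (1 - s ^ 2) ^ q : ℝ) : ℂ) - Complex.I * ((Real.sin (ρ * s) * (1 - s ^ 2) ^ q : ℝ) : ℂ) := by
    intro s
    have h2 : -(Complex.I * ((ρ * s : ℝ) : ℂ)) = ((-(ρ * s) : ℝ) : ℂ) * Complex.I := by
      push_cast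
      ring
    rw [h2, Complex.exp_mul_I, ← Complex.ofReal_cos, ← Complex.ofReal_sin, Real.cos_neg, Real.sin_neg]
    push_cast
    ring
  simp only [h1]
  have hc1 : Continuous (fun s : ℝ => ((Real.cos (ρ * s) * (1 - s ^ 2) ^ q : ℝ) : ℂ)) := by fun_prop
  have hc2 : Continuous (fun s : ℝ => Complex.I * ((Real.sin (ρ * s) * (1 - s ^ 2) ^ q : ℝ) : ℂ)) := by fun_prop
  rw [intervalIntegral.integral_sub (hc1.intervalIntegrable _ _) (hc2.intervalIntegrable _ _),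
    intervalIntegral.integral_const_mul, intervalIntegral.integral_ofReal, intervalIntegral.integral_ofReal]
  have h3 : ∫ s in (-1 : ℝ)..1, Real.sin (ρ * s) * (1 - s ^ 2) ^ q = 0 := by
    have h4 := intervalIntegral.integral_comp_neg (a := (-1 : ℝ)) (b := 1)
      (fun s : ℝ => Real.sin (ρ * s) * (1 - s ^ 2) ^ q)
    rw [neg_neg] at h4
    have h5 : ∀ s : ℝ, Real.sin (ρ * -s) * (1 - (-s) ^ 2) ^ q = -(Real.sin (ρ * s) * (1 - s ^ 2) ^ q) := by
      intro s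
      rw [mul_neg, Real.sin_neg, neg_sq]
      ring
    simp only [h5] at h4
    rw [intervalIntegral.integral_neg] at h4
    linarith
  rw [h3]
  unfold Phi
  simp

/-- the transform of the weight in the direction of the first basis vector -/
theorem slice_e0 (m q : ℕ) (hq : m + 1 ≤ q) (ρ : ℝ) :
    ∫ ξ : V m, (wt m q ξ : ℂ) * Complex.exp (-(Complex.I * ((ρ * ξ 0 : ℝ) : ℂ))) =
      ((∫ η : Fin m → ℝ, (max 0 (1 - ∑ i, η i ^ 2)) ^ ((q : ℝ) - m / 2) : ℝ) : ℂ) * (Phi q ρ : ℂ) := by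
  set J := ∫ η : Fin m → ℝ, (max 0 (1 - ∑ i, η i ^ 2)) ^ ((q : ℝ) - m / 2) with hJ
  have hc : Continuous (fun ξ : V m => (wt m q ξ : ℂ) * Complex.exp (-(Complex.I * ((ρ * ξ 0 : ℝ) : ℂ)))) := by
    have := wt_cont (m := m) hq
    fun_prop
  have hi : Integrable (fun ξ : V m => (wt m q ξ : ℂ) * Complex.exp (-(Complex.I * ((ρ * ξ 0 : ℝ) : ℂ)))) := by
    refine hc.integrable_of_hasCompactSupport (compact_supp _ fun ξ h => ?_)
    rw [wt_zero hq ξ h, Complex.ofReal_zero, zero_mul]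
  have h0 : ∀ ξ : V m, (wt m q ξ : ℂ) * Complex.exp (-(Complex.I * ((ρ * ξ 0 : ℝ) : ℂ))) =
      (fun s R : ℝ => (((max 0 (1 - (s ^ 2 + R))) ^ ((q : ℝ) - m / 2) : ℝ) : ℂ) *
        Complex.exp (-(Complex.I * ((ρ * s : ℝ) : ℂ)))) (ξ 0) (∑ i : Fin m, ξ i.succ ^ 2) := by
    intro ξ
    simp only []
    rw [← norm_sq_succ]
    rfl
  simp only [h0] at hi
  simp only [h0]
  rw [slice_fub m (fun s R : ℝ => (((max 0 (1 - (s ^ 2 + R))) ^ ((q : ℝ) - m / 2) : ℝ) : ℂ) *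
        Complex.exp (-(Complex.I * ((ρ * s : ℝ) : ℂ)))) hi]
  have h1 : ∀ s : ℝ, ∫ η : Fin m → ℝ, (((max 0 (1 - (s ^ 2 + ∑ i, η i ^ 2))) ^ ((q : ℝ) - m / 2) : ℝ) : ℂ) *
        Complex.exp (-(Complex.I * ((ρ * s : ℝ) : ℂ))) =
      Set.indicator (Set.Icc (-1 : ℝ) 1) (fun s => (J : ℂ) *
        (Complex.exp (-(Complex.I * ((ρ * s : ℝ) : ℂ))) * (((1 - s ^ 2) ^ q : ℝ) : ℂ))) s := by
    intro s
    rw [integral_mul_const, integral_complex_ofReal, slice_inner m q hq s, ← hJ]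
    by_cases h : |s| ≤ 1
    · rw [if_pos h, Set.indicator_of_mem (by rw [Set.mem_Icc]; exact abs_le.1 h)]
      push_cast
      ring
    · have h2 : s ∉ Set.Icc (-1 : ℝ) 1 := fun h2 => h (abs_le.2 h2)
      rw [if_neg h, Set.indicator_of_notMem h2]
      simp
  simp only [h1]
  rw [integral_indicator measurableSet_Icc, integral_Icc_eq_integral_Ioc,
    ← intervalIntegral.integral_of_le (by norm_num), intervalIntegral.integral_const_mul, int_exp]

/-- a rotation taking `x` to a multiple of the first basis vector -/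
theorem rot (m : ℕ) (x : V m) : ∃ U : V m ≃ₗᵢ[ℝ] V m, U x = ‖x‖ • e0 m := by
  have h : ‖x‖ = ‖(‖x‖ • e0 m)‖ := by
    rw [norm_smul, norm_norm]
    simp [e0]
  exact ⟨_, Submodule.reflection_sub h⟩

theorem slice (m q : ℕ) (hq : m + 1 ≤ q) : ∃ c : ℝ, 0 < c ∧ ∀ x : V m,
    ∫ ξ : V m, (wt m q ξ : ℂ) * ch x ξ = (c : ℂ) * (Phi q ‖x‖ : ℂ) := by
  refine ⟨∫ η : Fin m → ℝ, (max 0 (1 - ∑ i, η i ^ 2)) ^ ((q : ℝ) - m / 2), ?_, fun x => ?_⟩
  · have h1 := slice_e0 m q hq 0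
    have h2 : ∀ ξ : V m, (wt m q ξ : ℂ) * Complex.exp (-(Complex.I * ((0 * ξ 0 : ℝ) : ℂ))) = ((wt m q ξ : ℝ) : ℂ) := by
      intro ξ
      rw [zero_mul, Complex.ofReal_zero, mul_zero, neg_zero, Complex.exp_zero, mul_one]
    simp only [h2] at h1
    rw [integral_complex_ofReal] at h1
    have h3 : ∫ ξ : V m, wt m q ξ = (∫ η : Fin m → ℝ, (max 0 (1 - ∑ i, η i ^ 2)) ^ ((q : ℝ) - m / 2)) * Phi q 0 := by
      exact_mod_cast h1
    have h4 : 0 < ∫ ξ : V m, wt m q ξ := by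
      refine (wt_cont hq).integral_pos_of_hasCompactSupport_nonneg_nonzero (x := 0)
        (compact_supp _ (wt_zero hq)) (fun ξ => wt_nonneg ξ) (wt_pos 0 (by simp)).ne'
    rw [h3] at h4
    exact (pos_iff_pos_of_mul_pos h4).2 (Phi_zero_pos q)
  · obtain ⟨U, hU⟩ := rot m x
    rw [← slice_e0 m q hq ‖x‖]
    have h1 := (U.measurePreserving).integral_comp' (f := U.toHomeomorph.toMeasurableEquiv)
      (fun ξ : V m => (wt m q ξ : ℂ) * Complex.exp (-(Complex.I * ((‖x‖ * ξ 0 : ℝ) : ℂ))))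
    rw [← h1]
    refine integral_congr_ae (Filter.Eventually.of_forall fun ξ => ?_)
    have h2 : (U.toHomeomorph.toMeasurableEquiv) ξ = U ξ := rfl
    simp only [h2]
    have h3 : wt m q (U ξ) = wt m q ξ := by
      unfold wt
      rw [U.norm_map]
    have h4 : inner ℝ x ξ = ‖x‖ * (U ξ) 0 := by
      rw [← U.inner_map_map, hU, inner_smul_left]
      simp [e0, EuclideanSpace.inner_single_left]
    rw [h3]
    unfold ch
    rw [h4]

end Pool.Agent.Q198.XM
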