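import Pool.Agent.Q198.XM.Slice

/-!
# Extremal measures for the Laplacian: transforms of functions supported in the unit ball
-/

set_option autoImplicit false
set_option linter.all false

namespace Pool.Agent.Q198.XM

open MeasureTheory Finset

/-- Fourier transforms of continuous functions supported in the unit ball -/
def Wf {m : ℕ} (f : V m → ℂ) : Prop :=
  ∃ W : V m → ℂ, Continuous W ∧ (∀ ξ, 1 ≤ ‖ξ‖ → W ξ = 0) ∧ ∀ t, f t = ∫ ξ, W ξ * ch t ξ

theorem four_int {m : ℕ} {W : V m → ℂ} (hW : Continuous W) (h0 : ∀ ξ, 1 ≤ ‖ξ‖ → W ξ = 0) (t : V m) :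
    Integrable (fun ξ => W ξ * ch t ξ) := by
  refine (hW.mul (ch_cont_right t)).integrable_of_hasCompactSupport (compact_supp _ fun ξ h => ?_)
  show W ξ * ch t ξ = 0
  rw [h0 ξ h, zero_mul]

theorem Wf.add {m : ℕ} {f g : V m → ℂ} (hf : Wf f) (hg : Wf g) : Wf (fun t => f t + g t) := by
  obtain ⟨W, hW, h0, h⟩ := hf
  obtain ⟨W', hW', h0', h'⟩ := hg
  refine ⟨fun ξ => W ξ + W' ξ, hW.add hW', fun ξ hξ => by simp only [h0 ξ hξ, h0' ξ hξ, add_zero], fun t => ?_⟩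
  simp only []
  rw [h t, h' t, ← integral_add (four_int hW h0 t) (four_int hW' h0' t)]
  refine integral_congr_ae (Filter.Eventually.of_forall fun ξ => ?_)
  simp only []
  ring

theorem Wf.const_mul {m : ℕ} {f : V m → ℂ} (hf : Wf f) (c : ℂ) : Wf (fun t => c * f t) := by
  obtain ⟨W, hW, h0, h⟩ := hf
  refine ⟨fun ξ => c * W ξ, continuous_const.mul hW, fun ξ hξ => by simp only [h0 ξ hξ, mul_zero], fun t => ?_⟩
  simp only []
  rw [h t, ← integral_const_mul]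
  refine integral_congr_ae (Filter.Eventually.of_forall fun ξ => ?_)
  simp only []
  ring

theorem Wf.bdd {m : ℕ} {f : V m → ℂ} (hf : Wf f) : ∃ C : ℝ, ∀ t, ‖f t‖ ≤ C := by
  obtain ⟨W, hW, h0, h⟩ := hf
  refine ⟨∫ ξ, ‖W ξ‖, fun t => ?_⟩
  rw [h t]
  refine (norm_integral_le_integral_norm _).trans (le_of_eq ?_)
  refine integral_congr_ae (Filter.Eventually.of_forall fun ξ => ?_)
  simp only [norm_mul, ch_norm, mul_one]

theorem Wf.cont {m : ℕ} {f : V m → ℂ} (hf : Wf f) : Continuous f := by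
  obtain ⟨W, hW, h0, h⟩ := hf
  have h1 : f = fun t => ∫ ξ, W ξ * ch t ξ := funext h
  rw [h1]
  have hi : Integrable W := hW.integrable_of_hasCompactSupport (compact_supp _ h0)
  refine continuous_of_dominated (bound := fun ξ => ‖W ξ‖) (fun t => (four_int hW h0 t).aestronglyMeasurable)
    (fun t => Filter.Eventually.of_forall fun ξ => ?_) hi.norm
    (Filter.Eventually.of_forall fun ξ => continuous_const.mul (ch_cont_left ξ))
  rw [norm_mul, ch_norm, mul_one]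

/-- the `j`-th basis vector -/
noncomputable def ej {m : ℕ} (j : Fin (m + 1)) : V m := EuclideanSpace.single j 1

theorem ej_apply {m : ℕ} (j i : Fin (m + 1)) : (ej j : V m) i = if i = j then 1 else 0 := by
  unfold ej
  simp [Pi.single_apply]

theorem ch_deriv {m : ℕ} (t ξ : V m) (j : Fin (m + 1)) (τ : ℝ) :
    HasDerivAt (fun τ : ℝ => ch (t + τ • ej j) ξ) (-(Complex.I * (ξ j : ℂ)) * ch (t + τ • ej j) ξ) τ := by
  have h1 : ∀ τ : ℝ, ch (t + τ • ej j) ξ = Complex.exp (-(Complex.I * (((inner ℝ t ξ : ℝ) + τ * ξ j : ℝ) : ℂ))) := by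
    intro τ
    unfold ch
    rw [inner_add_left, inner_smul_left]
    have h2 : inner ℝ (ej j) ξ = ξ j := by
      unfold ej
      simp [EuclideanSpace.inner_single_left]
    rw [h2]
    simp
  have h3 : HasDerivAt (fun τ : ℝ => (((inner ℝ t ξ : ℝ) + τ * ξ j : ℝ) : ℂ)) (ξ j : ℂ) τ := by
    have h4 : HasDerivAt (fun τ : ℝ => (inner ℝ t ξ : ℝ) + τ * ξ j) (ξ j) τ := by
      simpa using ((hasDerivAt_id τ).mul_const (ξ j)).const_add (inner ℝ t ξ : ℝ)
    exact h4.ofReal_comp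
  have h5 := ((h3.const_mul Complex.I).neg).cexp
  rw [show (fun τ : ℝ => ch (t + τ • ej j) ξ) = fun τ : ℝ =>
    Complex.exp (-(Complex.I * (((inner ℝ t ξ : ℝ) + τ * ξ j : ℝ) : ℂ))) from funext h1, h1 τ]
  convert! h5 using 1
  simp only [Pi.neg_apply]
  ring

theorem four_deriv {m : ℕ} {W : V m → ℂ} (hW : Continuous W) (h0 : ∀ ξ, 1 ≤ ‖ξ‖ → W ξ = 0) (t : V m) (j : Fin (m + 1)) :
    HasDerivAt (fun τ : ℝ => ∫ ξ, W ξ * ch (t + τ • ej j) ξ) (∫ ξ, (-(Complex.I * (ξ j : ℂ)) * W ξ) * ch t ξ) 0 := by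
  have hc : Continuous (fun ξ : V m => -(Complex.I * (ξ j : ℂ)) * W ξ) := by fun_prop
  have hz : ∀ ξ : V m, 1 ≤ ‖ξ‖ → -(Complex.I * (ξ j : ℂ)) * W ξ = 0 := fun ξ hξ => by rw [h0 ξ hξ, mul_zero]
  have hi : Integrable (fun ξ : V m => ‖-(Complex.I * (ξ j : ℂ)) * W ξ‖) :=
    (hc.integrable_of_hasCompactSupport (compact_supp _ hz)).norm
  have key := (hasDerivAt_integral_of_dominated_loc_of_deriv_le (μ := (volume : Measure (V m)))
    (F := fun (τ : ℝ) (ξ : V m) => W ξ * ch (t + τ • ej j) ξ)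
    (F' := fun (τ : ℝ) (ξ : V m) => (-(Complex.I * (ξ j : ℂ)) * W ξ) * ch (t + τ • ej j) ξ)
    (x₀ := 0) (s := Set.univ) (bound := fun ξ : V m => ‖-(Complex.I * (ξ j : ℂ)) * W ξ‖)
    Filter.univ_mem (Filter.Eventually.of_forall fun τ => (four_int hW h0 _).aestronglyMeasurable)
    (four_int hW h0 _) (four_int hc hz _).aestronglyMeasurable
    (Filter.Eventually.of_forall fun ξ τ _ => by rw [norm_mul _ (ch _ _), ch_norm, mul_one])
    hi (Filter.Eventually.of_forall fun ξ τ _ => by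
      have h1 := (ch_deriv t ξ j τ).const_mul (W ξ)
      convert! h1 using 1
      ring)).2
  simpa using key

/-- monomials -/
noncomputable def mon {m : ℕ} (β : Fin (m + 1) → ℕ) (t : V m) : ℝ := ∏ i, t i ^ β i

theorem mon_zero {m : ℕ} (t : V m) : mon 0 t = 1 := by
  unfold mon
  simp

theorem mon_succ {m : ℕ} (β : Fin (m + 1) → ℕ) (j : Fin (m + 1)) (t : V m) :
    mon (β + Pi.single j 1) t = t j * mon β t := by
  unfold mon
  simp only [Pi.add_apply, pow_add]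
  rw [prod_mul_distrib, mul_comm]
  congr 1
  rw [prod_eq_single j]
  · simp
  · intro b _ hb
    simp [Pi.single_eq_of_ne hb]
  · intro h
    exact absurd (mem_univ j) h

theorem mon_deriv {m : ℕ} (β : Fin (m + 1) → ℕ) (j : Fin (m + 1)) (t : V m) :
    HasDerivAt (fun τ : ℝ => mon β (t + τ • ej j)) (β j * mon (β - Pi.single j 1) t) 0 := by
  have h1 : ∀ τ : ℝ, mon β (t + τ • ej j) = (t j + τ) ^ β j * ∏ i ∈ univ.erase j, t i ^ β i := by
    intro τ
    unfold mon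
    rw [← mul_prod_erase univ _ (mem_univ j)]
    congr 1
    · simp [ej_apply]
    · refine prod_congr rfl fun i hi => ?_
      simp [ej_apply, (mem_erase.1 hi).1]
  have h2 : β j * mon (β - Pi.single j 1) t = β j * t j ^ (β j - 1) * ∏ i ∈ univ.erase j, t i ^ β i := by
    unfold mon
    rw [← mul_prod_erase univ _ (mem_univ j), ← mul_assoc]
    congr 1
    · simp
    · refine prod_congr rfl fun i hi => ?_
      simp [Pi.single_eq_of_ne (mem_erase.1 hi).1]
  rw [show (fun τ : ℝ => mon β (t + τ • ej j)) = fun τ : ℝ => (t j + τ) ^ β j * ∏ i ∈ univ.erase j, t i ^ β i from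
    funext h1, h2]
  have h3 : HasDerivAt (fun τ : ℝ => t j + τ) 1 0 := by simpa using (hasDerivAt_id (0 : ℝ)).const_add (t j)
  have h4 := (h3.pow (β j)).mul_const (∏ i ∈ univ.erase j, t i ^ β i)
  convert! h4 using 1
  simp

theorem ej_norm {m : ℕ} (j : Fin (m + 1)) : ‖(ej j : V m)‖ = 1 := by
  unfold ej
  simp

theorem Phi_norm_deriv {m : ℕ} (q : ℕ) (t : V m) (j : Fin (m + 1)) :
    HasDerivAt (fun τ : ℝ => Phi q ‖t + τ • ej j‖) (-(t j / (2 * (q + 1))) * Phi (q + 1) ‖t‖) 0 := by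
  by_cases ht : t = 0
  · subst ht
    have h1 : (fun τ : ℝ => Phi q ‖(0 : V m) + τ • ej j‖) = fun τ : ℝ => Phi q τ := by
      funext τ
      rw [zero_add, norm_smul, ej_norm, mul_one, Real.norm_eq_abs, Phi_abs]
    rw [h1]
    have h2 := Phi_deriv q 0
    simpa using h2
  · have h1 : ∀ τ : ℝ, ‖t + τ • ej j‖ ^ 2 = ‖t‖ ^ 2 + 2 * τ * t j + τ ^ 2 := by
      intro τ
      rw [norm_add_sq_real, inner_smul_right, norm_smul, ej_norm, mul_one, Real.norm_eq_abs, sq_abs]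
      have h2 : inner ℝ t (ej j) = t j := by
        unfold ej
        simp [EuclideanSpace.inner_single_right]
      rw [h2]
      ring
    have h3 : ∀ τ : ℝ, ‖t + τ • ej j‖ = Real.sqrt (‖t‖ ^ 2 + 2 * τ * t j + τ ^ 2) := by
      intro τ
      rw [← h1, Real.sqrt_sq (norm_nonneg _)]
    have h4 : HasDerivAt (fun τ : ℝ => ‖t‖ ^ 2 + 2 * τ * t j + τ ^ 2) (2 * t j) 0 := by
      have h5 := ((((hasDerivAt_id (0 : ℝ)).const_mul 2).mul_const (t j)).const_add (‖t‖ ^ 2)).add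
        ((hasDerivAt_id (0 : ℝ)).pow 2)
      convert! h5 using 1
      simp
    have hn : 0 < ‖t‖ := norm_pos_iff.2 ht
    have h6 : HasDerivAt (fun τ : ℝ => ‖t + τ • ej j‖) (t j / ‖t‖) 0 := by
      have h7 := h4.sqrt (by simp [ht])
      rw [show (fun τ : ℝ => ‖t + τ • ej j‖) = fun τ : ℝ => Real.sqrt (‖t‖ ^ 2 + 2 * τ * t j + τ ^ 2) from funext h3]
      convert! h7 using 1
      simp
      field_simp
    have h8 : HasDerivAt (Phi q) (-(‖t‖ / (2 * (q + 1))) * Phi (q + 1) ‖t‖) ‖t + (0 : ℝ) • ej j‖ := by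
      have h9 : ‖t + (0 : ℝ) • (ej j : V m)‖ = ‖t‖ := by simp
      rw [h9]
      exact Phi_deriv q ‖t‖
    have h10 := h8.comp (0 : ℝ) h6
    convert! h10 using 1
    field_simp

theorem Wf_Phi (m q : ℕ) (hq : m + 1 ≤ q) : Wf (fun t : V m => (Phi q ‖t‖ : ℂ)) := by
  obtain ⟨c, hc, h⟩ := slice m q hq
  have hc' : (c : ℂ) ≠ 0 := by exact_mod_cast hc.ne'
  have h1 : Wf (fun t : V m => (c : ℂ) * (Phi q ‖t‖ : ℂ)) :=
    ⟨fun ξ => (wt m q ξ : ℂ), Complex.continuous_ofReal.comp (wt_cont hq),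
      fun ξ hξ => by simp only [wt_zero hq ξ hξ, Complex.ofReal_zero], fun t => (h t).symm⟩
  have h2 := h1.const_mul (c : ℂ)⁻¹
  have h3 : (fun t : V m => (c : ℂ)⁻¹ * ((c : ℂ) * (Phi q ‖t‖ : ℂ))) = fun t : V m => (Phi q ‖t‖ : ℂ) := by
    funext t
    rw [← mul_assoc, inv_mul_cancel₀ hc', one_mul]
  rwa [h3] at h2

/-- the functions `t^β * Phi q ‖t‖` -/
noncomputable def gb {m : ℕ} (β : Fin (m + 1) → ℕ) (q : ℕ) (t : V m) : ℂ := ((mon β t * Phi q ‖t‖ : ℝ) : ℂ)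

theorem gb_deriv {m : ℕ} (β : Fin (m + 1) → ℕ) (q : ℕ) (t : V m) (j : Fin (m + 1)) :
    HasDerivAt (fun τ : ℝ => gb β q (t + τ • ej j))
      ((β j : ℂ) * gb (β - Pi.single j 1) q t + (-(1 / (2 * ((q : ℂ) + 1)))) * gb (β + Pi.single j 1) (q + 1) t) 0 := by
  have h1 := ((mon_deriv β j t).mul (Phi_norm_deriv q t j)).ofReal_comp
  unfold gb
  convert! h1 using 1
  simp only [zero_smul, add_zero, mon_succ]
  push_cast
  ring

theorem sum_single {m : ℕ} (β : Fin (m + 1) → ℕ) (j : Fin (m + 1)) :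
    ∑ i, (β + Pi.single j 1 : Fin (m + 1) → ℕ) i = ∑ i, β i + 1 := by
  simp only [Pi.add_apply, sum_add_distrib]
  congr 1
  simp

theorem sum_sub_le {m : ℕ} (β : Fin (m + 1) → ℕ) (j : Fin (m + 1)) :
    ∑ i, (β - Pi.single j 1 : Fin (m + 1) → ℕ) i ≤ ∑ i, β i :=
  sum_le_sum fun i _ => by
    rw [Pi.sub_apply]
    exact Nat.sub_le _ _

theorem exists_single {m : ℕ} (β : Fin (m + 1) → ℕ) (h : 0 < ∑ i, β i) :
    ∃ (γ : Fin (m + 1) → ℕ) (j : Fin (m + 1)), β = γ + Pi.single j 1 := by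
  obtain ⟨j, _, hj⟩ := exists_ne_zero_of_sum_ne_zero h.ne'
  refine ⟨β - Pi.single j 1, j, ?_⟩
  funext i
  by_cases hi : i = j
  · subst hi
    simp
    omega
  · simp [Pi.single_eq_of_ne hi]

theorem Wf_gb (m : ℕ) : ∀ (d : ℕ) (β : Fin (m + 1) → ℕ) (q : ℕ), ∑ i, β i ≤ d → ∑ i, β i + (m + 1) ≤ q → Wf (gb β q) := by
  intro d
  induction d with
  | zero =>
    intro β q h1 h2
    have h3 : β = 0 := by
      funext i
      have h4 : ∑ i, β i = 0 := Nat.le_zero.1 h1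
      have h5 := (sum_eq_zero_iff.1 h4) i (mem_univ i)
      simpa using h5
    subst h3
    have h6 := Wf_Phi m q (by omega)
    have h7 : (gb (0 : Fin (m + 1) → ℕ) q) = fun t : V m => (Phi q ‖t‖ : ℂ) := by
      funext t
      unfold gb
      rw [mon_zero, one_mul]
    rwa [h7]
  | succ d ih =>
    intro β q h1 h2
    rcases Nat.eq_zero_or_pos (∑ i, β i) with h0 | h0
    · exact ih β q (by omega) h2
    obtain ⟨γ, j, rfl⟩ := exists_single β h0
    rw [sum_single] at h1 h2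
    obtain ⟨p, rfl⟩ := Nat.exists_eq_add_of_le' (show 1 ≤ q by omega)
    have hA := ih γ p (by omega) (by omega)
    have hB := ih (γ - Pi.single j 1) p ((sum_sub_le γ j).trans (by omega)) (by have := sum_sub_le γ j; omega)
    obtain ⟨W, hW, hz, h⟩ := hA
    have hcont : Continuous (fun ξ : V m => -(Complex.I * (ξ j : ℂ)) * W ξ) := by fun_prop
    have hC : Wf (fun t : V m => ∫ ξ, (-(Complex.I * (ξ j : ℂ)) * W ξ) * ch t ξ) :=
      ⟨_, hcont, fun ξ hξ => by rw [hz ξ hξ, mul_zero], fun t => rfl⟩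
    have hp : (2 * ((p : ℂ) + 1)) ≠ 0 := by
      have h9 : ((p : ℂ) + 1) ≠ 0 := Nat.cast_add_one_ne_zero p
      exact mul_ne_zero two_ne_zero h9
    have key : ∀ t : V m, gb (γ + Pi.single j 1) (p + 1) t = (2 * ((p : ℂ) + 1) * (γ j : ℂ)) * gb (γ - Pi.single j 1) p t +
        (-(2 * ((p : ℂ) + 1))) * ∫ ξ, (-(Complex.I * (ξ j : ℂ)) * W ξ) * ch t ξ := by
      intro t
      have d1 := gb_deriv γ p t j
      have d2 := four_deriv hW hz t j
      have d3 : (fun τ : ℝ => gb γ p (t + τ • ej j)) = fun τ : ℝ => ∫ ξ, W ξ * ch (t + τ • ej j) ξ :=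
        funext fun τ => h _
      rw [d3] at d1
      have d4 := d1.unique d2
      have d5 : (2 * ((p : ℂ) + 1)) * (1 / (2 * ((p : ℂ) + 1))) = 1 := mul_one_div_cancel hp
      linear_combination (-(2 * ((p : ℂ) + 1))) * d4 + (-gb (γ + Pi.single j 1) (p + 1) t) * d5
    have h10 : gb (γ + Pi.single j 1) (p + 1) = fun t : V m => (2 * ((p : ℂ) + 1) * (γ j : ℂ)) * gb (γ - Pi.single j 1) p t +
        (-(2 * ((p : ℂ) + 1))) * ∫ ξ, (-(Complex.I * (ξ j : ℂ)) * W ξ) * ch t ξ := funext key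
    rw [h10]
    exact (hB.const_mul _).add (hC.const_mul _)

end Pool.Agent.Q198.XM
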